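import Mathlib

/-! # Bin: binary forms and polynomials in one variable


(`MvPolynomial.IsHomogeneous`, `Finsupp.weight`/`Finsupp.degree`, `Fin.sum_univ_two`).  Write `P = ∑ d ∈ P.support, monomial d (coeff d P)`:
`aeval ![1, X] P = ∑ d ∈ support, C (coeff d P) * X ^ d 1`, so `natDegree ≤ n`; the coefficient at `l` is `coeff (single 0 (n - l) + single 1 l) P` for `l ≤ n` (the
exponent `d 1 = l` determines `d`).  This gives `bin_inj`, and `bin_coeff` (`eval ![0, 1]` keeps exactly the monomials with `d 0 = 0`, i.e. `d 1 = n`).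
`bin_eval`: compose the evaluations (`MvPolynomial.aeval`, `Polynomial.eval` is a ring hom: `MvPolynomial.induction_on`). -/

set_option autoImplicit false

namespace Pool.Agent.Lib.MP_1e3e9c_ag.LN

open Polynomial

private theorem bin_sum {k : Type*} [Field k] (P : MvPolynomial (Fin 2) k) :
    MvPolynomial.aeval ![(1 : k[X]), X] P =
      ∑ d ∈ P.support, C (MvPolynomial.coeff d P) * X ^ d 1 := by
  rw [MvPolynomial.aeval_def, MvPolynomial.eval₂_eq']
  refine Finset.sum_congr rfl fun d _ => ?_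
  rw [Fin.prod_univ_two]
  show C (MvPolynomial.coeff d P) * (1 ^ d 0 * X ^ d 1) = _
  rw [one_pow, one_mul]

private theorem bin_hom {k : Type*} [Field k] {P : MvPolynomial (Fin 2) k} {n : ℕ}
    (hP : P.IsHomogeneous n) {d : Fin 2 →₀ ℕ} (hd : d ∈ P.support) : d 0 + d 1 = n := by
  have h1 : Finsupp.weight (fun _ => 1) d = n := hP (MvPolynomial.mem_support_iff.1 hd)
  rw [← Finsupp.degree_eq_weight_one, Finsupp.degree_eq_sum, Fin.sum_univ_two] at h1
  exact h1

private theorem bin_ext {d d' : Fin 2 →₀ ℕ} {n : ℕ} (h : d 0 + d 1 = n) (h' : d' 0 + d' 1 = n)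
    (h1 : d 1 = d' 1) : d = d' := by
  ext i
  fin_cases i
  · show d 0 = d' 0
    omega
  · exact h1

private theorem bin_cf {k : Type*} [Field k] (P : MvPolynomial (Fin 2) k) (l : ℕ) :
    (MvPolynomial.aeval ![(1 : k[X]), X] P).coeff l =
      ∑ d ∈ P.support, if l = d 1 then MvPolynomial.coeff d P else 0 := by
  rw [bin_sum, finsetSum_coeff]
  exact Finset.sum_congr rfl fun d _ => coeff_C_mul_X_pow _ _ _

theorem bin_deg {k : Type*} [Field k] (P : MvPolynomial (Fin 2) k) (n : ℕ)
    (hP : P.IsHomogeneous n) :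
    (MvPolynomial.aeval ![(1 : k[X]), X] P).natDegree ≤ n := by
  rw [bin_sum]
  refine natDegree_sum_le_of_forall_le _ _ fun d hd => ?_
  have h1 := bin_hom hP hd
  exact (natDegree_C_mul_X_pow_le _ _).trans (by omega)

theorem bin_coeff {k : Type*} [Field k] (P : MvPolynomial (Fin 2) k) (n : ℕ)
    (hP : P.IsHomogeneous n) :
    (MvPolynomial.aeval ![(1 : k[X]), X] P).coeff n = MvPolynomial.eval ![0, 1] P := by
  rw [bin_cf, MvPolynomial.eval_eq']
  refine Finset.sum_congr rfl fun d hd => ?_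
  have h1 := bin_hom hP hd
  rw [Fin.prod_univ_two]
  show _ = MvPolynomial.coeff d P * ((0 : k) ^ d 0 * 1 ^ d 1)
  rw [one_pow, mul_one]
  by_cases h2 : n = d 1
  · have h3 : d 0 = 0 := by omega
    rw [if_pos h2, h3, pow_zero, mul_one]
  · have h3 : d 0 ≠ 0 := by omega
    rw [if_neg h2, zero_pow h3, mul_zero]

theorem bin_inj {k : Type*} [Field k] (P : MvPolynomial (Fin 2) k) (n : ℕ)
    (hP : P.IsHomogeneous n) (h : MvPolynomial.aeval ![(1 : k[X]), X] P = 0) : P = 0 := by
  by_contra hne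
  obtain ⟨d, hd⟩ := MvPolynomial.ne_zero_iff.1 hne
  have hd' : d ∈ P.support := MvPolynomial.mem_support_iff.2 hd
  have h1 := bin_cf P (d 1)
  rw [h, coeff_zero, Finset.sum_eq_single d, if_pos rfl] at h1
  · exact hd h1.symm
  · intro d' hd'' hne'
    rw [if_neg]
    intro h2
    exact hne' (bin_ext (bin_hom hP hd'') (bin_hom hP hd') h2.symm)
  · intro h2
    exact absurd hd' h2

theorem bin_eval {k : Type*} [Field k] (P : MvPolynomial (Fin 2) k) (x : k) :
    (MvPolynomial.aeval ![(1 : k[X]), X] P).eval x = MvPolynomial.eval ![1, x] P := by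
  rw [bin_sum, eval_finsetSum, MvPolynomial.eval_eq']
  refine Finset.sum_congr rfl fun d _ => ?_
  rw [Fin.prod_univ_two, eval_mul, eval_C, eval_pow, eval_X]
  show _ = MvPolynomial.coeff d P * ((1 : k) ^ d 0 * x ^ d 1)
  rw [one_pow, one_mul]

end Pool.Agent.Lib.MP_1e3e9c_ag.LN
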