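import Pool.Agent.Lib.MP_1e3e9c_ag.LN.Defs
import Pool.Agent.Lib.MP_1e3e9c_ag.RC.Spec

/-! # Univariate form: matrices of polynomials on the projective line

`G : Fin r → Fin m → k[X]` is the matrix of a map `⊕ O(a i) → ⊕ O(e l)` on the projective line (`G l i` is a form of degree
`e l - a i` with `s = 1`, `t = X`; its value at infinity is the coefficient `e l` of `G l i * X ^ a i`).
`Wsub G a b` are the global sections of (kernel of `G`)(`- b`). -/

set_option autoImplicit false

namespace Pool.Agent.Lib.MP_1e3e9c_ag.LN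

open Polynomial Pool.Agent.Lib.MP_1e3e9c_ag.RC

/-- the global sections of `(ker G)(-b)` -/
noncomputable def Wsub {k : Type*} [Field k] {r m : ℕ} (G : Fin r → Fin m → k[X]) (a : Fin m → ℕ)
    (b : ℕ) : Submodule k (Fin m → k[X]) where
  carrier := {ψ | (∀ i, (ψ i * X ^ b).natDegree ≤ a i) ∧ ∀ l, ∑ i, ψ i * G l i = 0}
  add_mem' := by
    rintro p q ⟨hp, hp'⟩ ⟨hq, hq'⟩
    refine ⟨fun i => ?_, fun l => ?_⟩
    · rw [Pi.add_apply, add_mul]
      exact natDegree_add_le_of_degree_le (hp i) (hq i)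
    · simp only [Pi.add_apply, add_mul, Finset.sum_add_distrib, hp' l, hq' l, add_zero]
  zero_mem' := by
    refine ⟨fun i => ?_, fun l => ?_⟩
    · simp
    · simp
  smul_mem' := by
    rintro c p ⟨hp, hp'⟩
    refine ⟨fun i => ?_, fun l => ?_⟩
    · rw [Pi.smul_apply, smul_mul_assoc]
      exact (natDegree_smul_le c _).trans (hp i)
    · simp only [Pi.smul_apply, smul_mul_assoc, ← Finset.smul_sum, hp' l, smul_zero]

theorem mem_Wsub {k : Type*} [Field k] {r m : ℕ} {G : Fin r → Fin m → k[X]} {a : Fin m → ℕ}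
    {b : ℕ} {ψ : Fin m → k[X]} :
    ψ ∈ Wsub G a b ↔ (∀ i, (ψ i * X ^ b).natDegree ≤ a i) ∧ ∀ l, ∑ i, ψ i * G l i = 0 :=
  Iff.rfl

/-- `G` is a matrix of forms, and the kernel of `G` at every point of the projective line consists of the values of
the global sections. -/
structure FreeMat {k : Type*} [Field k] {r m : ℕ} (G : Fin r → Fin m → k[X]) (a : Fin m → ℕ)
    (e : Fin r → ℕ) : Prop where
  deg : ∀ l i, (G l i * X ^ a i).natDegree ≤ e l
  fin : ∀ (x : k) (v : Fin m → k), (∀ l, ∑ i, v i * (G l i).eval x = 0) →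
    ∃ ψ ∈ Wsub G a 0, ∀ i, (ψ i).eval x = v i
  inf : ∀ v : Fin m → k, (∀ l, ∑ i, v i * (G l i * X ^ a i).coeff (e l) = 0) →
    ∃ ψ ∈ Wsub G a 0, ∀ i, (ψ i).coeff (a i) = v i

/-- `G l i` for `V`: the partial derivative `∂g/∂y_i` at `z = 1`, `x = X`, `y = 0` -/
noncomputable def jx {k B : Type*} [Field k] {m : ℕ} (g : MvPolynomial (Coord B m) k) (i : Fin m) :
    k[X] :=
  MvPolynomial.aeval (pt (fun _ => (0 : k[X]))) (MvPolynomial.pderiv (Sum.inr (some i)) g)

/-- reduction modulo `τ` of polynomials over `k[[τ]]` -/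
noncomputable def redt {k : Type*} [Field k] : (PowerSeries k)[X] →+* k[X] :=
  Polynomial.mapRingHom (PowerSeries.constantCoeff (R := k))

theorem redt_eq_zero {k : Type*} [Field k] (q : (PowerSeries k)[X]) :
    redt q = 0 ↔ C (PowerSeries.X : PowerSeries k) ∣ q := by
  rw [Polynomial.C_dvd_iff_dvd_coeff]
  constructor
  · intro h i
    rw [PowerSeries.X_dvd_iff]
    have h1 := congrArg (fun p : k[X] => p.coeff i) h
    simpa [redt] using h1
  · intro h
    ext i
    have h1 := h i
    rw [PowerSeries.X_dvd_iff] at h1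
    simpa [redt] using h1

theorem redt_C_X {k : Type*} [Field k] : redt (C (PowerSeries.X : PowerSeries k)) = 0 := by
  rw [redt_eq_zero]

theorem redt_map_C {k : Type*} [Field k] (p : k[X]) :
    redt (p.map (PowerSeries.C : k →+* PowerSeries k)) = p := by
  ext i
  simp [redt]

end Pool.Agent.Lib.MP_1e3e9c_ag.LN
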