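import Pool.Agent.Lib.MP_1e3e9c_ag.LN.Core

/-! # Count: the number of sections


`Λ c i = ∑ h, ∑ n : Fin (b h), C (c ⟨h, n⟩) * X ^ n * ν h i`.  By `hspan` every `ψ ∈ Wsub G a 1` lies in the range of `Λ`: `c h = 0` or
`(c h).natDegree + 1 ≤ b h`, in both cases `c h = ∑ n : Fin (b h), C ((c h).coeff n) * X ^ n` (`Polynomial.as_sum_range'`).  So
`finrank (Wsub G a 1) ≤ finrank (range Λ) ≤ finrank (domain) = card (Σ h, Fin (b h)) = ∑ h, b h`
(`Submodule.finrank_mono`, `LinearMap.finrank_range_le`, `Module.finrank_fintype_fun_eq_card`). -/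

set_option autoImplicit false

namespace Pool.Agent.Lib.MP_1e3e9c_ag.LN

open Polynomial

theorem count {k : Type*} [Field k] {r m ρ : ℕ} (G : Fin r → Fin m → k[X]) (a : Fin m → ℕ)
    (b : Fin ρ → ℕ) (ν : Fin ρ → Fin m → k[X])
    (hspan : ∀ ψ ∈ Wsub G a 1, ∃ c : Fin ρ → k[X],
      (∀ h, (c h * X ^ 1).natDegree ≤ b h) ∧ ∀ i, ψ i = ∑ h, c h * ν h i) :
    Module.finrank k (Wsub G a 1) ≤ ∑ h, b h := by
  classical
  let Λ : ((Σ h : Fin ρ, Fin (b h)) → k) →ₗ[k] (Fin m → k[X]) :=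
    { toFun := fun c i => ∑ x : (Σ h : Fin ρ, Fin (b h)), C (c x) * X ^ (x.2 : ℕ) * ν x.1 i
      map_add' := by
        intro c c'
        funext i
        show ∑ x : (Σ h : Fin ρ, Fin (b h)), C ((c + c') x) * X ^ (x.2 : ℕ) * ν x.1 i =
          (∑ x : (Σ h : Fin ρ, Fin (b h)), C (c x) * X ^ (x.2 : ℕ) * ν x.1 i) +
            ∑ x : (Σ h : Fin ρ, Fin (b h)), C (c' x) * X ^ (x.2 : ℕ) * ν x.1 i
        rw [← Finset.sum_add_distrib]
        refine Finset.sum_congr rfl fun x _ => ?_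
        rw [Pi.add_apply, C_add, add_mul, add_mul]
      map_smul' := by
        intro t c
        funext i
        show ∑ x : (Σ h : Fin ρ, Fin (b h)), C ((t • c) x) * X ^ (x.2 : ℕ) * ν x.1 i =
          t • ∑ x : (Σ h : Fin ρ, Fin (b h)), C (c x) * X ^ (x.2 : ℕ) * ν x.1 i
        rw [Finset.smul_sum]
        refine Finset.sum_congr rfl fun x _ => ?_
        rw [Pi.smul_apply, smul_eq_mul, C_mul, Polynomial.smul_eq_C_mul]
        ring }
  have hle : Wsub G a 1 ≤ LinearMap.range Λ := by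
    intro ψ hψ
    obtain ⟨c, hc, hψc⟩ := hspan ψ hψ
    refine ⟨fun x => (c x.1).coeff x.2, ?_⟩
    funext i
    rw [hψc i]
    show ∑ x : (Σ h : Fin ρ, Fin (b h)), C ((c x.1).coeff (x.2 : ℕ)) * X ^ (x.2 : ℕ) * ν x.1 i = _
    rw [Fintype.sum_sigma]
    refine Finset.sum_congr rfl fun h _ => ?_
    show ∑ n : Fin (b h), C ((c h).coeff (n : ℕ)) * X ^ (n : ℕ) * ν h i = c h * ν h i
    rw [← Finset.sum_mul]
    refine congrArg (fun p => p * ν h i) ?_
    by_cases h0 : c h = 0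
    · rw [h0]
      refine Finset.sum_eq_zero fun n _ => ?_
      rw [coeff_zero, C_0, zero_mul]
    · have hd : (c h).natDegree < b h := by
        have h1 := hc h
        rw [natDegree_mul_X_pow 1 h0] at h1
        omega
      have h2 := (c h).as_sum_range' (b h) hd
      conv_rhs => rw [h2]
      rw [← Fin.sum_univ_eq_sum_range (fun n => monomial n ((c h).coeff n)) (b h)]
      refine Finset.sum_congr rfl fun n _ => ?_
      exact C_mul_X_pow_eq_monomial
  calc Module.finrank k (Wsub G a 1) ≤ Module.finrank k (LinearMap.range Λ) :=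
        Submodule.finrank_mono hle
    _ ≤ Module.finrank k ((Σ h : Fin ρ, Fin (b h)) → k) := LinearMap.finrank_range_le Λ
    _ = ∑ h, b h := by
        rw [Module.finrank_fintype_fun_eq_card, Fintype.card_sigma]
        exact Finset.sum_congr rfl fun h _ => Fintype.card_fin _

end Pool.Agent.Lib.MP_1e3e9c_ag.LN
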