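import Pool.Agent.Lib.MP_1e3e9c_ag.RC.Defs

/-! # Lines on closed subschemes of products of projective spaces

Coordinates (`RC.Coord B m`): `z b = Sum.inl b` (one for every factor `b : B`), `x = Sum.inr none` (factor `α`),
`y i = Sum.inr (some i)`, `i < m` (factor `f i`); all have degree one in their factor (`fac α f`).
`ℓ` is the line `y = 0` of the factor `α`: its points have `z α = s`, `x = t`, `z b = 1` (`b ≠ α`), `y = 0`.
`V` is the closed subscheme defined by multihomogeneous polynomials `g l`, `l < r`. -/

set_option autoImplicit false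

namespace Pool.Agent.Lib.MP_1e3e9c_ag.LN

open Pool.Agent.Lib.MP_1e3e9c_ag.RC

/-- the point `(s : t)` of the line `ℓ` -/
def basePt {B R : Type*} [DecidableEq B] [CommRing R] (α : B) (m : ℕ) (s t : R) : Coord B m → R :=
  Sum.elim (fun b => if b = α then s else 1) (fun o => o.elim t (fun _ => 0))

/-- `P` is multihomogeneous of the multidegree `D` -/
def IsForm {k B : Type*} [Field k] [DecidableEq B] {m : ℕ} (α : B) (f : Fin m → B)
    (P : MvPolynomial (Coord B m) k) (D : B → ℕ) : Prop :=
  P.IsWeightedHomogeneous (mdeg (fac α f) (fun _ => 1)) D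

/-- the partial derivative `∂g/∂y_i` along `ℓ`: a polynomial in `s = X 0` and `t = X 1` -/
noncomputable def jac {k B : Type*} [Field k] [DecidableEq B] {m : ℕ} (α : B)
    (g : MvPolynomial (Coord B m) k) (i : Fin m) : MvPolynomial (Fin 2) k :=
  MvPolynomial.aeval (basePt α m (MvPolynomial.X 0) (MvPolynomial.X 1))
    (MvPolynomial.pderiv (Sum.inr (some i)) g)

/-- The global sections of `N(q)`, `N` the normal bundle of `ℓ` in `V`: the families `ψ i` of binary
forms, of degree `q + 1` if `y i` lies in the factor `α` and of degree `q` otherwise, with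
`∑ i, ψ i * ∂g_l/∂y_i = 0` for all `l`. -/
noncomputable def normalSections {k B : Type*} [Field k] [DecidableEq B] {m r : ℕ} (α : B)
    (f : Fin m → B) (g : Fin r → MvPolynomial (Coord B m) k) (q : ℕ) :
    Submodule k (Fin m → MvPolynomial (Fin 2) k) where
  carrier := {ψ | (∀ i, (ψ i).IsHomogeneous ((if f i = α then 1 else 0) + q)) ∧
    ∀ l, ∑ i, ψ i * jac α (g l) i = 0}
  add_mem' := by
    rintro a b ⟨ha, ha'⟩ ⟨hb, hb'⟩
    refine ⟨fun i => (ha i).add (hb i), fun l => ?_⟩
    simp only [Pi.add_apply, add_mul, Finset.sum_add_distrib, ha' l, hb' l, add_zero]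
  zero_mem' := by
    refine ⟨fun i => MvPolynomial.isHomogeneous_zero _ _ _, fun l => ?_⟩
    simp
  smul_mem' := by
    rintro c a ⟨ha, ha'⟩
    refine ⟨fun i => ?_, fun l => ?_⟩
    · rw [Pi.smul_apply, MvPolynomial.smul_eq_C_mul]
      have h := (MvPolynomial.isHomogeneous_C (Fin 2) c).mul (ha i)
      rwa [zero_add] at h
    · simp only [Pi.smul_apply, smul_mul_assoc, ← Finset.smul_sum, ha' l, smul_zero]

/-- `V` is smooth at the point `(1 : t)` of `ℓ`: some of the `g l` generate the ideal of `V` near this point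
(`Δ` is a common denominator), and their differentials are linearly independent there. -/
def SmoothAt {k B : Type*} [Field k] [DecidableEq B] {m r : ℕ} (α : B)
    (g : Fin r → MvPolynomial (Coord B m) k) (t : k) : Prop :=
  ∃ S : Finset (Fin r),
    LinearIndependent k (fun l : S => fun i : Fin m =>
      MvPolynomial.eval ![1, t] (jac α (g l) i)) ∧
    ∃ Δ : MvPolynomial (Coord B m) k, MvPolynomial.eval (basePt α m 1 t) Δ ≠ 0 ∧
      ∀ l, Δ * g l ∈ Ideal.span (g '' (S : Set (Fin r)))

/-- `H¹(ℓ, N) = 0`, i.e. `N(1)` is globally generated: at every point `P` of `ℓ` every normal vector `v` of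
`ℓ` in `V` is the value of a section of `N(1)`. -/
def Unobstructed {k B : Type*} [Field k] [DecidableEq B] {m r : ℕ} (α : B) (f : Fin m → B)
    (g : Fin r → MvPolynomial (Coord B m) k) : Prop :=
  ∀ P : Fin 2 → k, P ≠ 0 → ∀ v : Fin m → k,
    (∀ l, ∑ i, v i * MvPolynomial.eval P (jac α (g l) i) = 0) →
    ∃ ψ ∈ normalSections α f g 1, ∀ i, MvPolynomial.eval P (ψ i) = v i

/-- the point `(s : t)` of the line through `u` and `w` in the factor `α` -/
def linePt {ι B R : Type*} [DecidableEq B] [CommRing R] (fc : ι → B) (α : B) (u w : ι → R)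
    (s t : R) : ι → R :=
  fun c => if fc c = α then s * u c + t * w c else u c

/-- `u`, `w` define a line of the factor `α`: their parts in the factor `α` are not proportional, and `u`
has a coordinate that is not zero in every other factor. -/
structure IsLine {ι B R : Type*} [CommRing R] (fc : ι → B) (α : B) (u w : ι → R) : Prop where
  indep : ∃ c c', fc c = α ∧ fc c' = α ∧ u c * w c' - u c' * w c ≠ 0
  ne_zero : ∀ b, b ≠ α → ∃ c, fc c = b ∧ u c ≠ 0

end Pool.Agent.Lib.MP_1e3e9c_ag.LN
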