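import Pool.Agent.Lib.MP_1e3e9c_ag.LN.Core

/-! # Den: removing the zeros of a denominator


`den_induct`: induction on `δ`.  `δ = 0`: `p` is a nonzero constant.  `δ + 1`: if `p.natDegree ≤ δ` use `hinf` and the induction hypothesis.  Otherwise
`p.natDegree = δ + 1 ≥ 1`, so `p` has a root `x` (`IsAlgClosed.exists_root`), `p = (X - C x) * p'`, `p' ≠ 0`, `p'.natDegree = δ`; use `hfin`.

`solve`: `den_induct` for `Φ p δ := ∃ ψ : Fin m → k[X], (∀ i, (ψ i).natDegree ≤ a i + δ) ∧ ∀ l, ∑ i, ψ i * G l i = p * h l`.  Start: `δ` = the sum of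
`p.natDegree` and all `(ψ i).natDegree`.  At the end `Φ (C c) 0`: multiply `ψ` with `C c⁻¹`.
`hfin`: `ψ` for `((X - C x) * p, δ + 1)`.  Evaluate at `x`: `∑ i, (ψ i)(x) * (G l i)(x) = 0`.  `hG.fin` gives `ψ⁰ ∈ Wsub G (a + 1) 0` with
`(ψ⁰ i)(x) = (ψ i)(x)`.  `X - C x` divides `ψ i - ψ⁰ i = (X - C x) * ψ' i`, `natDegree (ψ i - ψ⁰ i) ≤ a i + δ + 1` so
`natDegree (ψ' i) ≤ a i + δ`.  `(X - C x) * ∑ ψ' i * G l i = ∑ (ψ i - ψ⁰ i) * G l i = (X - C x) * (p * h l)`; cancel.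
`hinf`: `ψ` for `(p, δ + 1)`, `p.natDegree ≤ δ`.  Let `v i = (ψ i).coeff (a i + δ + 1)`.  Then (TOP)
 `∑ i, v i * (G l i * X ^ (a i + 1)).coeff (e l + 1) = 0`: multiply `∑ i, ψ i * G l i = p * h l` by powers of `X`:  for every `i` the product
 `ψ i * (G l i * X ^ (a i + 1))` has its coefficient at `(a i + δ + 1) + (e l + 1)` equal to `v i * (G l i * X ^ (a i + 1)).coeff (e l + 1)`
 (`Polynomial.coeff_mul_of_natDegree_le`, degrees `≤ a i + δ + 1` and `≤ e l + 1` (`hG.deg`)), and this is the coefficient of `ψ i * G l i` at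
 `e l + δ + 1` (`coeff_mul_X_pow`); the coefficient of `p * h l` at `e l + δ + 1` is zero (`natDegree ≤ δ + e l`).
 `hG.inf` gives `ψ⁰ ∈ Wsub G (a + 1) 0` with `(ψ⁰ i).coeff (a i + 1) = v i`.  Put `ψ' i = ψ i - X ^ δ * ψ⁰ i`: `natDegree ≤ a i + δ + 1` and the
 coefficient at `a i + δ + 1` is zero, so `natDegree (ψ' i) ≤ a i + δ`.  `∑ ψ' i * G l i = p * h l`. -/

set_option autoImplicit false

namespace Pool.Agent.Lib.MP_1e3e9c_ag.LN

open Polynomial

theorem den_induct {k : Type*} [Field k] [IsAlgClosed k] (Φ : k[X] → ℕ → Prop)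
    (hfin : ∀ (x : k) (p : k[X]) (δ : ℕ), Φ ((X - C x) * p) (δ + 1) → Φ p δ)
    (hinf : ∀ (p : k[X]) (δ : ℕ), p.natDegree ≤ δ → Φ p (δ + 1) → Φ p δ)
    (p : k[X]) (hp : p ≠ 0) (δ : ℕ) (hδ : p.natDegree ≤ δ) (h : Φ p δ) :
    ∃ c : k, c ≠ 0 ∧ Φ (C c) 0 := by
  induction δ generalizing p with
  | zero =>
    have h1 := eq_C_of_natDegree_le_zero hδ
    rw [h1] at h hp
    exact ⟨p.coeff 0, fun h2 => hp (by rw [h2, map_zero]), h⟩
  | succ δ ih =>
    by_cases h1 : p.natDegree ≤ δ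
    · exact ih p hp h1 (hinf p δ h1 h)
    · have h2 : p.natDegree = δ + 1 := by omega
      have h3 : p.degree ≠ 0 := by
        intro h4
        have h5 : p.natDegree = 0 := natDegree_eq_of_degree_eq_some h4
        omega
      obtain ⟨x, hx⟩ := IsAlgClosed.exists_root p h3
      obtain ⟨q, rfl⟩ := dvd_iff_isRoot.2 hx
      have hq : q ≠ 0 := right_ne_zero_of_mul hp
      rw [natDegree_mul (X_sub_C_ne_zero x) hq, natDegree_X_sub_C] at h2
      exact ih q hq (by omega) (hfin x q δ h)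

theorem solve {k : Type*} [Field k] [IsAlgClosed k] {r m : ℕ} (G : Fin r → Fin m → k[X])
    (a : Fin m → ℕ) (e : Fin r → ℕ) (hG : FreeMat G (fun i => a i + 1) (fun l => e l + 1))
    (h : Fin r → k[X]) (hdeg : ∀ l, (h l).natDegree ≤ e l) (p : k[X]) (hp : p ≠ 0)
    (ψ : Fin m → k[X]) (hψ : ∀ l, ∑ i, ψ i * G l i = p * h l) :
    ∃ ψ' : Fin m → k[X], (∀ i, (ψ' i).natDegree ≤ a i) ∧ ∀ l, ∑ i, ψ' i * G l i = h l := by
  have hstart : ∀ i, (ψ i).natDegree ≤ a i + (p.natDegree + ∑ i, (ψ i).natDegree) := by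
    intro i
    have h1 := Finset.single_le_sum (f := fun i => (ψ i).natDegree) (fun _ _ => Nat.zero_le _)
      (Finset.mem_univ i)
    exact h1.trans ((Nat.le_add_left _ _).trans (Nat.le_add_left _ _))
  have hfin : ∀ (x : k) (p : k[X]) (δ : ℕ), (∃ ψ : Fin m → k[X],
      (∀ i, (ψ i).natDegree ≤ a i + (δ + 1)) ∧ ∀ l, ∑ i, ψ i * G l i = (X - C x) * p * h l) →
      ∃ ψ : Fin m → k[X], (∀ i, (ψ i).natDegree ≤ a i + δ) ∧ ∀ l, ∑ i, ψ i * G l i = p * h l := by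
    rintro x p δ ⟨ψ, hψ1, hψ2⟩
    have h1 : ∀ l, ∑ i, (ψ i).eval x * (G l i).eval x = 0 := by
      intro l
      have h2 := congrArg (eval x) (hψ2 l)
      rw [eval_finsetSum, eval_mul, eval_mul, eval_sub, eval_X, eval_C, sub_self, zero_mul,
        zero_mul] at h2
      rw [← h2]
      exact Finset.sum_congr rfl fun i _ => (eval_mul).symm
    obtain ⟨ψ0, hψ0, hψ0e⟩ := hG.fin x (fun i => (ψ i).eval x) h1
    obtain ⟨hψ0d, hψ0s⟩ := mem_Wsub.1 hψ0
    have h2 : ∀ i, ∃ q, ψ i - ψ0 i = (X - C x) * q := by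
      intro i
      refine dvd_iff_isRoot.2 ?_
      rw [IsRoot, eval_sub, hψ0e, sub_self]
    choose ψ' hψ' using h2
    refine ⟨ψ', fun i => ?_, fun l => ?_⟩
    · by_cases h3 : ψ' i = 0
      · rw [h3, natDegree_zero]
        exact Nat.zero_le _
      · have h4 : (ψ i - ψ0 i).natDegree ≤ a i + (δ + 1) := by
          refine (natDegree_sub_le _ _).trans (max_le (hψ1 i) ?_)
          have h5 := hψ0d i
          rw [pow_zero, mul_one] at h5
          omega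
        rw [hψ', natDegree_mul (X_sub_C_ne_zero x) h3, natDegree_X_sub_C] at h4
        omega
    · refine mul_left_cancel₀ (X_sub_C_ne_zero x) ?_
      rw [← mul_assoc, ← hψ2 l, Finset.mul_sum]
      have h3 : ∑ i, ψ i * G l i = ∑ i, (ψ i - ψ0 i) * G l i := by
        rw [← sub_zero (∑ i, ψ i * G l i), ← hψ0s l, ← Finset.sum_sub_distrib]
        exact Finset.sum_congr rfl fun i _ => (sub_mul _ _ _).symm
      rw [h3]
      refine Finset.sum_congr rfl fun i _ => ?_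
      rw [hψ', mul_assoc]
  have hinf : ∀ (p : k[X]) (δ : ℕ), p.natDegree ≤ δ → (∃ ψ : Fin m → k[X],
      (∀ i, (ψ i).natDegree ≤ a i + (δ + 1)) ∧ ∀ l, ∑ i, ψ i * G l i = p * h l) →
      ∃ ψ : Fin m → k[X], (∀ i, (ψ i).natDegree ≤ a i + δ) ∧ ∀ l, ∑ i, ψ i * G l i = p * h l := by
    rintro p δ hpδ ⟨ψ, hψ1, hψ2⟩
    have h1 : ∀ l, ∑ i, (ψ i).coeff (a i + (δ + 1)) *
        (G l i * X ^ (a i + 1)).coeff (e l + 1) = 0 := by
      intro l
      have h2 : (∑ i, ψ i * G l i).coeff (e l + δ + 1) = 0 := by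
        rw [hψ2]
        refine coeff_eq_zero_of_natDegree_lt (lt_of_le_of_lt natDegree_mul_le ?_)
        have h3 := hdeg l
        omega
      rw [finsetSum_coeff] at h2
      refine Eq.trans (Finset.sum_congr rfl fun i _ => ?_) h2
      have h3 := coeff_mul_add_eq_of_natDegree_le (hψ1 i) (hG.deg l i)
      rw [← h3, ← mul_assoc]
      have h4 : a i + (δ + 1) + (e l + 1) = e l + δ + 1 + (a i + 1) := by ring
      rw [h4, coeff_mul_X_pow]
    obtain ⟨ψ0, hψ0, hψ0e⟩ := hG.inf (fun i => (ψ i).coeff (a i + (δ + 1))) h1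
    obtain ⟨hψ0d, hψ0s⟩ := mem_Wsub.1 hψ0
    have hd0 : ∀ i, (ψ0 i).natDegree ≤ a i + 1 := by
      intro i
      have h5 := hψ0d i
      rw [pow_zero, mul_one] at h5
      exact h5
    refine ⟨fun i => ψ i - X ^ δ * ψ0 i, fun i => ?_, fun l => ?_⟩
    · rw [natDegree_le_iff_coeff_eq_zero]
      intro N hN
      rw [coeff_sub]
      by_cases h5 : N = a i + (δ + 1)
      · have h6 : a i + (δ + 1) = a i + 1 + δ := by ring
        rw [h5, h6, coeff_X_pow_mul, hψ0e, h6, sub_self]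
      · have h6 : a i + (δ + 1) < N := by omega
        rw [coeff_eq_zero_of_natDegree_lt (lt_of_le_of_lt (hψ1 i) h6),
          coeff_eq_zero_of_natDegree_lt (p := X ^ δ * ψ0 i), sub_zero]
        refine lt_of_le_of_lt natDegree_mul_le ?_
        rw [natDegree_X_pow]
        have h7 := hd0 i
        omega
    · rw [← hψ2 l, ← sub_zero (∑ i, ψ i * G l i)]
      have h5 : (0 : k[X]) = ∑ i, X ^ δ * ψ0 i * G l i := by
        rw [← mul_zero (X ^ δ), ← hψ0s l, Finset.mul_sum]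
        exact Finset.sum_congr rfl fun i _ => (mul_assoc _ _ _).symm
      rw [h5, ← Finset.sum_sub_distrib]
      exact Finset.sum_congr rfl fun i _ => sub_mul _ _ _
  obtain ⟨c, hc, ψ1, hψ1, hψ2⟩ := den_induct (fun (p : k[X]) (δ : ℕ) => ∃ ψ : Fin m → k[X],
      (∀ i, (ψ i).natDegree ≤ a i + δ) ∧ ∀ l, ∑ i, ψ i * G l i = p * h l) hfin hinf p hp
      (p.natDegree + ∑ i, (ψ i).natDegree) (Nat.le_add_right _ _) ⟨ψ, hstart, hψ⟩
  refine ⟨fun i => C c⁻¹ * ψ1 i, fun i => ?_, fun l => ?_⟩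
  · exact (natDegree_C_mul_le _ _).trans (hψ1 i)
  · have h1 : ∑ i, C c⁻¹ * ψ1 i * G l i = C c⁻¹ * ∑ i, ψ1 i * G l i := by
      rw [Finset.mul_sum]
      exact Finset.sum_congr rfl fun i _ => mul_assoc _ _ _
    rw [h1, hψ2, ← mul_assoc, ← C_mul, inv_mul_cancel₀ hc, C_1, one_mul]

end Pool.Agent.Lib.MP_1e3e9c_ag.LN
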