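import Pool.Agent.Lib.MP_1e3e9c_ag.LN.Red
import Pool.Agent.Lib.MP_1e3e9c_ag.FL.Desc

/-! # Desc: descent to the algebraically closed field


`N = ι ⊕ ι`, `x : N → κ'`, `x = Sum.elim u w`; universal `U c = X (inl c)`, `W c = X (inr c) : MvPolynomial N k`.  Let `c`, `c'` be the pair of `hl.indep` and `c_b` the index of
`hl.ne_zero b` for `b ≠ α` (choose; `B` finite): `δ = (U c * W c' - U c' * W c) * ∏ b, (if h : b = α then 1 else U (c_b h))`, `aeval x δ ≠ 0`.  `spec_point x δ` gives `y : N → k` at
which all polynomials that vanish at `x` vanish, and `eval y δ ≠ 0`.  `u' c = y (inl c)`, `w' c = y (inr c)`.  `IsLine` from the factors of `eval y δ ≠ 0`.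
For `s t : k` the polynomial `aeval (linePt fc α U W (C s) (C t)) (F j) : MvPolynomial N k` is mapped by `aeval x` to
`aeval (linePt fc α u w (algebraMap k κ' s) (algebraMap k κ' t)) (F j) = 0` and by `eval y` to `eval (linePt fc α u' w' s t) (F j)`. -/

set_option autoImplicit false

namespace Pool.Agent.Lib.MP_1e3e9c_ag.LN

open Pool.Agent.Lib.MP_1e3e9c_ag.RC

theorem descendL {k κ' ι B J : Type*} [Field k] [IsAlgClosed k] [Field κ'] [Algebra k κ']
    [Fintype ι] [Fintype B] [DecidableEq B] (fc : ι → B) (α : B) (F : J → MvPolynomial ι k)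
    (u w : ι → κ') (hl : IsLine fc α u w)
    (h : ∀ j, ∀ s t : κ', MvPolynomial.aeval (linePt fc α u w s t) (F j) = 0) :
    ∃ u' w' : ι → k, IsLine fc α u' w' ∧
      ∀ j, ∀ s t : k, MvPolynomial.eval (linePt fc α u' w' s t) (F j) = 0 := by
  classical
  obtain ⟨c, c', hc, hc', hne⟩ := hl.indep
  choose g hg1 hg2 using hl.ne_zero
  let x : ι ⊕ ι → κ' := Sum.elim u w
  let U : ι → MvPolynomial (ι ⊕ ι) k := fun i => MvPolynomial.X (Sum.inl i)
  let W : ι → MvPolynomial (ι ⊕ ι) k := fun i => MvPolynomial.X (Sum.inr i)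
  have hU : ∀ i, MvPolynomial.aeval x (U i) = u i := fun i => by
    simp only [U, MvPolynomial.aeval_X, x, Sum.elim_inl]
  have hW : ∀ i, MvPolynomial.aeval x (W i) = w i := fun i => by
    simp only [W, MvPolynomial.aeval_X, x, Sum.elim_inr]
  let δ : MvPolynomial (ι ⊕ ι) k := (U c * W c' - U c' * W c) *
    ∏ b, (if hb : b = α then 1 else U (g b hb))
  have hδ : MvPolynomial.aeval x δ ≠ 0 := by
    simp only [δ, map_mul, map_sub, map_prod, hU, hW]
    refine mul_ne_zero hne (Finset.prod_ne_zero_iff.2 fun b _ => ?_)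
    split_ifs with hb
    · rw [map_one]
      exact one_ne_zero
    · rw [hU]
      exact hg2 b hb
  obtain ⟨y, hy, hyδ⟩ := FL.spec_point x δ hδ
  have hyU : ∀ i, MvPolynomial.eval y (U i) = y (Sum.inl i) := fun i => MvPolynomial.eval_X _
  have hyW : ∀ i, MvPolynomial.eval y (W i) = y (Sum.inr i) := fun i => MvPolynomial.eval_X _
  simp only [δ, map_mul, map_sub, map_prod, hyU, hyW] at hyδ
  obtain ⟨hd1, hd2⟩ := mul_ne_zero_iff.1 hyδ
  refine ⟨fun i => y (Sum.inl i), fun i => y (Sum.inr i),
    ⟨⟨c, c', hc, hc', hd1⟩, fun b hb => ⟨g b hb, hg1 b hb, ?_⟩⟩, fun j s t => ?_⟩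
  · have h1 := Finset.prod_ne_zero_iff.1 hd2 b (Finset.mem_univ b)
    rw [dif_neg hb, hyU] at h1
    exact h1
  · have h1 := hy (MvPolynomial.aeval
      (linePt fc α U W (MvPolynomial.C s) (MvPolynomial.C t)) (F j)) ?_
    · have h3 : MvPolynomial.eval y (MvPolynomial.aeval
          (linePt fc α U W (MvPolynomial.C s) (MvPolynomial.C t)) (F j)) =
          MvPolynomial.eval (linePt fc α (fun i => y (Sum.inl i)) (fun i => y (Sum.inr i)) s t)
            (F j) := by
        rw [← MvPolynomial.coe_aeval_eq_eval, ← MvPolynomial.coe_aeval_eq_eval]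
        show MvPolynomial.aeval y (MvPolynomial.aeval _ (F j)) = MvPolynomial.aeval _ (F j)
        rw [MvPolynomial.comp_aeval_apply]
        refine congrArg (fun z => MvPolynomial.aeval z (F j)) (funext fun p => ?_)
        have h4 := linePt_map (MvPolynomial.eval y) fc α U W (MvPolynomial.C s)
          (MvPolynomial.C t) p
        rw [MvPolynomial.eval_C, MvPolynomial.eval_C] at h4
        simp only [hyU, hyW] at h4
        exact h4
      rw [h3] at h1
      exact h1
    · rw [MvPolynomial.comp_aeval_apply]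
      have h2 : (fun p => MvPolynomial.aeval x
          (linePt fc α U W (MvPolynomial.C s) (MvPolynomial.C t) p)) =
          linePt fc α u w (algebraMap k κ' s) (algebraMap k κ' t) := by
        funext p
        have h4 := linePt_map
          (MvPolynomial.aeval x : MvPolynomial (ι ⊕ ι) k →ₐ[k] κ').toRingHom fc α U W
          (MvPolynomial.C s) (MvPolynomial.C t) p
        have e1 : ∀ a : k, (MvPolynomial.aeval x : MvPolynomial (ι ⊕ ι) k →ₐ[k] κ').toRingHom
            (MvPolynomial.C a) = algebraMap k κ' a := fun a => MvPolynomial.aeval_C x a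
        have e2 : (fun i => (MvPolynomial.aeval x :
            MvPolynomial (ι ⊕ ι) k →ₐ[k] κ').toRingHom (U i)) = u := funext hU
        have e3 : (fun i => (MvPolynomial.aeval x :
            MvPolynomial (ι ⊕ ι) k →ₐ[k] κ').toRingHom (W i)) = w := funext hW
        rw [e1, e1, e2, e3] at h4
        exact h4
      have h5 := h j (algebraMap k κ' s) (algebraMap k κ' t)
      rw [← h2] at h5
      exact h5

end Pool.Agent.Lib.MP_1e3e9c_ag.LN
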