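import Pool.Agent.Lib.MP_1e3e9c_ag.LN.Core

/-! # Taylor: first order expansion


`taylor`: `MvPolynomial.induction_on P`.  Constants: `Q = 0`, `pderiv_C`.  Sums: add.  `P * X j`: the product
`(aeval A P + t * S + t ^ 2 * Q) * (A j + t * v j)`, with `pderiv i (P * X j) = pderiv i P * X j + P * (if i = j then 1 else 0)`
(`Derivation.leibniz`, `MvPolynomial.pderiv_X`, `Pi.single_apply`), so `S(P * X j) = S(P) * A j + aeval A P * v j`; take
`Q' = Q * (A j + t * v j) + S * v j`.
`taylor_pt`: `pt (fun i => η i + t * ψ i) = fun c => pt η c + t * v c` with `v = Sum.elim (fun _ => 0) (fun o => o.elim 0 ψ)`; the sum over the coordinates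
reduces to the `y i` (`Fintype.sum_sum_type`, `Fintype.sum_option`).
`redt_aeval`: `redt` is a ring hom; both sides are `eval₂`; `redt (algebraMap k _ c) = C c`, `redt (pt η c) = pt (redt ∘ η) c`
(`redt X = X`, `redt 1 = 1`). -/

set_option autoImplicit false

namespace Pool.Agent.Lib.MP_1e3e9c_ag.LN

open Polynomial Pool.Agent.Lib.MP_1e3e9c_ag.RC

theorem taylor {k S ι : Type*} [Field k] [CommRing S] [Algebra k S] [Fintype ι] (A v : ι → S)
    (t : S) (P : MvPolynomial ι k) :
    ∃ Q : S, MvPolynomial.aeval (fun i => A i + t * v i) P = MvPolynomial.aeval A P +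
      t * (∑ i, MvPolynomial.aeval A (MvPolynomial.pderiv i P) * v i) + t ^ 2 * Q := by
  classical
  induction P using MvPolynomial.induction_on with
  | C c =>
    refine ⟨0, ?_⟩
    simp only [MvPolynomial.pderiv_C, map_zero, zero_mul, Finset.sum_const_zero, mul_zero, add_zero,
      MvPolynomial.aeval_C]
  | add p q hp hq =>
    obtain ⟨Q1, h1⟩ := hp
    obtain ⟨Q2, h2⟩ := hq
    refine ⟨Q1 + Q2, ?_⟩
    have h3 : ∑ i, MvPolynomial.aeval A (MvPolynomial.pderiv i (p + q)) * v i =
        (∑ i, MvPolynomial.aeval A (MvPolynomial.pderiv i p) * v i) +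
          ∑ i, MvPolynomial.aeval A (MvPolynomial.pderiv i q) * v i := by
      rw [← Finset.sum_add_distrib]
      refine Finset.sum_congr rfl fun i _ => ?_
      rw [map_add, map_add, add_mul]
    rw [h3, map_add, map_add, h1, h2]
    ring
  | mul_X p j hp =>
    obtain ⟨Q1, h1⟩ := hp
    refine ⟨Q1 * (A j + t * v j) +
      (∑ i, MvPolynomial.aeval A (MvPolynomial.pderiv i p) * v i) * v j, ?_⟩
    have h3 : ∑ i, MvPolynomial.aeval A (MvPolynomial.pderiv i (p * MvPolynomial.X j)) * v i =
        (∑ i, MvPolynomial.aeval A (MvPolynomial.pderiv i p) * v i) * A j +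
          MvPolynomial.aeval A p * v j := by
      have h4 : ∀ i, MvPolynomial.aeval A (MvPolynomial.pderiv i (p * MvPolynomial.X j)) * v i =
          MvPolynomial.aeval A (MvPolynomial.pderiv i p) * v i * A j +
            (if j = i then MvPolynomial.aeval A p * v i else 0) := by
        intro i
        rw [Derivation.leibniz, MvPolynomial.pderiv_X, Pi.single_apply, smul_eq_mul, smul_eq_mul,
          map_add, map_mul, map_mul, MvPolynomial.aeval_X]
        by_cases h : j = i
        · rw [if_pos h, if_pos h, map_one]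
          ring
        · rw [if_neg h, if_neg h, map_zero]
          ring
      rw [Finset.sum_congr rfl fun i _ => h4 i, Finset.sum_add_distrib, Finset.sum_mul,
        Finset.sum_ite_eq, if_pos (Finset.mem_univ j)]
    rw [h3, map_mul, map_mul, h1, MvPolynomial.aeval_X, MvPolynomial.aeval_X]
    ring

theorem taylor_pt {k R B : Type*} [Field k] [CommRing R] [Algebra k R] [Fintype B] {m : ℕ}
    (η ψ : Fin m → R[X]) (t : R[X]) (P : MvPolynomial (Coord B m) k) :
    ∃ Q : R[X], MvPolynomial.aeval (pt (fun i => η i + t * ψ i)) P = MvPolynomial.aeval (pt η) P +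
      t * (∑ i, MvPolynomial.aeval (pt η) (MvPolynomial.pderiv (Sum.inr (some i)) P) * ψ i) +
      t ^ 2 * Q := by
  obtain ⟨Q, hQ⟩ := taylor (k := k) (pt (B := B) η)
    (Sum.elim (fun _ => (0 : R[X])) (fun o => o.elim 0 ψ)) t P
  refine ⟨Q, ?_⟩
  have h1 : (pt (fun i => η i + t * ψ i) : Coord B m → R[X]) = fun c => pt η c + t *
      (Sum.elim (fun _ => (0 : R[X])) (fun o => o.elim 0 ψ) : Coord B m → R[X]) c := by
    funext c
    rcases c with b | _ | i
    · change (1 : R[X]) = 1 + t * 0
      rw [mul_zero, add_zero]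
    · change (X : R[X]) = X + t * 0
      rw [mul_zero, add_zero]
    · rfl
  rw [h1, hQ, Fintype.sum_sum_type, Fintype.sum_option]
  simp only [Sum.elim_inl, Sum.elim_inr, Option.elim_none, Option.elim_some, mul_zero,
    Finset.sum_const_zero, zero_add]

theorem redt_aeval {k B : Type*} [Field k] {m : ℕ} (η : Fin m → (PowerSeries k)[X])
    (P : MvPolynomial (Coord B m) k) :
    redt (MvPolynomial.aeval (pt η) P) = MvPolynomial.aeval (pt (fun i => redt (η i))) P := by
  induction P using MvPolynomial.induction_on with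
  | C c =>
    rw [MvPolynomial.aeval_C, MvPolynomial.aeval_C]
    ext i
    rw [redt, Polynomial.coe_mapRingHom, Polynomial.coeff_map, Polynomial.algebraMap_apply,
      Polynomial.algebraMap_apply, Polynomial.coeff_C, Polynomial.coeff_C]
    by_cases h : i = 0
    · rw [if_pos h, if_pos h]
      simp
    · rw [if_neg h, if_neg h, map_zero]
  | add p q hp hq => rw [map_add, map_add, map_add, hp, hq]
  | mul_X p j hp =>
    rw [map_mul, map_mul, map_mul, hp, MvPolynomial.aeval_X, MvPolynomial.aeval_X]
    rcases j with b | _ | i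
    · change _ * redt 1 = _ * 1
      rw [map_one]
    · change _ * redt X = _ * X
      rw [redt, Polynomial.coe_mapRingHom, Polynomial.map_X]
    · rfl

end Pool.Agent.Lib.MP_1e3e9c_ag.LN
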