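import Pool.Agent.Lib.MP_1e3e9c_ag.LN.Lin
import Pool.Agent.Lib.MP_1e3e9c_ag.LN.Taylor

/-! # Gsolve: at the generic point of the line the obstruction lies in the image of the differential


From `hmem`: `Δ * g l = ∑ j ∈ S, A l j * g j` with polynomials `A l j` (`Submodule.mem_span_image_iff_exists_fun` /
`Ideal.mem_span_image...`, or `Submodule.span_induction`).  Write `Δ̄ = aeval (pt 0) Δ : k[X]`, `Ā l j = aeval (pt 0) (A l j)`, `h l = redt (ht l)`.
(a) `Δ̄ * h l = ∑ j ∈ S, Ā l j * h j`: apply `aeval (pt η)`, insert `hg` and cancel `C X ^ n` (`(PowerSeries k)[X]` is a domain); then apply `redt`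
(`redt_aeval`, `hη`).
(b) `Δ̄ * jx (g l) i = ∑ j ∈ S, Ā l j * jx (g j) i`: apply `pderiv (Sum.inr (some i))` (`Derivation.leibniz`) and `aeval (pt 0)`; the terms that
contain `aeval (pt 0) (g _) = 0` (`hline`) vanish.
(c) `lin_solve` for `G = fun (j : S) i => jx (g j) i` at `t0` and `h = fun j : S => redt (ht j)`: `p ≠ 0`, `ψ`, `∑ i, ψ i * jx (g j) i = p * h j` for `j ∈ S`.
(d) For every `l`: `Δ̄ * (∑ i, ψ i * jx (g l) i - p * h l) = ∑ j ∈ S, Ā l j * (∑ i, ψ i * jx (g j) i - p * h j) = 0`; cancel `Δ̄ ≠ 0`. -/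

set_option autoImplicit false

namespace Pool.Agent.Lib.MP_1e3e9c_ag.LN

open Polynomial Pool.Agent.Lib.MP_1e3e9c_ag.RC

theorem gsolve {k B : Type*} [Field k] {m r : ℕ} (g : Fin r → MvPolynomial (Coord B m) k)
    (hline : ∀ l, MvPolynomial.aeval (pt (fun _ => (0 : k[X]))) (g l) = 0) (t0 : k)
    (S : Finset (Fin r))
    (hind : LinearIndependent k (fun l : S => fun i : Fin m => (jx (g l) i).eval t0))
    (Δ : MvPolynomial (Coord B m) k)
    (hΔ : MvPolynomial.aeval (pt (fun _ => (0 : k[X]))) Δ ≠ 0)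
    (hmem : ∀ l, Δ * g l ∈ Ideal.span (g '' (S : Set (Fin r))))
    (n : ℕ) (η : Fin m → (PowerSeries k)[X]) (hη : ∀ i, redt (η i) = 0)
    (ht : Fin r → (PowerSeries k)[X])
    (hg : ∀ l, MvPolynomial.aeval (pt η) (g l) = C (PowerSeries.X : PowerSeries k) ^ n * ht l) :
    ∃ p : k[X], p ≠ 0 ∧ ∃ ψ : Fin m → k[X], ∀ l, ∑ i, ψ i * jx (g l) i = p * redt (ht l) := by
  classical
  have hA : ∀ l, ∃ A : Fin r → MvPolynomial (Coord B m) k, Δ * g l = ∑ j ∈ S, A j * g j := by
    intro l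
    obtain ⟨c, hc⟩ := (Submodule.mem_span_image_finset_iff_exists_fun' _).1 (hmem l)
    exact ⟨c, hc.symm⟩
  choose A hA using hA
  -- (a)
  have hX : (C (PowerSeries.X : PowerSeries k) : (PowerSeries k)[X]) ^ n ≠ 0 :=
    pow_ne_zero _ (C_ne_zero.2 PowerSeries.X_ne_zero)
  have hη0 : (fun i => redt (η i)) = fun _ => (0 : k[X]) := funext hη
  have ha : ∀ l, MvPolynomial.aeval (pt (fun _ => (0 : k[X]))) Δ * redt (ht l) =
      ∑ j ∈ S, MvPolynomial.aeval (pt (fun _ => (0 : k[X]))) (A l j) * redt (ht j) := by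
    intro l
    have h1 := congrArg (MvPolynomial.aeval (pt η)) (hA l)
    rw [map_mul, map_sum, hg l] at h1
    have h2 : C (PowerSeries.X : PowerSeries k) ^ n * (MvPolynomial.aeval (pt η) Δ * ht l) =
        C (PowerSeries.X : PowerSeries k) ^ n *
          ∑ j ∈ S, MvPolynomial.aeval (pt η) (A l j) * ht j := by
      rw [Finset.mul_sum, mul_left_comm, h1]
      refine Finset.sum_congr rfl fun j _ => ?_
      rw [map_mul, hg j]
      ring
    have h3 := congrArg redt (mul_left_cancel₀ hX h2)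
    rw [map_mul, map_sum, redt_aeval, hη0] at h3
    rw [h3]
    refine Finset.sum_congr rfl fun j _ => ?_
    rw [map_mul, redt_aeval, hη0]
  -- (b)
  have hb : ∀ l i, MvPolynomial.aeval (pt (fun _ => (0 : k[X]))) Δ * jx (g l) i =
      ∑ j ∈ S, MvPolynomial.aeval (pt (fun _ => (0 : k[X]))) (A l j) * jx (g j) i := by
    intro l i
    have h1 := congrArg (fun P => MvPolynomial.aeval (pt (fun _ => (0 : k[X])))
      (MvPolynomial.pderiv (Sum.inr (some i)) P)) (hA l)
    simp only [map_sum, Derivation.leibniz, smul_eq_mul, map_add, map_mul, hline, zero_mul,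
      add_zero] at h1
    exact h1
  -- (c)
  obtain ⟨p, hp, ψ, hψ⟩ := lin_solve (fun (j : S) i => jx (g j) i) t0 hind
    (fun j => redt (ht j))
  refine ⟨p, hp, ψ, fun l => ?_⟩
  apply mul_left_cancel₀ hΔ
  have h1 : MvPolynomial.aeval (pt (fun _ => (0 : k[X]))) Δ * ∑ i, ψ i * jx (g l) i =
      ∑ i, ψ i * (MvPolynomial.aeval (pt (fun _ => (0 : k[X]))) Δ * jx (g l) i) := by
    rw [Finset.mul_sum]
    exact Finset.sum_congr rfl fun i _ => by ring
  have h2 : MvPolynomial.aeval (pt (fun _ => (0 : k[X]))) Δ * (p * redt (ht l)) =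
      p * (MvPolynomial.aeval (pt (fun _ => (0 : k[X]))) Δ * redt (ht l)) := by ring
  rw [h1, h2, ha l]
  simp only [hb l, Finset.mul_sum]
  rw [Finset.sum_comm]
  refine Finset.sum_congr rfl fun j hj => ?_
  have h3 := hψ ⟨j, hj⟩
  simp only at h3
  rw [mul_left_comm, ← h3, Finset.mul_sum]
  exact Finset.sum_congr rfl fun i _ => by ring

end Pool.Agent.Lib.MP_1e3e9c_ag.LN
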