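import Pool.Agent.Lib.MP_1e3e9c_ag.LN.Core
import Pool.Agent.Lib.MP_1e3e9c_ag.RC.Deg

/-! # Jac: the entries of the Jacobian matrix along the line


`jx_eq`: `aeval ![1, X]` composed with `aeval (basePt α m (X 0) (X 1))` is `aeval` of the images of the coordinates: `Sum.inl b ↦ 1` (both for `b = α`: `X 0 ↦ 1`, and
for `b ≠ α`), `Sum.inr none ↦ X`, `y i ↦ 0`, i.e. `pt (fun _ => 0)`.
`jac_hom`: if `E (f i) = 0` then no monomial of `g` contains `y i` (`RC.mdeg_coord` at the factor `f i`: the term of `y i` is `d (y i) * 1 ≤ 0`), so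
`pderiv (Sum.inr (some i)) g = 0` (e.g. `MvPolynomial.pderiv_eq_zero_of_notMem_vars`, or coefficientwise) and `jac = 0`.  Otherwise `E = E' + Pi.single (f i) 1` with
`E' b = E b - (if b = f i then 1 else 0)`, and `pderiv _ g` is weighted homogeneous of degree `E'` (`MvPolynomial.IsWeightedHomogeneous.pderiv`;
`mdeg (fac α f) (fun _ => 1) (Sum.inr (some i)) = Pi.single (f i) 1`), `E' α = E α - (if f i = α then 1 else 0)`.
LEMMA: a form `P` of multidegree `E'` is mapped by `aeval (basePt α m (X 0) (X 1))` to a homogeneous polynomial of degree `E' α`: `P` is the sum of its monomials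
(`MvPolynomial.aeval_def`, `eval₂_eq`; `MvPolynomial.IsHomogeneous.sum`), and for `d ∈ P.support` the product `∏ c, basePt c ^ d c` is homogeneous of degree
`∑ c, d c * (if fac α f c = α then 1 else 0) = E' α` (`mdeg_coord`): `MvPolynomial.IsHomogeneous.prod` with `basePt c` homogeneous of degree
`if fac α f c = α then 1 else 0` for all coordinates `c` (`X 0`, `X 1` in degree one; `1` in degree zero; `0` in every degree), `IsHomogeneous.pow`. -/

set_option autoImplicit false

namespace Pool.Agent.Lib.MP_1e3e9c_ag.LN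

open Polynomial Pool.Agent.Lib.MP_1e3e9c_ag.RC

theorem jx_eq {k B : Type*} [Field k] [DecidableEq B] {m : ℕ} (α : B)
    (g : MvPolynomial (Coord B m) k) (i : Fin m) :
    MvPolynomial.aeval ![(1 : k[X]), X] (jac α g i) = jx g i := by
  have h1 : MvPolynomial.aeval ![(1 : k[X]), X] (jac α g i) = MvPolynomial.aeval
      (fun c => MvPolynomial.aeval ![(1 : k[X]), X]
        (basePt α m (MvPolynomial.X 0) (MvPolynomial.X 1) c : MvPolynomial (Fin 2) k))
      (MvPolynomial.pderiv (Sum.inr (some i)) g) :=
    MvPolynomial.comp_aeval_apply _ _ _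
  rw [h1, jx]
  refine congrArg (fun F : Coord B m → k[X] => MvPolynomial.aeval F
    (MvPolynomial.pderiv (Sum.inr (some i)) g)) (funext fun c => ?_)
  rcases c with b | (_ | j)
  · show MvPolynomial.aeval ![(1 : k[X]), X]
      ((if b = α then MvPolynomial.X 0 else 1 : MvPolynomial (Fin 2) k)) = 1
    by_cases hb : b = α
    · rw [if_pos hb, MvPolynomial.aeval_X]
      rfl
    · rw [if_neg hb, map_one]
  · show MvPolynomial.aeval ![(1 : k[X]), X] (MvPolynomial.X 1 : MvPolynomial (Fin 2) k) = X
    rw [MvPolynomial.aeval_X]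
    rfl
  · show MvPolynomial.aeval ![(1 : k[X]), X] (0 : MvPolynomial (Fin 2) k) = 0
    rw [map_zero]

private theorem jac_form {k B : Type*} [Field k] [Fintype B] [DecidableEq B] {m : ℕ} (α : B)
    (f : Fin m → B) (P : MvPolynomial (Coord B m) k) (D : B → ℕ) (hP : IsForm α f P D) :
    (MvPolynomial.aeval (basePt α m (MvPolynomial.X 0) (MvPolynomial.X 1)) P :
      MvPolynomial (Fin 2) k).IsHomogeneous (D α) := by
  classical
  rw [MvPolynomial.aeval_def, MvPolynomial.eval₂_eq]
  refine MvPolynomial.IsHomogeneous.sum _ _ _ fun d hd => ?_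
  have hb : ∀ c : Coord B m, (basePt α m (MvPolynomial.X 0) (MvPolynomial.X 1) c :
      MvPolynomial (Fin 2) k).IsHomogeneous (if fac α f c = α then 1 else 0) := by
    rintro (b | (_ | j))
    · show ((if b = α then MvPolynomial.X 0 else 1 : MvPolynomial (Fin 2) k)).IsHomogeneous
        (if b = α then 1 else 0)
      by_cases hb : b = α
      · rw [if_pos hb, if_pos hb]
        exact MvPolynomial.isHomogeneous_X _ _
      · rw [if_neg hb, if_neg hb]
        exact MvPolynomial.isHomogeneous_one _ _
    · show (MvPolynomial.X 1 : MvPolynomial (Fin 2) k).IsHomogeneous (if α = α then 1 else 0)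
      rw [if_pos rfl]
      exact MvPolynomial.isHomogeneous_X _ _
    · exact MvPolynomial.isHomogeneous_zero _ _ _
  have hp : (∏ c ∈ d.support, (basePt α m (MvPolynomial.X 0) (MvPolynomial.X 1) c :
      MvPolynomial (Fin 2) k) ^ d c) =
      ∏ c, (basePt α m (MvPolynomial.X 0) (MvPolynomial.X 1) c : MvPolynomial (Fin 2) k) ^ d c := by
    refine Finset.prod_subset (Finset.subset_univ _) fun c _ hc => ?_
    rw [Finsupp.notMem_support_iff.mp hc, pow_zero]
  rw [hp]
  have h1 := MvPolynomial.IsHomogeneous.prod Finset.univ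
    (fun c => (basePt α m (MvPolynomial.X 0) (MvPolynomial.X 1) c : MvPolynomial (Fin 2) k) ^ d c)
    (fun c => (if fac α f c = α then 1 else 0) * d c) (fun c _ => (hb c).pow (d c))
  have h2 : ∑ c, (if fac α f c = α then 1 else 0) * d c = D α := by
    rw [← mdeg_coord (fac α f) (fun _ => 1) P D hP d hd α]
    refine Finset.sum_congr rfl fun c _ => ?_
    by_cases hc : fac α f c = α
    · rw [if_pos hc, if_pos hc, one_mul, mul_one]
    · rw [if_neg hc, if_neg hc, zero_mul]
  rw [h2] at h1
  have h3 := (MvPolynomial.isHomogeneous_C (Fin 2) (P.coeff d)).mul h1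
  rw [zero_add] at h3
  exact h3

theorem jac_hom {k B : Type*} [Field k] [Fintype B] [DecidableEq B] {m : ℕ} (α : B) (f : Fin m → B)
    (g : MvPolynomial (Coord B m) k) (E : B → ℕ) (hg : IsForm α f g E) (i : Fin m) :
    jac α g i = 0 ∨ ((if f i = α then 1 else 0) ≤ E α ∧
      (jac α g i).IsHomogeneous (E α - (if f i = α then 1 else 0))) := by
  classical
  by_cases hE : E (f i) = 0
  · left
    have h0 : MvPolynomial.pderiv (Sum.inr (some i)) g = 0 := by
      apply MvPolynomial.pderiv_eq_zero_of_notMem_vars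
      intro hv
      rw [MvPolynomial.mem_vars_iff_mem_support] at hv
      obtain ⟨d, hd, hdi⟩ := hv
      have h := mdeg_coord (fac α f) (fun _ => 1) g E hg d hd (f i)
      rw [hE] at h
      have h1 := (Finset.sum_eq_zero_iff.mp h) (Sum.inr (some i)) (Finset.mem_univ _)
      have h2 : fac α f (Sum.inr (some i)) = f i := rfl
      rw [if_pos h2, mul_one] at h1
      exact (Finsupp.mem_support_iff.mp hdi) h1
    rw [jac, h0, map_zero]
  · right
    have hw : IsForm α f (MvPolynomial.pderiv (Sum.inr (some i)) g)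
        (fun b => E b - if b = f i then 1 else 0) := by
      refine MvPolynomial.IsWeightedHomogeneous.pderiv hg ?_
      funext b
      show (E b - if b = f i then 1 else 0) + (Pi.single (f i) 1 : B → ℕ) b = E b
      by_cases hb : b = f i
      · subst hb
        rw [if_pos rfl, Pi.single_eq_same]
        exact Nat.sub_add_cancel (Nat.one_le_iff_ne_zero.mpr hE)
      · rw [if_neg hb, Pi.single_eq_of_ne hb]
        rfl
    have h1 := jac_form α f _ _ hw
    by_cases ha : f i = α
    · rw [if_pos ha]
      refine ⟨Nat.one_le_iff_ne_zero.mpr (ha ▸ hE), ?_⟩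
      rw [if_pos ha.symm] at h1
      exact h1
    · rw [if_neg ha]
      refine ⟨Nat.zero_le _, ?_⟩
      rw [if_neg fun h => ha h.symm] at h1
      exact h1

end Pool.Agent.Lib.MP_1e3e9c_ag.LN
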