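import Pool.Agent.Lib.MP_1e3e9c_ag.LN.Lin
import Pool.Agent.Lib.MP_1e3e9c_ag.LN.Den

/-! # Jets: every map from the kernel to a line bundle comes from forms


`den_induct` for `Φ p δ := ∃ P : Fin m → k[X], (∀ i, (P i * X ^ a i).natDegree ≤ d + δ) ∧ ∀ h, ∑ i, P i * ν h i = p * T h`.
START: `lin_solve ν 0 hind T` gives `p ≠ 0` and `P` with `∑ i, P i * ν h i = p * T h`; `δ` = `p.natDegree` + the sum of all `(P i * X ^ a i).natDegree`.
END: `Φ (C c) 0`, multiply `P` with `C c⁻¹`.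
`hfin`: let `P` be given for `((X - C x) * p, δ + 1)`, `w i = (P i).eval x`.  Evaluation at `x`: `∑ i, w i * (ν h i).eval x = 0` for all `h`.
 CLAIM: `∑ i, w i * z i = 0` for all `z` with `∑ i, z i * (G l i).eval x = 0` (all `l`): by `hG.fin` `z i = (ψ i).eval x`, `ψ ∈ Wsub G a 0`, and by `hspan`
 `ψ i = ∑ h, c h * ν h i`.  So by `row_space` `w i = ∑ l, λ l * (G l i).eval x`.  Then `P i - ∑ l, C (λ l) * G l i` vanishes at `x`: it is
 `(X - C x) * P' i`.  Degrees: `(P i * X ^ a i).natDegree ≤ d + δ + 1` and `(G l i * X ^ a i).natDegree ≤ e l ≤ d + 1 ≤ d + δ + 1`, so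
 `((X - C x) * P' i * X ^ a i).natDegree ≤ d + δ + 1` and `(P' i * X ^ a i).natDegree ≤ d + δ`.  `∑ i, G l i * ν h i = 0` because `ν h ∈ Wsub G a (b h)`, so
 `(X - C x) * ∑ i, P' i * ν h i = (X - C x) * p * T h`; cancel.
`hinf`: let `P` be given for `(p, δ + 1)`, `p.natDegree ≤ δ`, `w i = (P i * X ^ a i).coeff (d + δ + 1)`, `n h i = (ν h i * X ^ b h).coeff (a i)`.
 (TOP) `∑ i, w i * n h i = 0`: the product `(P i * X ^ a i) * (ν h i * X ^ b h)` has at `(d + δ + 1) + a i` the coefficient `w i * n h i`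
 (`coeff_mul_add_eq_of_natDegree_le`), which is the coefficient of `P i * ν h i * X ^ b h` at `d + δ + 1` (`coeff_mul_X_pow`); the sum over `i` is the coefficient of
 `p * (T h * X ^ b h)` at `d + δ + 1`, zero because its `natDegree` is at most `δ + d`.
 CLAIM: `∑ i, w i * z i = 0` for all `z` with `∑ i, z i * (G l i * X ^ a i).coeff (e l) = 0` (all `l`): by `hG.inf` `z i = (ψ i).coeff (a i)`,
 `ψ ∈ Wsub G a 0`, `ψ i = ∑ h, c h * ν h i` with `(c h).natDegree ≤ b h`, and `(c h * ν h i).coeff (a i) = (c h).coeff (b h) * n h i` (the coefficient at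
 `b h + a i` of `c h * (ν h i * X ^ b h)`).  So by `row_space` `w i = ∑ l, λ l * (G l i * X ^ a i).coeff (e l)`.  Put
 `P' i = P i - ∑ l, C (λ l) * X ^ (d + δ + 1 - e l) * G l i` (`e l ≤ d + 1`): `(P' i * X ^ a i).natDegree ≤ d + δ + 1` with coefficient zero at
 `d + δ + 1`, so `≤ d + δ`. -/

set_option autoImplicit false

namespace Pool.Agent.Lib.MP_1e3e9c_ag.LN

open Polynomial

private theorem jetsDrop {k : Type*} [Field k] {p : k[X]} {N : ℕ} (h : p.natDegree ≤ N + 1)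
    (h0 : p.coeff (N + 1) = 0) : p.natDegree ≤ N := by
  rw [natDegree_le_iff_coeff_eq_zero]
  intro j hj
  rcases Nat.lt_or_ge (N + 1) j with h1 | h1
  · exact coeff_eq_zero_of_natDegree_lt (lt_of_le_of_lt h h1)
  · have h2 : j = N + 1 := le_antisymm h1 hj
    rw [h2, h0]

private theorem jetsOrth {k : Type*} [Field k] {r m ρ : ℕ} {G : Fin r → Fin m → k[X]}
    {a : Fin m → ℕ} {b : Fin ρ → ℕ} {ν : Fin ρ → Fin m → k[X]} (hν : ∀ h, ν h ∈ Wsub G a (b h))
    (P : Fin m → k[X]) (lam : Fin r → k[X]) (h : Fin ρ) :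
    ∑ i, (P i - ∑ l, lam l * G l i) * ν h i = ∑ i, P i * ν h i := by
  have h1 : ∑ i, (∑ l, lam l * G l i) * ν h i = 0 := by
    simp_rw [Finset.sum_mul]
    rw [Finset.sum_comm]
    apply Finset.sum_eq_zero
    intro l _
    have h2 := (mem_Wsub.1 (hν h)).2 l
    have h3 : ∑ i, lam l * G l i * ν h i = lam l * ∑ i, ν h i * G l i := by
      rw [Finset.mul_sum]
      apply Finset.sum_congr rfl
      intro i _
      ring
    rw [h3, h2, mul_zero]
  simp_rw [sub_mul]
  rw [Finset.sum_sub_distrib, h1, sub_zero]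

private theorem jetsFin {k : Type*} [Field k] {r m ρ : ℕ} (G : Fin r → Fin m → k[X])
    (a : Fin m → ℕ) (e : Fin r → ℕ) (hG : FreeMat G a e) (b : Fin ρ → ℕ)
    (ν : Fin ρ → Fin m → k[X]) (hν : ∀ h, ν h ∈ Wsub G a (b h))
    (hspan : ∀ ψ ∈ Wsub G a 0, ∃ c : Fin ρ → k[X],
      (∀ h, (c h).natDegree ≤ b h) ∧ ∀ i, ψ i = ∑ h, c h * ν h i)
    (d : ℕ) (hd : ∀ l, e l ≤ d + 1) (T : Fin ρ → k[X]) (x : k) (p : k[X]) (δ : ℕ)
    (P : Fin m → k[X]) (hP : ∀ i, (P i * X ^ a i).natDegree ≤ d + (δ + 1))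
    (hPT : ∀ h, ∑ i, P i * ν h i = (X - C x) * p * T h) :
    ∃ P : Fin m → k[X], (∀ i, (P i * X ^ a i).natDegree ≤ d + δ) ∧
      ∀ h, ∑ i, P i * ν h i = p * T h := by
  have hclaim : ∀ z : Fin m → k, (∀ l, ∑ i, z i * (G l i).eval x = 0) →
      ∑ i, (P i).eval x * z i = 0 := by
    intro z hz
    obtain ⟨ψ, hψ, hψz⟩ := hG.fin x z hz
    obtain ⟨c, _, hc⟩ := hspan ψ hψ
    have h1 : ∑ i, (P i).eval x * z i = (∑ i, P i * ψ i).eval x := by
      rw [eval_finsetSum]
      apply Finset.sum_congr rfl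
      intro i _
      rw [eval_mul, hψz i]
    have h2 : ∑ i, P i * ψ i = ∑ h, c h * ∑ i, P i * ν h i := by
      simp_rw [hc, Finset.mul_sum]
      rw [Finset.sum_comm]
      apply Finset.sum_congr rfl
      intro h _
      apply Finset.sum_congr rfl
      intro i _
      ring
    rw [h1, h2, eval_finsetSum]
    apply Finset.sum_eq_zero
    intro h _
    rw [hPT h, eval_mul, eval_mul, eval_mul, eval_sub, eval_X, eval_C, sub_self, zero_mul,
      zero_mul, mul_zero]
  obtain ⟨lam, hlam⟩ := row_space (fun l i => (G l i).eval x) (fun i => (P i).eval x) hclaim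
  have hroot : ∀ i, ∃ q : k[X], P i - ∑ l, C (lam l) * G l i = (X - C x) * q := by
    intro i
    have h1 : (X - C x) ∣ P i - ∑ l, C (lam l) * G l i := by
      rw [dvd_iff_isRoot, IsRoot.def, eval_sub, eval_finsetSum, sub_eq_zero]
      rw [hlam i]
      apply Finset.sum_congr rfl
      intro l _
      rw [eval_mul, eval_C]
    exact h1
  choose Q hQ using hroot
  refine ⟨Q, ?_, ?_⟩
  · intro i
    by_cases h0 : Q i * X ^ a i = 0
    · rw [h0, natDegree_zero]
      exact Nat.zero_le _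
    · have h1 : ((X - C x) * (Q i * X ^ a i)).natDegree = 1 + (Q i * X ^ a i).natDegree := by
        rw [(monic_X_sub_C x).natDegree_mul' h0, natDegree_X_sub_C]
      have h2 : ((X - C x) * (Q i * X ^ a i)).natDegree ≤ d + (δ + 1) := by
        rw [← mul_assoc, ← hQ i, sub_mul, Finset.sum_mul]
        refine (natDegree_sub_le_of_le (n := d + (δ + 1)) (hP i) ?_).trans (max_self _).le
        refine natDegree_sum_le_of_forall_le _ _ ?_
        intro l _
        rw [mul_assoc]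
        refine (natDegree_C_mul_le _ _).trans ((hG.deg l i).trans ((hd l).trans ?_))
        omega
      omega
  · intro h
    have h1 := jetsOrth hν P (fun l => C (lam l)) h
    rw [hPT h] at h1
    have h2 : ∑ i, (P i - ∑ l, C (lam l) * G l i) * ν h i = (X - C x) * ∑ i, Q i * ν h i := by
      rw [Finset.mul_sum]
      apply Finset.sum_congr rfl
      intro i _
      rw [hQ i, mul_assoc]
    rw [h2, mul_assoc] at h1
    exact mul_left_cancel₀ (X_sub_C_ne_zero x) h1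

private theorem jetsInf {k : Type*} [Field k] {r m ρ : ℕ} (G : Fin r → Fin m → k[X])
    (a : Fin m → ℕ) (e : Fin r → ℕ) (hG : FreeMat G a e) (b : Fin ρ → ℕ)
    (ν : Fin ρ → Fin m → k[X]) (hν : ∀ h, ν h ∈ Wsub G a (b h))
    (hspan : ∀ ψ ∈ Wsub G a 0, ∃ c : Fin ρ → k[X],
      (∀ h, (c h).natDegree ≤ b h) ∧ ∀ i, ψ i = ∑ h, c h * ν h i)
    (d : ℕ) (hd : ∀ l, e l ≤ d + 1) (T : Fin ρ → k[X]) (hT : ∀ h, (T h * X ^ b h).natDegree ≤ d)
    (p : k[X]) (δ : ℕ) (hp : p.natDegree ≤ δ)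
    (P : Fin m → k[X]) (hP : ∀ i, (P i * X ^ a i).natDegree ≤ d + (δ + 1))
    (hPT : ∀ h, ∑ i, P i * ν h i = p * T h) :
    ∃ P : Fin m → k[X], (∀ i, (P i * X ^ a i).natDegree ≤ d + δ) ∧
      ∀ h, ∑ i, P i * ν h i = p * T h := by
  have htop : ∀ h, ∑ i, (P i * X ^ a i).coeff (d + (δ + 1)) * (ν h i * X ^ b h).coeff (a i) =
      0 := by
    intro h
    have h1 : ∀ i, (P i * X ^ a i).coeff (d + (δ + 1)) * (ν h i * X ^ b h).coeff (a i) =
        (P i * ν h i * X ^ b h).coeff (d + (δ + 1)) := by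
      intro i
      rw [← coeff_mul_add_eq_of_natDegree_le (hP i) ((mem_Wsub.1 (hν h)).1 i)]
      have h2 : P i * X ^ a i * (ν h i * X ^ b h) = P i * ν h i * X ^ b h * X ^ a i := by ring
      rw [h2, coeff_mul_X_pow]
    simp_rw [h1]
    rw [← finsetSum_coeff, ← Finset.sum_mul, hPT h]
    apply coeff_eq_zero_of_natDegree_lt
    rw [mul_assoc]
    have h3 := natDegree_mul_le_of_le hp (hT h)
    omega
  have hclaim : ∀ z : Fin m → k, (∀ l, ∑ i, z i * (G l i * X ^ a i).coeff (e l) = 0) →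
      ∑ i, (P i * X ^ a i).coeff (d + (δ + 1)) * z i = 0 := by
    intro z hz
    obtain ⟨ψ, hψ, hψz⟩ := hG.inf z hz
    obtain ⟨c, hcd, hc⟩ := hspan ψ hψ
    have h1 : ∀ i, z i = ∑ h, (c h).coeff (b h) * (ν h i * X ^ b h).coeff (a i) := by
      intro i
      rw [← hψz i, hc i, finsetSum_coeff]
      apply Finset.sum_congr rfl
      intro h _
      rw [← coeff_mul_add_eq_of_natDegree_le (hcd h) ((mem_Wsub.1 (hν h)).1 i), ← mul_assoc,
        add_comm (b h), coeff_mul_X_pow]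
    simp_rw [h1, Finset.mul_sum]
    rw [Finset.sum_comm]
    apply Finset.sum_eq_zero
    intro h _
    have h2 : ∑ i, (P i * X ^ a i).coeff (d + (δ + 1)) *
        ((c h).coeff (b h) * (ν h i * X ^ b h).coeff (a i)) = (c h).coeff (b h) *
        ∑ i, (P i * X ^ a i).coeff (d + (δ + 1)) * (ν h i * X ^ b h).coeff (a i) := by
      rw [Finset.mul_sum]
      apply Finset.sum_congr rfl
      intro i _
      ring
    rw [h2, htop h, mul_zero]
  obtain ⟨lam, hlam⟩ := row_space (fun l i => (G l i * X ^ a i).coeff (e l))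
    (fun i => (P i * X ^ a i).coeff (d + (δ + 1))) hclaim
  refine ⟨fun i => P i - ∑ l, (C (lam l) * X ^ (d + (δ + 1) - e l)) * G l i, ?_, ?_⟩
  · intro i
    have h1 : (P i - ∑ l, (C (lam l) * X ^ (d + (δ + 1) - e l)) * G l i) * X ^ a i =
        P i * X ^ a i - ∑ l, C (lam l) * (X ^ (d + (δ + 1) - e l) * (G l i * X ^ a i)) := by
      rw [sub_mul, Finset.sum_mul]
      congr 1
      apply Finset.sum_congr rfl
      intro l _
      ring
    have he : ∀ l, e l ≤ d + (δ + 1) := fun l => (hd l).trans (by omega)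
    rw [h1]
    refine jetsDrop ?_ ?_
    · refine (natDegree_sub_le_of_le (n := d + (δ + 1)) (hP i) ?_).trans (max_self _).le
      refine natDegree_sum_le_of_forall_le _ _ ?_
      intro l _
      refine (natDegree_C_mul_le _ _).trans ?_
      refine (natDegree_mul_le_of_le (natDegree_X_pow_le _) (hG.deg l i)).trans ?_
      have h2 := he l
      omega
    · have h2 : ∀ l, (C (lam l) * (X ^ (d + (δ + 1) - e l) * (G l i * X ^ a i))).coeff
          (d + δ + 1) = lam l * (G l i * X ^ a i).coeff (e l) := by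
        intro l
        have h3 : d + δ + 1 = e l + (d + (δ + 1) - e l) := by
          have h4 := he l
          omega
        rw [coeff_C_mul]
        congr 1
        conv_lhs => rw [h3]
        exact coeff_X_pow_mul _ _ _
      rw [coeff_sub, finsetSum_coeff, Finset.sum_congr rfl (fun l _ => h2 l)]
      have h5 := hlam i
      have h6 : d + δ + 1 = d + (δ + 1) := by omega
      rw [h6, h5, sub_self]
  · intro h
    rw [jetsOrth hν P (fun l => C (lam l) * X ^ (d + (δ + 1) - e l)) h, hPT h]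

theorem jets {k : Type*} [Field k] [IsAlgClosed k] {r m ρ : ℕ} (G : Fin r → Fin m → k[X])
    (a : Fin m → ℕ) (e : Fin r → ℕ) (hG : FreeMat G a e) (b : Fin ρ → ℕ)
    (ν : Fin ρ → Fin m → k[X]) (hν : ∀ h, ν h ∈ Wsub G a (b h))
    (hspan : ∀ ψ ∈ Wsub G a 0, ∃ c : Fin ρ → k[X],
      (∀ h, (c h).natDegree ≤ b h) ∧ ∀ i, ψ i = ∑ h, c h * ν h i)
    (hind : LinearIndependent k (fun h : Fin ρ => fun i : Fin m => (ν h i).eval 0))
    (d : ℕ) (hd : ∀ l, e l ≤ d + 1) (T : Fin ρ → k[X]) (hT : ∀ h, (T h * X ^ b h).natDegree ≤ d) :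
    ∃ P : Fin m → k[X], (∀ i, (P i * X ^ a i).natDegree ≤ d) ∧ ∀ h, ∑ i, P i * ν h i = T h := by
  obtain ⟨p, hp, ψ, hψ⟩ := lin_solve ν 0 hind T
  obtain ⟨c, hc, P, hP, hPT⟩ := den_induct
    (fun p δ => ∃ P : Fin m → k[X], (∀ i, (P i * X ^ a i).natDegree ≤ d + δ) ∧
      ∀ h, ∑ i, P i * ν h i = p * T h)
    (fun x p δ ⟨P, hP, hPT⟩ => jetsFin G a e hG b ν hν hspan d hd T x p δ P hP hPT)
    (fun p δ hpδ ⟨P, hP, hPT⟩ => jetsInf G a e hG b ν hν hspan d hd T hT p δ hpδ P hP hPT)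
    p hp (p.natDegree + ∑ i, (ψ i * X ^ a i).natDegree) (Nat.le_add_right _ _)
    ⟨ψ, fun i => by
      have h1 : (ψ i * X ^ a i).natDegree ≤ ∑ i, (ψ i * X ^ a i).natDegree :=
        Finset.single_le_sum (f := fun i => (ψ i * X ^ a i).natDegree)
          (fun _ _ => Nat.zero_le _) (Finset.mem_univ i)
      omega, hψ⟩
  refine ⟨fun i => C c⁻¹ * P i, ?_, ?_⟩
  · intro i
    rw [mul_assoc]
    exact (natDegree_C_mul_le _ _).trans (hP i)
  · intro h
    have h1 : ∑ i, C c⁻¹ * P i * ν h i = C c⁻¹ * ∑ i, P i * ν h i := by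
      rw [Finset.mul_sum]
      apply Finset.sum_congr rfl
      intro i _
      ring
    rw [h1, hPT h, ← mul_assoc, ← C_mul, inv_mul_cancel₀ hc, C_1, one_mul]

end Pool.Agent.Lib.MP_1e3e9c_ag.LN
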