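import Pool.Agent.Lib.MP_1e3e9c_ag.LN.Core

/-! # Lim: the limit of the successive approximations


Call `η` good for `n` if `(η i).natDegree ≤ a i`, `τ ∣ η i` and `τ ^ n ∣ Ψ j η` for all `j`.  `0` is good for `1` (`h0`).
By `hstep` every `η` good for `n ≥ 1` has a `ψ` such that `step n η := fun i => η i + τ ^ n * (ψ i).map PowerSeries.C` is good for `n + 1` (choose).
So there is a sequence (`Nat.rec` on a subtype, or `Classical.choose` in a recursion) `E n`, good for `n + 1`, `E 0 = 0`, with `τ ^ (n + 1) ∣ E (n + 1) i - E n i`.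
Hence `τ ^ (n + 1) ∣ E n' i - E n i` for `n ≤ n'`.  The limit: `η i = ∑ l ∈ Finset.range (a i + 1), C (PowerSeries.mk fun N => PowerSeries.coeff N ((E N i).coeff l)) * X ^ l`.
`(η i).natDegree ≤ a i`, and `τ ^ (n + 1) ∣ η i - E n i` (`Polynomial.C_dvd_iff_dvd_coeff` for `C (X ^ (n+1))`, `PowerSeries.X_pow_dvd_iff`: for `N ≤ n` the coefficient
`N` of `(E N i).coeff l` equals that of `(E n i).coeff l`).  So by `hcong` `τ ^ (n + 1) ∣ Ψ j η` for all `n`, hence `Ψ j η = 0` (all coefficients of all coefficients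
vanish). -/

set_option autoImplicit false

namespace Pool.Agent.Lib.MP_1e3e9c_ag.LN

open Polynomial

/-- `η` is an approximate solution of order `n`. -/
private def LimGood {k J : Type*} [Field k] {m : ℕ} (a : Fin m → ℕ)
    (Ψ : J → (Fin m → (PowerSeries k)[X]) → (PowerSeries k)[X]) (n : ℕ)
    (η : Fin m → (PowerSeries k)[X]) : Prop :=
  (∀ i, (η i).natDegree ≤ a i) ∧ (∀ i, C (PowerSeries.X : PowerSeries k) ∣ η i) ∧
    ∀ j, C (PowerSeries.X : PowerSeries k) ^ n ∣ Ψ j η

/-- divisibility by `τ ^ n`, coefficientwise -/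
private theorem lim_dvd_iff {k : Type*} [Field k] (n : ℕ) (p : (PowerSeries k)[X]) :
    C (PowerSeries.X : PowerSeries k) ^ n ∣ p ↔
      ∀ l N, N < n → PowerSeries.coeff N (p.coeff l) = 0 := by
  rw [← C_pow, Polynomial.C_dvd_iff_dvd_coeff]
  constructor
  · intro h l N hN
    exact (PowerSeries.X_pow_dvd_iff.1 (h l)) N hN
  · intro h l
    exact PowerSeries.X_pow_dvd_iff.2 (fun N hN => h l N hN)

theorem lim {k J : Type*} [Field k] {m : ℕ} (a : Fin m → ℕ)
    (Ψ : J → (Fin m → (PowerSeries k)[X]) → (PowerSeries k)[X])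
    (hcong : ∀ j n η η', (∀ i, C (PowerSeries.X : PowerSeries k) ^ n ∣ η i - η' i) →
      C (PowerSeries.X : PowerSeries k) ^ n ∣ Ψ j η - Ψ j η')
    (h0 : ∀ j, C (PowerSeries.X : PowerSeries k) ∣ Ψ j (fun _ => 0))
    (hstep : ∀ n, 1 ≤ n → ∀ η : Fin m → (PowerSeries k)[X], (∀ i, (η i).natDegree ≤ a i) →
      (∀ i, C (PowerSeries.X : PowerSeries k) ∣ η i) →
      (∀ j, C (PowerSeries.X : PowerSeries k) ^ n ∣ Ψ j η) →
      ∃ ψ : Fin m → k[X], (∀ i, (ψ i).natDegree ≤ a i) ∧
        ∀ j, C (PowerSeries.X : PowerSeries k) ^ (n + 1) ∣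
          Ψ j (fun i => η i + C (PowerSeries.X : PowerSeries k) ^ n *
            (ψ i).map (PowerSeries.C : k →+* PowerSeries k))) :
    ∃ η : Fin m → (PowerSeries k)[X], (∀ i, (η i).natDegree ≤ a i) ∧
      (∀ i, C (PowerSeries.X : PowerSeries k) ∣ η i) ∧ ∀ j, Ψ j η = 0 := by
  have hex : ∀ (n : ℕ) (η : {η // LimGood a Ψ (n + 1) η}), ∃ η' : {η // LimGood a Ψ (n + 2) η},
      ∀ i, C (PowerSeries.X : PowerSeries k) ^ (n + 1) ∣ η'.1 i - η.1 i := by
    rintro n ⟨η, hη⟩
    obtain ⟨ψ, hψ, hψ'⟩ := hstep (n + 1) (Nat.le_add_left 1 n) η hη.1 hη.2.1 hη.2.2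
    refine ⟨⟨fun i => η i + C (PowerSeries.X : PowerSeries k) ^ (n + 1) *
      (ψ i).map (PowerSeries.C : k →+* PowerSeries k), ?_, ?_, hψ'⟩, ?_⟩
    · intro i
      refine natDegree_add_le_of_degree_le (hη.1 i) ?_
      rw [← C_pow]
      exact (natDegree_C_mul_le _ _).trans (natDegree_map_le.trans (hψ i))
    · intro i
      exact dvd_add (hη.2.1 i) (Dvd.dvd.mul_right (dvd_pow_self _ (Nat.succ_ne_zero n)) _)
    · intro i
      simp
  choose nx hnx using hex
  have hz : LimGood a Ψ (0 + 1) (fun _ => 0) := by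
    refine ⟨fun i => ?_, fun i => dvd_zero _, fun j => ?_⟩
    · simp
    · rw [zero_add, pow_one]
      exact h0 j
  let E : (n : ℕ) → {η // LimGood a Ψ (n + 1) η} := fun n =>
    Nat.rec (motive := fun n => {η // LimGood a Ψ (n + 1) η}) ⟨fun _ => 0, hz⟩
      (fun n e => nx n e) n
  have hE : ∀ n i, C (PowerSeries.X : PowerSeries k) ^ (n + 1) ∣ (E (n + 1)).1 i - (E n).1 i :=
    fun n i => hnx n (E n) i
  have hle : ∀ n n', n ≤ n' → ∀ i,
      C (PowerSeries.X : PowerSeries k) ^ (n + 1) ∣ (E n').1 i - (E n).1 i := by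
    intro n n' h i
    induction n', h using Nat.le_induction with
    | base => simp
    | succ n' hn ih =>
      have h1 := dvd_add (dvd_trans (pow_dvd_pow _ (Nat.succ_le_succ hn)) (hE n' i)) ih
      rw [sub_add_sub_cancel] at h1
      exact h1
  let η : Fin m → (PowerSeries k)[X] := fun i =>
    ∑ l ∈ Finset.range (a i + 1),
      C (PowerSeries.mk fun N => PowerSeries.coeff N (((E N).1 i).coeff l)) * X ^ l
  have hcoef : ∀ i l N, PowerSeries.coeff N ((η i).coeff l)
      = PowerSeries.coeff N (((E N).1 i).coeff l) := by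
    intro i l N
    have h1 : (η i).coeff l = if l ∈ Finset.range (a i + 1) then
        (PowerSeries.mk fun N => PowerSeries.coeff N (((E N).1 i).coeff l)) else 0 := by
      simp only [η, finsetSum_coeff, coeff_C_mul_X_pow]
      rw [Finset.sum_ite_eq]
    rw [h1]
    split_ifs with h2
    · rw [PowerSeries.coeff_mk]
    · have h3 : ((E N).1 i).coeff l = 0 := by
        refine coeff_eq_zero_of_natDegree_lt (lt_of_le_of_lt ((E N).2.1 i) ?_)
        rw [Finset.mem_range, not_lt] at h2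
        omega
      rw [h3]
  have hdeg : ∀ i, (η i).natDegree ≤ a i := by
    intro i
    refine natDegree_sum_le_of_forall_le _ _ (fun l hl => ?_)
    refine (natDegree_C_mul_X_pow_le _ _).trans ?_
    exact Nat.le_of_lt_succ (Finset.mem_range.1 hl)
  have happ : ∀ n i, C (PowerSeries.X : PowerSeries k) ^ (n + 1) ∣ η i - (E n).1 i := by
    intro n i
    rw [lim_dvd_iff]
    intro l N hN
    have h1 := (lim_dvd_iff _ _).1 (hle N n (Nat.le_of_lt_succ hN) i) l N (Nat.lt_succ_self N)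
    rw [coeff_sub, map_sub, sub_eq_zero] at h1 ⊢
    rw [hcoef, h1]
  refine ⟨η, hdeg, fun i => ?_, fun j => ?_⟩
  · have h1 := happ 0 i
    have h2 : (E 0).1 i = 0 := rfl
    rw [h2, sub_zero] at h1
    rwa [zero_add, pow_one] at h1
  · have h1 : ∀ n, C (PowerSeries.X : PowerSeries k) ^ (n + 1) ∣ Ψ j η := by
      intro n
      have h2 := dvd_add (hcong j (n + 1) η (E n).1 (happ n)) ((E n).2.2.2 j)
      rwa [sub_add_cancel] at h2
    ext l N
    rw [(lim_dvd_iff _ _).1 (h1 N) l N (Nat.lt_succ_self N)]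
    simp

end Pool.Agent.Lib.MP_1e3e9c_ag.LN
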