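import Pool.Agent.Lib.MP_1e3e9c_ag.LN.Gsolve
import Pool.Agent.Lib.MP_1e3e9c_ag.LN.Lim
import Pool.Agent.Lib.MP_1e3e9c_ag.LN.Den
import Pool.Agent.Lib.MP_1e3e9c_ag.RC.Deg

/-! # Lift: the line deforms


`τ = C (PowerSeries.X)`, `a i = if f i = α then 1 else 0`.  Apply `lim a` to `J = Fin r ⊕ Fin c`,
`Ψ (inl l) η = aeval (pt η) (g l)`, `Ψ (inr j) η = aeval (pt η) (F0 j) + τ * aeval (pt η) (F j)`.
`hcong`: `aeval (pt η) P - aeval (pt η') P` is divisible by `τ ^ n` if all `η i - η' i` are (`MvPolynomial.induction_on`, as `fix2_cong` in `FL/Fix2.lean`, or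
`taylor_pt`: `η' i = η i + τ ^ n * v i`).
`h0`: `aeval (pt 0) (g l)` over `PowerSeries k` is zero (its `redt` is `0` by `redt_aeval` and `hline`, so `τ` divides it: enough);
`aeval (pt 0) (F0 j) = 0` by `hF0`.
`hstep`: let `Ψ (inl l) η = τ ^ n * ht l`, `Ψ (inr j) η = τ ^ n * qt j`.  Degrees: `(aeval (pt η) (g l)).natDegree ≤ E l α` by `RC.natDegree_aeval_le` (weights `1`;
`pt η (z b) = 1`, `pt η x = X`, `(η i).natDegree ≤ a i`), so `(ht l).natDegree ≤ E l α` (multiplication with `C (X ^ n)` does not change the degree), and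
`(redt (ht l)).natDegree ≤ E l α`; in the same way `(redt (qt j)).natDegree ≤ D j α`.
(1) `gsolve` gives `p ≠ 0`, `ψ₀` with `∑ ψ₀ i * jx (g l) i = p * redt (ht l)`; `solve` (`e l = E l α`, `h l = redt (ht l)`) gives `ψ₁` with
`(ψ₁ i).natDegree ≤ a i`, `∑ i, ψ₁ i * jx (g l) i = redt (ht l)`.
(2) `hsurj` for `q j = ∑ i, P j i * ψ₁ i - redt (qt j)` (degree `≤ D j α`: `P j i = 0` or `(P j i).natDegree + a i ≤ D j α`, by `hP`): `ψ₂` with
`∑ i, ψ₂ i * jx (g l) i = 0`, `∑ i, P j i * ψ₂ i = q j`.
(3) `ψ = ψ₂ - ψ₁`: `∑ ψ i * jx (g l) i = - redt (ht l)`, `∑ P j i * ψ i = - redt (qt j)`.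
(4) `taylor_pt` with `t = τ ^ n`, `ψ̂ i = (ψ i).map PowerSeries.C`: `aeval (pt (η + τ ^ n * ψ̂)) (g l) = τ ^ n * (ht l + ∑ i, aeval (pt η) (∂_i g l) * ψ̂ i + τ ^ n * Q)`; the
bracket has `redt` zero (`redt_aeval`: `redt (aeval (pt η) (∂_i g l)) = jx (g l) i` as `redt (η i) = 0`; `redt (ψ̂ i) = ψ i`; `redt (τ ^ n) = 0` since `n ≥ 1`), so it is
divisible by `τ` (`redt_eq_zero`).
For `inr j`: by `hF0` `aeval (pt (η + τ ^ n ψ̂)) (F0 j) = aeval (pt η) (F0 j) + τ ^ n * ∑ i, (P j i).map C * ψ̂ i`, and
`τ * aeval (pt (η + τ ^ n ψ̂)) (F j) = τ * aeval (pt η) (F j) + τ ^ (n+1) * (..)`; so the new value is `τ ^ n * (qt j + ∑ (P j i).map C * ψ̂ i + τ * (..))`, again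
with `redt` of the bracket equal to `redt (qt j) + ∑ i, P j i * ψ i = 0`. -/

set_option autoImplicit false

namespace Pool.Agent.Lib.MP_1e3e9c_ag.LN

open Polynomial Pool.Agent.Lib.MP_1e3e9c_ag.RC

private theorem lift_cong {k B : Type*} [Field k] {m : ℕ} (P : MvPolynomial (Coord B m) k) (n : ℕ)
    (η η' : Fin m → (PowerSeries k)[X])
    (h : ∀ i, C (PowerSeries.X : PowerSeries k) ^ n ∣ η i - η' i) :
    C (PowerSeries.X : PowerSeries k) ^ n ∣
      MvPolynomial.aeval (pt η) P - MvPolynomial.aeval (pt η') P := by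
  induction P using MvPolynomial.induction_on with
  | C a => simp
  | add p q hp hq =>
    have h1 := dvd_add hp hq
    have h2 : MvPolynomial.aeval (pt η) (p + q) - MvPolynomial.aeval (pt η') (p + q)
        = (MvPolynomial.aeval (pt η) p - MvPolynomial.aeval (pt η') p)
          + (MvPolynomial.aeval (pt η) q - MvPolynomial.aeval (pt η') q) := by
      rw [map_add, map_add]; ring
    rw [h2]; exact h1
  | mul_X p t hp =>
    have h2 : MvPolynomial.aeval (pt η) (p * MvPolynomial.X t) -
        MvPolynomial.aeval (pt η') (p * MvPolynomial.X t)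
        = (MvPolynomial.aeval (pt η) p - MvPolynomial.aeval (pt η') p) * pt η t
          + MvPolynomial.aeval (pt η') p * (pt η t - pt η' t) := by
      rw [map_mul, map_mul, MvPolynomial.aeval_X, MvPolynomial.aeval_X]; ring
    rw [h2]
    refine dvd_add (Dvd.dvd.mul_right hp _) (Dvd.dvd.mul_left ?_ _)
    rcases t with b | (_ | i)
    · simp [pt]
    · simp [pt]
    · exact h i

private theorem lift_deg {k B : Type*} [Field k] [Fintype B] [DecidableEq B] {m : ℕ} (α : B)
    (f : Fin m → B) (P : MvPolynomial (Coord B m) k) (D : B → ℕ) (hP : IsForm α f P D)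
    (η : Fin m → (PowerSeries k)[X]) (hη : ∀ i, (η i).natDegree ≤ if f i = α then 1 else 0) :
    (MvPolynomial.aeval (pt η) P).natDegree ≤ D α := by
  refine RC.natDegree_aeval_le (R := PowerSeries k) (fac α f) (fun _ => 1) α P D hP (pt η) ?_
  rintro (b | (_ | i))
  · simp [pt]
  · show (X : (PowerSeries k)[X]).natDegree ≤ _
    rw [if_pos (show fac α f (Sum.inr none : Coord B m) = α from rfl)]
    exact Polynomial.natDegree_X_le
  · exact hη i

private theorem lift_redt_deg {k : Type*} [Field k] (n d : ℕ) (p q : (PowerSeries k)[X])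
    (h : p = C (PowerSeries.X : PowerSeries k) ^ n * q) (hp : p.natDegree ≤ d) :
    (redt q).natDegree ≤ d := by
  have h1 : q.natDegree ≤ d := by
    rw [h, ← C_pow] at hp
    rwa [Polynomial.natDegree_C_mul (pow_ne_zero n PowerSeries.X_ne_zero)] at hp
  exact (Polynomial.natDegree_map_le).trans h1

theorem lift {k B : Type*} [Field k] [IsAlgClosed k] [Fintype B] [DecidableEq B] {m r c : ℕ}
    (α : B) (f : Fin m → B) (g : Fin r → MvPolynomial (Coord B m) k) (E : Fin r → B → ℕ)
    (hgE : ∀ l, IsForm α f (g l) (E l))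
    (hline : ∀ l, MvPolynomial.aeval (pt (fun _ => (0 : k[X]))) (g l) = 0) (t0 : k)
    (S : Finset (Fin r))
    (hind : LinearIndependent k (fun l : S => fun i : Fin m => (jx (g l) i).eval t0))
    (Δ : MvPolynomial (Coord B m) k)
    (hΔ : MvPolynomial.aeval (pt (fun _ => (0 : k[X]))) Δ ≠ 0)
    (hmem : ∀ l, Δ * g l ∈ Ideal.span (g '' (S : Set (Fin r))))
    (hG : FreeMat (fun l i => jx (g l) i) (fun i => (if f i = α then 1 else 0) + 1)
      (fun l => E l α + 1))
    (D : Fin c → B → ℕ) (P : Fin c → Fin m → k[X])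
    (hP : ∀ j i, (P j i * X ^ ((if f i = α then 1 else 0) + 1)).natDegree ≤ D j α + 1)
    (hsurj : ∀ q : Fin c → k[X], (∀ j, (q j).natDegree ≤ D j α) →
      ∃ ψ : Fin m → k[X], (∀ i, (ψ i).natDegree ≤ if f i = α then 1 else 0) ∧
        (∀ l, ∑ i, ψ i * jx (g l) i = 0) ∧ ∀ j, ∑ i, P j i * ψ i = q j)
    (F F0 : Fin c → MvPolynomial (Coord B m) k) (hF : ∀ j, IsForm α f (F j) (D j))
    (hF0D : ∀ j, IsForm α f (F0 j) (D j))
    (hF0 : ∀ (η : Fin m → (PowerSeries k)[X]) (j : Fin c),
        MvPolynomial.aeval (pt η) (F0 j) =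
          ∑ i, (P j i).map (PowerSeries.C : k →+* PowerSeries k) * η i) :
    ∃ η : Fin m → (PowerSeries k)[X], (∀ i, (η i).natDegree ≤ if f i = α then 1 else 0) ∧
      (∀ l, MvPolynomial.aeval (pt η) (g l) = 0) ∧
      ∀ j, MvPolynomial.aeval (pt η) (F0 j) +
        C (PowerSeries.X : PowerSeries k) * MvPolynomial.aeval (pt η) (F j) = 0 := by
  classical
  obtain ⟨η, h1, -, h3⟩ := lim (J := Fin r ⊕ Fin c) (fun i => if f i = α then 1 else 0)
    (Sum.elim (fun l η => MvPolynomial.aeval (pt η) (g l))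
      (fun j η => MvPolynomial.aeval (pt η) (F0 j) +
        C (PowerSeries.X : PowerSeries k) * MvPolynomial.aeval (pt η) (F j)))
    (by
      rintro (l | j) n η η' h
      · exact lift_cong (g l) n η η' h
      · have e1 := lift_cong (F0 j) n η η' h
        have e2 := lift_cong (F j) n η η' h
        have e3 := dvd_add e1 (Dvd.dvd.mul_left e2 (C (PowerSeries.X : PowerSeries k)))
        have e4 : MvPolynomial.aeval (pt η) (F0 j) - MvPolynomial.aeval (pt η') (F0 j) +
            C (PowerSeries.X : PowerSeries k) *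
              (MvPolynomial.aeval (pt η) (F j) - MvPolynomial.aeval (pt η') (F j)) =
            (MvPolynomial.aeval (pt η) (F0 j) +
              C (PowerSeries.X : PowerSeries k) * MvPolynomial.aeval (pt η) (F j)) -
            (MvPolynomial.aeval (pt η') (F0 j) +
              C (PowerSeries.X : PowerSeries k) * MvPolynomial.aeval (pt η') (F j)) := by ring
        rw [e4] at e3
        exact e3)
    (by
      rintro (l | j)
      · show C (PowerSeries.X : PowerSeries k) ∣ MvPolynomial.aeval (pt fun _ => 0) (g l)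
        rw [← redt_eq_zero, redt_aeval]
        simp only [map_zero]
        exact hline l
      · show C (PowerSeries.X : PowerSeries k) ∣ MvPolynomial.aeval (pt fun _ => 0) (F0 j) +
          C (PowerSeries.X : PowerSeries k) * MvPolynomial.aeval (pt fun _ => 0) (F j)
        rw [hF0]
        simp)
    (by
      intro n hn η hη hτη hΨ
      have hred : ∀ i, redt (η i) = 0 := fun i => (redt_eq_zero _).2 (hτη i)
      choose ht hht using fun l : Fin r => hΨ (Sum.inl l)
      choose qt hqt using fun j : Fin c => hΨ (Sum.inr j)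
      simp only [Sum.elim_inl] at hht
      simp only [Sum.elim_inr] at hqt
      obtain ⟨p, hp, ψ0, hψ0⟩ := gsolve g hline t0 S hind Δ hΔ hmem n η hred ht hht
      obtain ⟨ψ1, hψ1, hψ1'⟩ := solve (fun l i => jx (g l) i) (fun i => if f i = α then 1 else 0)
        (fun l => E l α) hG (fun l => redt (ht l))
        (fun l => lift_redt_deg n _ _ _ (hht l) (lift_deg α f (g l) (E l) (hgE l) η hη))
        p hp ψ0 hψ0
      have hqdeg : ∀ j, (redt (qt j)).natDegree ≤ D j α := by
        intro j
        refine lift_redt_deg n _ _ _ (hqt j) ?_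
        refine Polynomial.natDegree_add_le_of_degree_le (lift_deg α f (F0 j) (D j) (hF0D j) η hη) ?_
        exact (Polynomial.natDegree_C_mul_le _ _).trans (lift_deg α f (F j) (D j) (hF j) η hη)
      have hPψ : ∀ j i, (P j i * ψ1 i).natDegree ≤ D j α := by
        intro j i
        by_cases h0 : P j i = 0
        · rw [h0, zero_mul, Polynomial.natDegree_zero]
          exact Nat.zero_le _
        · have e1 := hP j i
          rw [Polynomial.natDegree_mul_X_pow _ h0] at e1
          have e2 := hψ1 i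
          exact Polynomial.natDegree_mul_le.trans (by omega)
      obtain ⟨ψ2, hψ2, hψ2', hψ2''⟩ := hsurj (fun j => ∑ i, P j i * ψ1 i - redt (qt j)) (by
        intro j
        refine (Polynomial.natDegree_sub_le_of_le (n := D j α) (m := D j α) ?_ (hqdeg j)).trans
          (by rw [max_self])
        exact Polynomial.natDegree_sum_le_of_forall_le _ _ (fun i _ => hPψ j i))
      refine ⟨fun i => ψ2 i - ψ1 i, fun i => ?_, ?_⟩
      · exact (Polynomial.natDegree_sub_le_of_le (hψ2 i) (hψ1 i)).trans (by rw [max_self])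
      have hg1 : ∀ l, redt (ht l) + ∑ i, jx (g l) i * (ψ2 i - ψ1 i) = 0 := by
        intro l
        have e1 : ∑ i, jx (g l) i * (ψ2 i - ψ1 i) =
            ∑ i, ψ2 i * jx (g l) i - ∑ i, ψ1 i * jx (g l) i := by
          rw [← Finset.sum_sub_distrib]
          exact Finset.sum_congr rfl fun i _ => by ring
        rw [e1, hψ2' l, hψ1' l]
        ring
      have hF1 : ∀ j, redt (qt j) + ∑ i, P j i * (ψ2 i - ψ1 i) = 0 := by
        intro j
        have e1 : ∑ i, P j i * (ψ2 i - ψ1 i) = ∑ i, P j i * ψ2 i - ∑ i, P j i * ψ1 i := by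
          rw [← Finset.sum_sub_distrib]
          exact Finset.sum_congr rfl fun i _ => by ring
        rw [e1, hψ2'' j]
        ring
      have hnp : ∃ n', n = n' + 1 := ⟨n - 1, by omega⟩
      obtain ⟨n', rfl⟩ := hnp
      rintro (l | j)
      · obtain ⟨Q, hQ⟩ := taylor_pt η
          (fun i => (ψ2 i - ψ1 i).map (PowerSeries.C : k →+* PowerSeries k))
          (C (PowerSeries.X : PowerSeries k) ^ (n' + 1)) (g l)
        simp only [Sum.elim_inl]
        rw [hQ, hht l]
        have e1 : C (PowerSeries.X : PowerSeries k) ∣ ht l +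
            ∑ i, MvPolynomial.aeval (pt η) (MvPolynomial.pderiv (Sum.inr (some i)) (g l)) *
              (ψ2 i - ψ1 i).map (PowerSeries.C : k →+* PowerSeries k) := by
          rw [← redt_eq_zero, map_add, map_sum, ← hg1 l]
          congr 1
          refine Finset.sum_congr rfl fun i _ => ?_
          rw [map_mul, redt_aeval, redt_map_C]
          have e2 : (fun i => redt (η i)) = fun _ => (0 : k[X]) := funext hred
          rw [e2]
          rfl
        obtain ⟨R, hR⟩ := e1
        refine ⟨R + C (PowerSeries.X : PowerSeries k) ^ n' * Q, ?_⟩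
        linear_combination (C (PowerSeries.X : PowerSeries k) ^ (n' + 1)) * hR
      · obtain ⟨Q, hQ⟩ := taylor_pt η
          (fun i => (ψ2 i - ψ1 i).map (PowerSeries.C : k →+* PowerSeries k))
          (C (PowerSeries.X : PowerSeries k) ^ (n' + 1)) (F j)
        simp only [Sum.elim_inr]
        rw [hQ]
        have e0 := hqt j
        have e3 : MvPolynomial.aeval (pt fun i => η i + C (PowerSeries.X : PowerSeries k) ^ (n' + 1) *
            (ψ2 i - ψ1 i).map (PowerSeries.C : k →+* PowerSeries k)) (F0 j) =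
            MvPolynomial.aeval (pt η) (F0 j) + C (PowerSeries.X : PowerSeries k) ^ (n' + 1) *
              ∑ i, (P j i).map (PowerSeries.C : k →+* PowerSeries k) *
                (ψ2 i - ψ1 i).map (PowerSeries.C : k →+* PowerSeries k) := by
          rw [hF0, hF0, Finset.mul_sum, ← Finset.sum_add_distrib]
          exact Finset.sum_congr rfl fun i _ => by ring
        rw [e3]
        have e1 : C (PowerSeries.X : PowerSeries k) ∣ qt j +
            ∑ i, (P j i).map (PowerSeries.C : k →+* PowerSeries k) *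
              (ψ2 i - ψ1 i).map (PowerSeries.C : k →+* PowerSeries k) := by
          rw [← redt_eq_zero, map_add, map_sum, ← hF1 j]
          congr 1
          refine Finset.sum_congr rfl fun i _ => ?_
          rw [map_mul, redt_map_C, redt_map_C]
        obtain ⟨R, hR⟩ := e1
        refine ⟨R + (∑ i, MvPolynomial.aeval (pt η)
            (MvPolynomial.pderiv (Sum.inr (some i)) (F j)) *
              (ψ2 i - ψ1 i).map (PowerSeries.C : k →+* PowerSeries k)) +
          C (PowerSeries.X : PowerSeries k) ^ (n' + 1) * Q, ?_⟩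
        linear_combination (C (PowerSeries.X : PowerSeries k) ^ (n' + 1)) * hR + e0)
  exact ⟨η, h1, fun l => h3 (Sum.inl l), fun j => h3 (Sum.inr j)⟩


end Pool.Agent.Lib.MP_1e3e9c_ag.LN
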