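import Mathlib

/-! # Lin: linear algebra over `k` and over `k(X)`


`row_space`: the functional `z ↦ ∑ i, v i * z i` vanishes on the common kernel of the functionals `z ↦ ∑ i, z i * M l i`, so it
is a linear combination of them: `mem_span_of_iInf_ker_le_ker` (Mathlib, finite index type), or the dual annihilator.
Then evaluate at `Pi.single i 1`.

`lin_solve`: let `K = FractionRing k[X]`, `γ j : Fin m → K` the image of the row `G j`.
(a) If `c : S → K` and `∑ j, c j * γ j i = 0` for all `i` then `c = 0`: otherwise, after multiplication with a common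
denominator, `c j` is the image of `d j : k[X]`, not all `d j = 0`, and `∑ j, d j * G j i = 0` for all `i`.  Let `(X - C x)^n` be the highest power that
divides all `d j` (induction on the minimal degree of a nonzero `d j`, or on the sum of the `natDegree`s): divide, so some
`d j (x) ≠ 0`; the evaluation at `x` of the relation contradicts `hind`.
(b) The `K`-linear map `φ : (Fin m → K) → (S → K)`, `φ ψ j = ∑ i, ψ i * γ j i` is surjective: otherwise there is a nonzero linear functional
that kills the range (`Submodule.exists_le_ker_of_lt_top`), i.e. `c ≠ 0` with `∑ j, c j * φ ψ j = 0` for all `ψ`; `ψ = Pi.single i 1` gives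
`∑ j, c j * γ j i = 0`, contradiction with (a).
(c) Take `ψ` over `K` with `φ ψ = h`, multiply by a common denominator `p ≠ 0` of the `ψ i`
(`IsLocalization.exist_integer_multiples_of_finset (nonZeroDivisors k[X])`), and use that `k[X] → K` is injective.
(Any other proof, e.g. with a nonzero minor and Cramer's rule, is fine.) -/

set_option autoImplicit false

namespace Pool.Agent.Lib.MP_1e3e9c_ag.LN

open Polynomial

theorem row_space {k : Type*} [Field k] {r m : ℕ} (M : Fin r → Fin m → k) (v : Fin m → k)
    (h : ∀ z : Fin m → k, (∀ l, ∑ i, z i * M l i = 0) → ∑ i, v i * z i = 0) :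
    ∃ c : Fin r → k, ∀ i, v i = ∑ l, c l * M l i := by
  have h1 : Fintype.linearCombination k v ∈
      Submodule.span k (Set.range fun l => Fintype.linearCombination k (M l)) := by
    apply mem_span_of_iInf_ker_le_ker
    intro z hz
    rw [Submodule.mem_iInf] at hz
    rw [LinearMap.mem_ker, Fintype.linearCombination_apply]
    have h2 := h z (fun l => by
      have h3 := hz l
      rw [LinearMap.mem_ker, Fintype.linearCombination_apply] at h3
      rw [← h3]
      exact Finset.sum_congr rfl fun i _ => (smul_eq_mul _ _).symm)
    rw [← h2]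
    exact Finset.sum_congr rfl fun i _ => by rw [smul_eq_mul, mul_comm]
  obtain ⟨c, hc⟩ := (Submodule.mem_span_range_iff_exists_fun k).mp h1
  refine ⟨c, fun i => ?_⟩
  have h4 := LinearMap.congr_fun hc (Pi.single i 1)
  rw [Fintype.linearCombination_apply_single, one_smul, LinearMap.sum_apply] at h4
  rw [← h4]
  refine Finset.sum_congr rfl fun l _ => ?_
  rw [LinearMap.smul_apply, Fintype.linearCombination_apply_single, one_smul, smul_eq_mul]

theorem lin_solve {k S : Type*} [Field k] [Fintype S] {m : ℕ} (G : S → Fin m → k[X]) (x : k)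
    (hind : LinearIndependent k (fun j : S => fun i : Fin m => (G j i).eval x)) (h : S → k[X]) :
    ∃ p : k[X], p ≠ 0 ∧ ∃ ψ : Fin m → k[X], ∀ j, ∑ i, ψ i * G j i = p * h j := by
  classical
  let row : S → Fin m → k := fun j i => (G j i).eval x
  obtain ⟨g, hg⟩ := LinearMap.exists_leftInverse_of_injective (Fintype.linearCombination k row)
    (LinearMap.ker_eq_bot.mpr hind.fintypeLinearCombination_injective)
  let N : Fin m → S → k := fun i j => g (Pi.single i 1) j
  have hN : ∀ j j', ∑ i, (G j i).eval x * N i j' = if j = j' then 1 else 0 := by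
    intro j j'
    have h1 := LinearMap.congr_fun hg (Pi.single j 1)
    rw [LinearMap.comp_apply, Fintype.linearCombination_apply_single, one_smul,
      LinearMap.id_apply] at h1
    have h2 : row j = ∑ i, (G j i).eval x • (Pi.single i (1 : k) : Fin m → k) := by
      ext i'
      rw [Finset.sum_apply, Finset.sum_eq_single i']
      · rw [Pi.smul_apply, Pi.single_eq_same, smul_eq_mul, mul_one]
      · intro b _ hb
        rw [Pi.smul_apply, Pi.single_eq_of_ne hb.symm, smul_zero]
      · intro hi
        exact absurd (Finset.mem_univ i') hi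
    rw [h2, map_sum] at h1
    have h3 := congrFun h1 j'
    rw [Finset.sum_apply, Pi.single_apply] at h3
    have h4 : (if j = j' then (1 : k) else 0) = if j' = j then 1 else 0 :=
      if_congr eq_comm rfl rfl
    rw [h4, ← h3]
    refine Finset.sum_congr rfl fun i _ => ?_
    rw [map_smul, Pi.smul_apply, smul_eq_mul]
  let P : Matrix S S k[X] := Matrix.of fun j j' => ∑ i, G j i * C (N i j')
  have hP : (evalRingHom x).mapMatrix P = 1 := by
    ext j j'
    have e1 : P j j' = ∑ i, G j i * C (N i j') := rfl
    rw [RingHom.mapMatrix_apply, Matrix.map_apply, e1, map_sum, Matrix.one_apply, ← hN j j']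
    refine Finset.sum_congr rfl fun i _ => ?_
    rw [map_mul, coe_evalRingHom, eval_C]
  have hdet : eval x P.det = 1 := by
    rw [← coe_evalRingHom, RingHom.map_det, hP, Matrix.det_one]
  refine ⟨P.det, ?_, fun i => ∑ j', C (N i j') * (P.adjugate.mulVec h) j', ?_⟩
  · intro h0
    rw [h0, eval_zero] at hdet
    exact zero_ne_one hdet
  · intro j
    have e1 : (P.mulVec (P.adjugate.mulVec h)) j = P.det * h j := by
      rw [Matrix.mulVec_mulVec, Matrix.mul_adjugate, Matrix.smul_mulVec, Matrix.one_mulVec]
      rfl
    rw [← e1]
    show ∑ i, (∑ j', C (N i j') * (P.adjugate.mulVec h) j') * G j i =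
      ∑ j', (∑ i, G j i * C (N i j')) * (P.adjugate.mulVec h) j'
    have e2 : ∀ i, (∑ j', C (N i j') * (P.adjugate.mulVec h) j') * G j i =
        ∑ j', G j i * C (N i j') * (P.adjugate.mulVec h) j' := by
      intro i
      rw [Finset.sum_mul]
      refine Finset.sum_congr rfl fun j' _ => ?_
      ring
    rw [Finset.sum_congr rfl fun i _ => e2 i, Finset.sum_comm]
    refine Finset.sum_congr rfl fun j' _ => ?_
    rw [Finset.sum_mul]

end Pool.Agent.Lib.MP_1e3e9c_ag.LN
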