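import Pool.Agent.Lib.MP_1e3e9c_ag.LN.Core

/-! # Spec: the special member


`F0 j = ∑ i, ∑ n ∈ Finset.range (D j α + 1), C ((P j i).coeff n) * (X (y i) * X x ^ n * ∏ b, X (z b) ^ (D j b - (if b = f i then 1 else 0) - (if b = α then n else 0)))`
(`y i = Sum.inr (some i)`, `x = Sum.inr none`, `z b = Sum.inl b`; if `(P j i).coeff n = 0` the term is zero).  If `(P j i).coeff n ≠ 0` then
`n ≤ (P j i).natDegree` and `(P j i * X ^ (..)).natDegree = (P j i).natDegree + ..`, so `hP` gives `n + (if f i = α then 1 else 0) ≤ D j α`, and the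
monomial has the multidegree `D j` (as in `RC/Spec.lean` with all weights `1`).  Evaluation at `pt η` (`z b ↦ 1`, `x ↦ X`, `y i ↦ η i`):
`∑ n, C (algebraMap k (PowerSeries k) (coeff n (P j i))) * (η i * X ^ n) = (P j i).map PowerSeries.C * η i`
(`natDegree (P j i) ≤ D j α`, `Polynomial.as_sum_range'`). -/

set_option autoImplicit false

namespace Pool.Agent.Lib.MP_1e3e9c_ag.LN

open Polynomial Pool.Agent.Lib.MP_1e3e9c_ag.RC

theorem special {k B : Type*} [Field k] [Fintype B] [DecidableEq B] (m c : ℕ) (α : B)
    (f : Fin m → B) (D : Fin c → B → ℕ) (hD : ∀ j b, 1 ≤ D j b) (P : Fin c → Fin m → k[X])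
    (hP : ∀ j i, (P j i * X ^ ((if f i = α then 1 else 0) + 1)).natDegree ≤ D j α + 1) :
    ∃ F0 : Fin c → MvPolynomial (Coord B m) k, (∀ j, IsForm α f (F0 j) (D j)) ∧
      ∀ (η : Fin m → (PowerSeries k)[X]) (j : Fin c),
        MvPolynomial.aeval (pt η) (F0 j) =
          ∑ i, (P j i).map (PowerSeries.C : k →+* PowerSeries k) * η i := by
  classical
  have hdeg : ∀ j i, (P j i).natDegree ≤ D j α := by
    intro j i
    by_cases h0 : P j i = 0
    · rw [h0, natDegree_zero]
      exact Nat.zero_le _
    · have h1 := hP j i
      rw [natDegree_mul_X_pow _ h0] at h1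
      omega
  refine ⟨fun j => ∑ i, ∑ n ∈ Finset.range (D j α + 1),
      MvPolynomial.C ((P j i).coeff n) * (MvPolynomial.X (Sum.inr (some i)) *
      MvPolynomial.X (Sum.inr none) ^ n *
      ∏ b, MvPolynomial.X (Sum.inl b) ^
        (D j b - (if b = f i then 1 else 0) - (if b = α then n else 0))),
    fun j => ?_, fun η j => ?_⟩
  · refine (MvPolynomial.mem_weightedHomogeneousSubmodule k _ _ _).1
      (Submodule.sum_mem _ fun i _ => Submodule.sum_mem _ fun n _ => ?_)
    by_cases hc : (P j i).coeff n = 0
    · rw [hc, MvPolynomial.C_0, zero_mul]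
      exact Submodule.zero_mem _
    rw [← MvPolynomial.smul_eq_C_mul]
    refine Submodule.smul_mem _ _ ?_
    rw [MvPolynomial.mem_weightedHomogeneousSubmodule]
    have h2 : n + (if f i = α then 1 else 0) ≤ D j α := by
      have h0 : P j i ≠ 0 := fun h => hc (by rw [h, coeff_zero])
      have h1 := hP j i
      rw [natDegree_mul_X_pow _ h0] at h1
      have h3 := le_natDegree_of_ne_zero hc
      omega
    have h1 := hD j (f i)
    have e1 := MvPolynomial.isWeightedHomogeneous_X k (mdeg (fac α f) (fun _ => 1))
      (Sum.inr (some i) : Coord B m)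
    have e2 := (MvPolynomial.isWeightedHomogeneous_X k (mdeg (fac α f) (fun _ => 1))
      (Sum.inr none : Coord B m)).pow n
    have e3 := MvPolynomial.IsWeightedHomogeneous.prod (R := k) Finset.univ
      (fun b => MvPolynomial.X (Sum.inl b : Coord B m) ^
        (D j b - (if b = f i then 1 else 0) - (if b = α then n else 0)))
      (fun b => (D j b - (if b = f i then 1 else 0) - (if b = α then n else 0)) •
        mdeg (fac α f) (fun _ => 1) (Sum.inl b : Coord B m))
      (w := mdeg (fac α f) (fun _ => 1))
      (fun b _ => (MvPolynomial.isWeightedHomogeneous_X k (mdeg (fac α f) (fun _ => 1))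
        (Sum.inl b : Coord B m)).pow _)
    have e4 := (e1.mul e2).mul e3
    have e5 : mdeg (fac α f) (fun _ => 1) (Sum.inr (some i) : Coord B m) +
        n • mdeg (fac α f) (fun _ => 1) (Sum.inr none : Coord B m) +
        ∑ b, (D j b - (if b = f i then 1 else 0) - (if b = α then n else 0)) •
          mdeg (fac α f) (fun _ => 1) (Sum.inl b : Coord B m) = D j := by
      funext b'
      have h3 : ∑ b, ((D j b - (if b = f i then 1 else 0) - (if b = α then n else 0)) •
          mdeg (fac α f) (fun _ => 1) (Sum.inl b : Coord B m)) b' =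
          D j b' - (if b' = f i then 1 else 0) - (if b' = α then n else 0) := by
        rw [Finset.sum_eq_single b']
        · simp [mdeg, fac]
        · intro b _ hb
          simp [mdeg, fac, Pi.single_eq_of_ne (Ne.symm hb)]
        · intro hb
          exact absurd (Finset.mem_univ _) hb
      rw [Pi.add_apply, Pi.add_apply, Finset.sum_apply, h3]
      have h4 : mdeg (fac α f) (fun _ => 1) (Sum.inr (some i) : Coord B m) b' =
          if b' = f i then 1 else 0 := by
        simp [mdeg, fac, Pi.single_apply]
      have h5 : (n • mdeg (fac α f) (fun _ => 1) (Sum.inr none : Coord B m)) b' =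
          if b' = α then n else 0 := by
        simp [mdeg, fac, Pi.single_apply]
      rw [h4, h5]
      by_cases hα : b' = α
      · subst hα
        by_cases hf : b' = f i
        · rw [if_pos hf.symm] at h2
          rw [if_pos rfl, if_pos hf]
          omega
        · rw [if_neg (Ne.symm hf)] at h2
          rw [if_pos rfl, if_neg hf]
          omega
      · by_cases hf : b' = f i
        · rw [← hf] at h1
          rw [if_neg hα, if_pos hf]
          omega
        · rw [if_neg hα, if_neg hf]
          omega
    rw [e5] at e4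
    exact e4
  · rw [map_sum]
    refine Finset.sum_congr rfl fun i _ => ?_
    rw [map_sum]
    have hsum : (P j i).map (PowerSeries.C : k →+* PowerSeries k) =
        ∑ n ∈ Finset.range (D j α + 1),
          algebraMap k ((PowerSeries k)[X]) ((P j i).coeff n) * X ^ n := by
      conv_lhs => rw [(P j i).as_sum_range' (D j α + 1) (Nat.lt_succ_of_le (hdeg j i))]
      rw [Polynomial.map_sum]
      refine Finset.sum_congr rfl fun n _ => ?_
      rw [Polynomial.map_monomial, ← C_mul_X_pow_eq_monomial, Polynomial.algebraMap_apply]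
      rfl
    rw [hsum, Finset.sum_mul]
    refine Finset.sum_congr rfl fun n _ => ?_
    simp only [map_mul, map_pow, map_prod, MvPolynomial.aeval_X, MvPolynomial.aeval_C]
    simp only [pt, Sum.elim_inr, Sum.elim_inl, Option.elim_some, Option.elim_none, one_pow,
      Finset.prod_const_one, mul_one]
    ring

end Pool.Agent.Lib.MP_1e3e9c_ag.LN
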