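import Pool.Agent.Lib.MP_1e3e9c_ag.LN.Jac
import Pool.Agent.Lib.MP_1e3e9c_ag.LN.Bin

/-! # Trans: from binary forms to polynomials in one variable


`free_of_unobstructed`: `deg`: by `jx_eq`, `jac_hom`, `bin_deg` (if `jac ≠ 0`: `natDegree ≤ (E l α - a i) + (a i + 1)` and `a i ≤ E l α`).  `fin`: for `x : k` take
 `P = ![1, x]`; `(jx (g l) i).eval x = eval ![1, x] (jac ..)` by `jx_eq`, `bin_eval`; the section `ψ` of `normalSections α f g 1` gives
 `fun i => aeval ![1, X] (ψ i) ∈ Wsub _ _ 0` (`bin_deg`; the relation is mapped by the ring hom, `jx_eq`) with the right values (`bin_eval`).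
 `inf`: take `P = ![0, 1]`; `(jx (g l) i * X ^ (a i + 1)).coeff (E l α + 1) = eval ![0, 1] (jac α (g l) i)`: both are `0` if `jac = 0`, otherwise by `jac_hom`, `bin_coeff`
 (`coeff_mul_X_pow`, `E l α + 1 = (E l α - a i) + (a i + 1)`); the values of the section at infinity by `bin_coeff` (degree `a i + 1`).
`finrank_le`: the linear map `normalSections α f g 0 → Wsub _ _ 1`, `ψ ↦ (aeval ![1, X] (ψ i))_i` is well defined (`(q * X ^ 1).natDegree ≤ a i + 1`) and injective
 (`bin_inj`); `Wsub _ _ 1` is finite dimensional (it embeds by the coefficients into `Fin m → Fin 3 → k`, all degrees are `≤ 2`);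
 `LinearMap.finrank_le_finrank_of_injective`. -/

set_option autoImplicit false

namespace Pool.Agent.Lib.MP_1e3e9c_ag.LN

open Polynomial Pool.Agent.Lib.MP_1e3e9c_ag.RC

private theorem Trans_mem {k B : Type*} [Field k] [Fintype B] [DecidableEq B] {m r : ℕ} (α : B)
    (f : Fin m → B) (g : Fin r → MvPolynomial (Coord B m) k) (q : ℕ)
    (ψ : Fin m → MvPolynomial (Fin 2) k) (hψ : ψ ∈ normalSections α f g q) (l : Fin r) :
    ∑ i, MvPolynomial.aeval ![(1 : k[X]), X] (ψ i) * jx (g l) i = 0 := by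
  have h2 : ∑ i, ψ i * jac α (g l) i = 0 := hψ.2 l
  have h3 := congrArg (MvPolynomial.aeval ![(1 : k[X]), X]) h2
  rw [map_zero, map_sum] at h3
  rw [← h3]
  refine Finset.sum_congr rfl fun i _ => ?_
  rw [map_mul, jx_eq]

private theorem Trans_inf {k B : Type*} [Field k] [Fintype B] [DecidableEq B] {m : ℕ} (α : B)
    (f : Fin m → B) (g : MvPolynomial (Coord B m) k) (E : B → ℕ) (hg : IsForm α f g E) (i : Fin m) :
    (jx g i * X ^ ((if f i = α then 1 else 0) + 1)).coeff (E α + 1) =
      MvPolynomial.eval ![0, 1] (jac α g i) := by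
  rw [← jx_eq α]
  rcases jac_hom α f g E hg i with h0 | ⟨h1, h2⟩
  · rw [h0, map_zero, map_zero, zero_mul, coeff_zero]
  · have h3 : E α + 1 = (E α - (if f i = α then 1 else 0)) + ((if f i = α then 1 else 0) + 1) := by
      omega
    rw [h3, coeff_mul_X_pow, bin_coeff _ _ h2]

theorem free_of_unobstructed {k B : Type*} [Field k] [Fintype B] [DecidableEq B] {m r : ℕ} (α : B)
    (f : Fin m → B) (g : Fin r → MvPolynomial (Coord B m) k) (E : Fin r → B → ℕ)
    (hgE : ∀ l, IsForm α f (g l) (E l)) (hu : Unobstructed α f g) :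
    FreeMat (fun l i => jx (g l) i) (fun i => (if f i = α then 1 else 0) + 1)
      (fun l => E l α + 1) := by
  refine ⟨fun l i => ?_, fun x v hv => ?_, fun v hv => ?_⟩
  · rw [← jx_eq α]
    rcases jac_hom α f (g l) (E l) (hgE l) i with h0 | ⟨h1, h2⟩
    · rw [h0, map_zero, zero_mul, natDegree_zero]
      exact Nat.zero_le _
    · have h3 := bin_deg _ _ h2
      have h4 := natDegree_mul_le (p := MvPolynomial.aeval ![(1 : k[X]), X] (jac α (g l) i))
        (q := X ^ ((if f i = α then 1 else 0) + 1))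
      rw [natDegree_X_pow] at h4
      omega
  · have hP : (![1, x] : Fin 2 → k) ≠ 0 := by
      intro h0
      exact one_ne_zero (congrFun h0 0)
    obtain ⟨ψ, hψ, hψv⟩ := hu ![1, x] hP v (fun l => by
      refine Eq.trans (Finset.sum_congr rfl fun i _ => ?_) (hv l)
      rw [← bin_eval, jx_eq])
    refine ⟨fun i => MvPolynomial.aeval ![(1 : k[X]), X] (ψ i), ⟨fun i => ?_, fun l => ?_⟩, fun i => ?_⟩
    · rw [pow_zero, mul_one]
      exact bin_deg _ _ (hψ.1 i)
    · exact Trans_mem α f g 1 ψ hψ l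
    · rw [bin_eval]
      exact hψv i
  · have hP : (![0, 1] : Fin 2 → k) ≠ 0 := by
      intro h0
      exact one_ne_zero (congrFun h0 1)
    obtain ⟨ψ, hψ, hψv⟩ := hu ![0, 1] hP v (fun l => by
      refine Eq.trans (Finset.sum_congr rfl fun i _ => ?_) (hv l)
      rw [Trans_inf α f (g l) (E l) (hgE l) i])
    refine ⟨fun i => MvPolynomial.aeval ![(1 : k[X]), X] (ψ i), ⟨fun i => ?_, fun l => ?_⟩, fun i => ?_⟩
    · rw [pow_zero, mul_one]
      exact bin_deg _ _ (hψ.1 i)
    · exact Trans_mem α f g 1 ψ hψ l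
    · rw [bin_coeff _ _ (hψ.1 i)]
      exact hψv i

/-- the coefficients of the sections -/
private noncomputable def Trans_co {k : Type*} [Field k] {r m : ℕ} (G : Fin r → Fin m → k[X])
    (a : Fin m → ℕ) : Wsub G a 1 →ₗ[k] (Fin m → Fin 3 → k) where
  toFun ψ := fun i j => (ψ.1 i).coeff j.1
  map_add' p q := by
    funext i j
    exact coeff_add (p.1 i) (q.1 i) j.1
  map_smul' c p := by
    funext i j
    exact coeff_smul c (p.1 i) j.1

private theorem Trans_fin {k : Type*} [Field k] {r m : ℕ} (G : Fin r → Fin m → k[X])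
    (a : Fin m → ℕ) (ha : ∀ i, a i ≤ 2) : Module.Finite k (Wsub G a 1) := by
  refine Module.Finite.of_injective (Trans_co G a) ?_
  have key : ∀ (p : Wsub G a 1) (i : Fin m) (n : ℕ), 3 ≤ n → (p.1 i).coeff n = 0 := by
    intro p i n hn
    have h1 : (p.1 i * X ^ 1).natDegree ≤ a i := p.2.1 i
    have h2 : (p.1 i * X ^ 1).coeff (n + 1) = (p.1 i).coeff n := coeff_mul_X_pow _ 1 n
    rw [← h2]
    refine coeff_eq_zero_of_natDegree_lt ?_
    have := ha i
    omega
  intro p q h
  refine Subtype.ext (funext fun i => ?_)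
  ext n
  by_cases hn : n < 3
  · exact congrFun (congrFun h i) ⟨n, hn⟩
  · rw [key p i n (not_lt.1 hn), key q i n (not_lt.1 hn)]

theorem finrank_le {k B : Type*} [Field k] [Fintype B] [DecidableEq B] {m r : ℕ} (α : B)
    (f : Fin m → B) (g : Fin r → MvPolynomial (Coord B m) k) :
    Module.finrank k (normalSections α f g 0) ≤
      Module.finrank k (Wsub (fun l i => jx (g l) i) (fun i => (if f i = α then 1 else 0) + 1) 1) := by
  have hfin : Module.Finite k
      (Wsub (fun l i => jx (g l) i) (fun i => (if f i = α then 1 else 0) + 1) 1) := by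
    refine Trans_fin _ _ fun i => ?_
    split_ifs <;> omega
  have hmem : ∀ ψ ∈ normalSections α f g 0, (fun i => MvPolynomial.aeval ![(1 : k[X]), X] (ψ i)) ∈
      Wsub (fun l i => jx (g l) i) (fun i => (if f i = α then 1 else 0) + 1) 1 := by
    intro ψ hψ
    refine ⟨fun i => ?_, fun l => Trans_mem α f g 0 ψ hψ l⟩
    have h1 : (ψ i).IsHomogeneous ((if f i = α then 1 else 0) + 0) := hψ.1 i
    have h2 := bin_deg _ _ h1
    have h3 := natDegree_mul_le (p := MvPolynomial.aeval ![(1 : k[X]), X] (ψ i)) (q := X ^ 1)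
    rw [natDegree_X_pow] at h3
    change (MvPolynomial.aeval ![(1 : k[X]), X] (ψ i) * X ^ 1).natDegree ≤
      (if f i = α then 1 else 0) + 1
    omega
  let φ : normalSections α f g 0 →ₗ[k]
      Wsub (fun l i => jx (g l) i) (fun i => (if f i = α then 1 else 0) + 1) 1 :=
    { toFun := fun ψ => ⟨fun i => MvPolynomial.aeval ![(1 : k[X]), X] (ψ.1 i), hmem ψ.1 ψ.2⟩
      map_add' := fun p q => Subtype.ext (funext fun i => map_add _ (p.1 i) (q.1 i))
      map_smul' := fun c p => Subtype.ext (funext fun i => map_smul _ c (p.1 i)) }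
  refine LinearMap.finrank_le_finrank_of_injective (f := φ) ?_
  refine (injective_iff_map_eq_zero φ).2 fun p hp => ?_
  refine Subtype.ext (funext fun i => ?_)
  have h1 : MvPolynomial.aeval ![(1 : k[X]), X] (p.1 i) = 0 :=
    congrFun (congrArg Subtype.val hp) i
  exact bin_inj _ _ (p.2.1 i) h1

end Pool.Agent.Lib.MP_1e3e9c_ag.LN
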