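import Pool.Agent.Lib.MP_1e3e9c_ag.LN.Surj
import Pool.Agent.Lib.MP_1e3e9c_ag.LN.Spec
import Pool.Agent.Lib.MP_1e3e9c_ag.LN.Lift
import Pool.Agent.Lib.MP_1e3e9c_ag.LN.Trans
import Pool.Agent.Lib.MP_1e3e9c_ag.LN.Desc
import Pool.Agent.Lib.MP_1e3e9c_ag.RC.Val

/-! # Lines on intersections with a variety that contains an unobstructed line -/

set_option autoImplicit false

namespace Pool.Agent.Lib.MP_1e3e9c_ag.LN

open Polynomial Pool.Agent.Lib.MP_1e3e9c_ag.RC

/-- evaluation commutes with a change of the coefficient ring -/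
theorem map_aeval {k R S ι : Type*} [Field k] [CommRing R] [CommRing S] [Algebra k R] [Algebra k S]
    (φ : R →ₐ[k] S) (P : ι → R) (F : MvPolynomial ι k) :
    φ (MvPolynomial.aeval P F) = MvPolynomial.aeval (fun i => φ (P i)) F := by
  have h : φ.comp (MvPolynomial.aeval P) = MvPolynomial.aeval (fun i => φ (P i)) := by
    apply MvPolynomial.algHom_ext
    intro i
    simp
  have h2 := congrArg (fun ψ : MvPolynomial ι k →ₐ[k] S => ψ F) h
  simpa using h2

/-- homogeneity in the factor `α`: the line may be rescaled -/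
theorem aeval_scale_line {k K ι B : Type*} [Field k] [Field K] [Algebra k K] [Fintype ι] [Fintype B]
    [DecidableEq B] (fc : ι → B) (α : B) (F : MvPolynomial ι k) (D : B → ℕ)
    (hF : F.IsWeightedHomogeneous (mdeg fc (fun _ => 1)) D) (u w : ι → K) (a s t : K) :
    MvPolynomial.aeval (linePt fc α u w (a * s) (a * t)) F
      = a ^ D α * MvPolynomial.aeval (linePt fc α u w s t) F := by
  classical
  have h1 : linePt fc α u w (a * s) (a * t)
      = fun c => (fun b : B => if b = α then a else 1) (fc c) ^ 1 * linePt fc α u w s t c := by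
    funext c
    rw [pow_one]
    unfold linePt
    dsimp only
    split_ifs
    · ring
    · rw [one_mul]
  have h2 := RC.aeval_scale (R := K) fc (fun _ => 1) F D hF (linePt fc α u w s t)
    (fun b : B => if b = α then a else 1)
  rw [h1, h2]
  congr 1
  rw [Finset.prod_eq_single α]
  · simp
  · intro b _ hb
    rw [if_neg hb, one_pow]
  · intro h
    exact absurd (Finset.mem_univ _) h

/-- an identity at all points `(1 : t)` of a line holds at all points -/
theorem all_points {k L ι B : Type*} [Field k] [Field L] [Infinite L] [Algebra k L] [Fintype ι]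
    [Fintype B] [DecidableEq B] (fc : ι → B) (α : B) (F F0 : MvPolynomial ι k) (D : B → ℕ)
    (hF : F.IsWeightedHomogeneous (mdeg fc (fun _ => 1)) D)
    (hF0 : F0.IsWeightedHomogeneous (mdeg fc (fun _ => 1)) D) (u w : ι → L) (ε : L)
    (h1 : ∀ t : L, MvPolynomial.aeval (linePt fc α u w 1 t) F +
      ε * MvPolynomial.aeval (linePt fc α u w 1 t) F0 = 0) (s t : L) :
    MvPolynomial.aeval (linePt fc α u w s t) F +
      ε * MvPolynomial.aeval (linePt fc α u w s t) F0 = 0 := by
  classical
  have hEs : ∀ a : L, a ≠ 0 → MvPolynomial.aeval (linePt fc α u w a t) F +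
      ε * MvPolynomial.aeval (linePt fc α u w a t) F0 = 0 := by
    intro a ha
    have e1 := aeval_scale_line (K := L) fc α F D hF u w a 1 (a⁻¹ * t)
    have e2 := aeval_scale_line (K := L) fc α F0 D hF0 u w a 1 (a⁻¹ * t)
    rw [mul_one, ← mul_assoc, mul_inv_cancel₀ ha, one_mul] at e1 e2
    rw [e1, e2]
    have e3 := h1 (a⁻¹ * t)
    calc a ^ D α * MvPolynomial.aeval (linePt fc α u w 1 (a⁻¹ * t)) F +
          ε * (a ^ D α * MvPolynomial.aeval (linePt fc α u w 1 (a⁻¹ * t)) F0)
        = a ^ D α * (MvPolynomial.aeval (linePt fc α u w 1 (a⁻¹ * t)) F +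
          ε * MvPolynomial.aeval (linePt fc α u w 1 (a⁻¹ * t)) F0) := by ring
      _ = 0 := by rw [e3, mul_zero]
  let pF : L[X] :=
    MvPolynomial.aeval (linePt fc α (fun i => C (u i)) (fun i => C (w i)) X (C t)) F +
      C ε * MvPolynomial.aeval (linePt fc α (fun i => C (u i)) (fun i => C (w i)) X (C t)) F0
  have hev : ∀ a : L, pF.eval a = MvPolynomial.aeval (linePt fc α u w a t) F +
      ε * MvPolynomial.aeval (linePt fc α u w a t) F0 := by
    intro a
    let ψ : L[X] →ₐ[k] L := (Polynomial.aeval a : L[X] →ₐ[L] L).restrictScalars k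
    have hψ : ∀ q : L[X], ψ q = q.eval a := by
      intro q
      simp [ψ, Polynomial.aeval_def, Polynomial.eval₂_eq_eval_map]
    have h2 : (fun c => ψ (linePt fc α (fun i => C (u i)) (fun i => C (w i)) X (C t) c))
        = linePt fc α u w a t := by
      funext c
      have h3 := linePt_map (ψ : L[X] →+* L) fc α (fun i => C (u i)) (fun i => C (w i)) X (C t) c
      have h4 : (fun i => (ψ : L[X] →+* L) (C (u i))) = u := by
        funext i
        have := hψ (C (u i))
        rw [Polynomial.eval_C] at this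
        exact this
      have h4' : (fun i => (ψ : L[X] →+* L) (C (w i))) = w := by
        funext i
        have := hψ (C (w i))
        rw [Polynomial.eval_C] at this
        exact this
      have h5 : (ψ : L[X] →+* L) X = a := by
        have := hψ X
        rw [Polynomial.eval_X] at this
        exact this
      have h6 : (ψ : L[X] →+* L) (C t) = t := by
        have := hψ (C t)
        rw [Polynomial.eval_C] at this
        exact this
      rw [h4, h4', h5, h6] at h3
      exact h3
    rw [← hψ pF]
    simp only [pF, map_add, map_mul]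
    rw [map_aeval, map_aeval, h2, hψ, Polynomial.eval_C]
  have hp0 : pF = 0 := by
    by_contra hne
    have hfin := pF.roots.toFinset.finite_toSet
    have hsub : {a : L | a ≠ 0} ⊆ pF.roots.toFinset := by
      intro a ha
      simp only [Finset.mem_coe, Multiset.mem_toFinset, Polynomial.mem_roots hne]
      exact (hev a).trans (hEs a ha)
    have hinf : ({a : L | a ≠ 0}).Infinite := by
      have h7 : ({a : L | a ≠ 0}) = ({0} : Set L)ᶜ := by
        ext a
        simp
      rw [h7]
      exact (Set.finite_singleton (0 : L)).infinite_compl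
    exact hinf (hfin.subset hsub)
  rw [← hev s, hp0, Polynomial.eval_zero]

/-- the evaluation at a point of the base line -/
theorem eval_pt {k B : Type*} [Field k] [DecidableEq B] {m : ℕ} (α : B)
    (P : MvPolynomial (Coord B m) k) (x : k) :
    (MvPolynomial.aeval (pt (fun _ => (0 : k[X]))) P).eval x =
      MvPolynomial.eval (basePt α m 1 x) P := by
  have h1 := map_aeval (Polynomial.aeval x : k[X] →ₐ[k] k)
    (pt (fun _ => (0 : k[X])) : Coord B m → k[X]) P
  have h2 : (fun i => (Polynomial.aeval x : k[X] →ₐ[k] k)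
      ((pt (fun _ => (0 : k[X])) : Coord B m → k[X]) i)) = basePt α m 1 x := by
    funext c
    rcases c with b | (_ | i)
    · simp [pt, basePt]
    · simp [pt, basePt]
    · simp [pt, basePt]
  rw [h2] at h1
  rw [← MvPolynomial.coe_aeval_eq_eval]
  exact h1

theorem exists_line {k B : Type*} [Field k] [IsAlgClosed k] [Fintype B] [DecidableEq B]
    {m r c : ℕ} (α : B) (f : Fin m → B) (g : Fin r → MvPolynomial (Coord B m) k)
    (E : Fin r → B → ℕ) (hgE : ∀ l, IsForm α f (g l) (E l))
    (hline : ∀ l, ∀ s t : k, MvPolynomial.eval (basePt α m s t) (g l) = 0)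
    (hsmooth : ∃ t, SmoothAt α g t) (hu : Unobstructed α f g)
    (D : Fin c → B → ℕ) (hD : ∀ j b, 1 ≤ D j b) (hED : ∀ l j, E l α ≤ D j α + 1)
    (F : Fin c → MvPolynomial (Coord B m) k) (hF : ∀ j, IsForm α f (F j) (D j))
    (hcount : ∑ j, (D j α + 1) ≤ Module.finrank k (normalSections α f g 0)) :
    ∃ u w : Coord B m → k, IsLine (fac α f) α u w ∧ ∀ s t : k,
      (∀ l, MvPolynomial.eval (linePt (fac α f) α u w s t) (g l) = 0) ∧
      ∀ j, MvPolynomial.eval (linePt (fac α f) α u w s t) (F j) = 0 := by
  classical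
  obtain ⟨t0, S, hind, Δ, hΔ, hmem⟩ := hsmooth
  have hline' : ∀ l, MvPolynomial.aeval (pt (fun _ => (0 : k[X]))) (g l) = 0 := by
    intro l
    apply Polynomial.funext
    intro x
    rw [eval_pt α, hline, Polynomial.eval_zero]
  have hΔ' : MvPolynomial.aeval (pt (fun _ => (0 : k[X]))) Δ ≠ 0 := by
    intro h
    apply hΔ
    rw [← eval_pt, h, Polynomial.eval_zero]
  have hind' : LinearIndependent k
      (fun l : S => fun i : Fin m => (jx (g l) i).eval t0) := by
    have h1 : (fun l : S => fun i : Fin m => (jx (g l) i).eval t0) =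
        fun l : S => fun i : Fin m => MvPolynomial.eval ![1, t0] (jac α (g l) i) := by
      funext l i
      rw [← jx_eq α, bin_eval]
    rw [h1]
    exact hind
  have hG := free_of_unobstructed α f g E hgE hu
  have hcount' := hcount.trans (finrank_le α f g)
  obtain ⟨P, hP, hsurj⟩ := surj (fun l i => jx (g l) i) (fun i => if f i = α then 1 else 0)
    (fun i => by split_ifs <;> omega) (fun l => E l α) hG (fun j => D j α)
    (fun j => hD j α) hED hcount'
  obtain ⟨F0, hF0D, hF0⟩ := special m c α f D hD P hP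
  obtain ⟨η, hη, hgη, hFη⟩ := lift α f g E hgE hline' t0 S hind' Δ hΔ' hmem hG D P hP hsurj F F0
    hF hF0D hF0
  let K0 := FractionRing (PowerSeries k)
  let L := AlgebraicClosure K0
  let φ : PowerSeries k →ₐ[k] L :=
    (IsScalarTower.toAlgHom k K0 L).comp (IsScalarTower.toAlgHom k (PowerSeries k) K0)
  have hφ : Function.Injective φ :=
    (FaithfulSMul.algebraMap_injective K0 L).comp (IsFractionRing.injective (PowerSeries k) K0)
  let τ : L := φ PowerSeries.X
  have hτ : τ ≠ 0 := by
    intro h
    have h1 : φ PowerSeries.X = φ 0 := by rw [map_zero]; exact h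
    exact PowerSeries.X_ne_zero (hφ h1)
  have hu' : Transcendental k τ⁻¹ := by
    intro h
    have h1 : IsAlgebraic k τ := by
      have h2 := h.inv
      rwa [inv_inv] at h2
    have h3 : IsAlgebraic k (PowerSeries.X : PowerSeries k) :=
      (isAlgebraic_algHom_iff φ hφ).1 h1
    obtain ⟨p, hp0, hp⟩ := h3
    apply hp0
    have h4 : (p : PowerSeries k) = Polynomial.aeval (PowerSeries.X : PowerSeries k) p := by
      have h5 : (Polynomial.coeToPowerSeries.algHom k : k[X] →ₐ[k] PowerSeries k)
          = Polynomial.aeval (PowerSeries.X : PowerSeries k) := by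
        apply Polynomial.algHom_ext
        simp [Polynomial.coeToPowerSeries.algHom_apply]
      have h6 := congrArg (fun ψ : k[X] →ₐ[k] PowerSeries k => ψ p) h5
      simpa [Polynomial.coeToPowerSeries.algHom_apply] using h6
    rw [hp] at h4
    exact_mod_cast h4
  obtain ⟨V, hk, hV⟩ := RC.exists_val (k := k) (L := L) τ⁻¹ hu'
  -- the line over `L`
  let u : Coord B m → L :=
    Sum.elim (fun _ => 1) (fun o => o.elim 0 (fun i => φ ((η i).coeff 0)))
  let w : Coord B m → L :=
    Sum.elim (fun _ => 0) (fun o => o.elim 1 (fun i => φ ((η i).coeff 1)))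
  have hl : IsLine (fac α f) α u w := by
    refine ⟨⟨Sum.inl α, Sum.inr none, rfl, rfl, ?_⟩, fun b hb => ⟨Sum.inl b, rfl, ?_⟩⟩
    · simp [u, w]
    · simp [u]
  -- the values of the power series line at `(1 : t)`
  have hpt : ∀ t : L, ∃ ψ : (PowerSeries k)[X] →ₐ[k] L, (∀ a, ψ (C a) = φ a) ∧
      (fun c => ψ (pt η c)) = linePt (fac α f) α u w 1 t := by
    intro t
    let ψ : (PowerSeries k)[X] →ₐ[k] L :=
      (Polynomial.aeval t : L[X] →ₐ[L] L).restrictScalars k |>.comp (Polynomial.mapAlgHom φ)
    have hψC : ∀ a, ψ (C a) = φ a := by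
      intro a
      simp [ψ]
    have hψX : ψ X = t := by
      simp [ψ]
    refine ⟨ψ, hψC, ?_⟩
    funext c
    rcases c with b | (_ | i)
    · by_cases hb : b = α
      · simp [pt, linePt, fac, u, w, hb]
      · simp [pt, linePt, fac, u, hb]
    · simp [pt, linePt, fac, u, w, hψX]
    · have h1 := hη i
      by_cases hi : f i = α
      · rw [if_pos hi] at h1
        have h2 : η i = C ((η i).coeff 0) + C ((η i).coeff 1) * X := by
          rw [add_comm]
          exact Polynomial.eq_X_add_C_of_natDegree_le_one h1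
        have h3 : ψ (η i) = φ ((η i).coeff 0) + φ ((η i).coeff 1) * t := by
          conv_lhs => rw [h2]
          rw [map_add, map_mul, hψC, hψC, hψX]
        show ψ (η i) = linePt (fac α f) α u w 1 t (Sum.inr (some i))
        rw [h3]
        unfold linePt
        rw [if_pos (show fac α f (Sum.inr (some i)) = α from hi)]
        show _ = 1 * φ ((η i).coeff 0) + t * φ ((η i).coeff 1)
        ring
      · rw [if_neg hi] at h1
        have h2 : η i = C ((η i).coeff 0) := Polynomial.eq_C_of_natDegree_le_zero h1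
        have h3 : ψ (η i) = φ ((η i).coeff 0) := by
          conv_lhs => rw [h2]
          rw [hψC]
        show ψ (η i) = linePt (fac α f) α u w 1 t (Sum.inr (some i))
        rw [h3]
        unfold linePt
        rw [if_neg (show ¬ fac α f (Sum.inr (some i)) = α from hi)]
        rfl
  have hEg : ∀ l, ∀ t : L, MvPolynomial.aeval (linePt (fac α f) α u w 1 t) (g l) +
      τ⁻¹ * MvPolynomial.aeval (linePt (fac α f) α u w 1 t) (0 : MvPolynomial (Coord B m) k)
        = 0 := by
    intro l t
    obtain ⟨ψ, hψC, hψ⟩ := hpt t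
    have h1 := congrArg ψ (hgη l)
    rw [map_aeval, map_zero, hψ] at h1
    rw [h1, map_zero, mul_zero, add_zero]
  have hEF : ∀ j, ∀ t : L, MvPolynomial.aeval (linePt (fac α f) α u w 1 t) (F j) +
      τ⁻¹ * MvPolynomial.aeval (linePt (fac α f) α u w 1 t) (F0 j) = 0 := by
    intro j t
    obtain ⟨ψ, hψC, hψ⟩ := hpt t
    have h1 := congrArg ψ (hFη j)
    rw [map_add, map_mul, map_zero, hψC, map_aeval, map_aeval, hψ] at h1
    have h5 : MvPolynomial.aeval (linePt (fac α f) α u w 1 t) (F0 j) +
        τ * MvPolynomial.aeval (linePt (fac α f) α u w 1 t) (F j) = 0 := h1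
    calc MvPolynomial.aeval (linePt (fac α f) α u w 1 t) (F j) +
          τ⁻¹ * MvPolynomial.aeval (linePt (fac α f) α u w 1 t) (F0 j)
        = τ⁻¹ * (MvPolynomial.aeval (linePt (fac α f) α u w 1 t) (F0 j) +
          τ * MvPolynomial.aeval (linePt (fac α f) α u w 1 t) (F j)) := by
          rw [mul_add, ← mul_assoc τ⁻¹ τ, inv_mul_cancel₀ hτ, one_mul, add_comm]
      _ = 0 := by rw [h5, mul_zero]
  obtain ⟨_, u', w', hl', hW⟩ := reduceL (J := Fin r ⊕ Fin c) V hk τ⁻¹ hV (fac α f) α
    (Sum.elim g F) (Sum.elim (fun _ => 0) F0) (Sum.elim E D)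
    (by
      rintro (l | j)
      · exact hgE l
      · exact hF j)
    (by
      rintro (l | j)
      · exact MvPolynomial.isWeightedHomogeneous_zero k _ _
      · exact hF0D j) u w hl
    (by
      rintro (l | j) s t
      · exact all_points (fac α f) α (g l) 0 (E l) (hgE l)
          (MvPolynomial.isWeightedHomogeneous_zero k _ _) u w τ⁻¹ (hEg l) s t
      · exact all_points (fac α f) α (F j) (F0 j) (D j) (hF j) (hF0D j) u w τ⁻¹ (hEF j) s t)
  obtain ⟨u'', w'', hl'', hW''⟩ := descendL (fac α f) α (Sum.elim g F) u' w' hl' hW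
  exact ⟨u'', w'', hl'', fun s t => ⟨fun l => hW'' (Sum.inl l) s t, fun j => hW'' (Sum.inr j) s t⟩⟩

end Pool.Agent.Lib.MP_1e3e9c_ag.LN
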