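import Pool.Agent.Lib.MP_1e3e9c_ag.LN.Defs
import Pool.Agent.Lib.MP_1e3e9c_ag.RC.Deg

/-! # Red: reduction of a line modulo the maximal ideal of the valuation ring


(A) CHANGE OF BASIS in the factor `α`.  Among the pairs `(c, c')` with `fc c = α = fc c'` choose one with maximal `|M c c'|`, `M c c' = u c * w c' - u c' * w c`
 (`Finite.exists_max`/`Finset.exists_max_image`); it is not zero (`hl.indep`).  Call it `(p, q)`.  Put for `fc c = α`:
 `u₁ c = M c q / M p q`, `w₁ c = M p c / M p q`.  Then `|u₁ c| ≤ 1`, `|w₁ c| ≤ 1`, `u₁ p = 1`, `u₁ q = 0`, `w₁ p = 0`, `w₁ q = 1`, and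
 `u₁ = (w q • u - u q • w) / M p q`, `w₁ = (- w p • u + u p • w) / M p q` on the factor `α`, so
 `s' * u₁ c + t' * w₁ c = s * u c + t * w c` with `s = (s' * w q - t' * w p) / M p q`, `t = (- s' * u q + t' * u p) / M p q`.
(B) SCALING in the factors `b ≠ α`: choose `c_b` with `fc c_b = b` and `|u c_b|` maximal (among the `c` with `fc c = b`), `u c_b ≠ 0` by `hl.ne_zero`; `lam b = u c_b`, `lam α = 1`;
 `u₁ c = u c / lam (fc c)` for `fc c ≠ α`; `w₁ c = 0` there.
 Then `linePt fc α u w s t c = lam (fc c) ^ 1 * linePt fc α u₁ w₁ s' t' c`, and by `RC.aeval_scale` (weights `1`)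
 `aeval (linePt fc α u w s t) G = (∏ b, lam b ^ D j b) * aeval (linePt fc α u₁ w₁ s' t') G` for `G = F j, F0 j`; the factor is not zero.  So for all `s' t' : L`
 `aeval (linePt fc α u₁ w₁ s' t') (F j) + ε * aeval (linePt fc α u₁ w₁ s' t') (F0 j) = 0`.
(C) `u₁`, `w₁` have their values in `V`: `u₁ = algebraMap ∘ U`, `w₁ = algebraMap ∘ W`.  `V` is a `k`-algebra by `hk`.  For `s t : V` the equation holds in `V`; apply the residue map:
 `ε ↦ 0`, every pair of elements of the residue field lifts to `V`.  This is exactly as in `FL/Red.lean` (`ψ : k →+* V`, `MvPolynomial.eval₂`, ...); `linePt` commutes with ring homs.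
 `indep`: at `(p, q)` the minor of the reductions is `1 * 1 - 0 * 0 = 1`.  `ne_zero`: `U c_b = 1`. -/

set_option autoImplicit false

namespace Pool.Agent.Lib.MP_1e3e9c_ag.LN

open Pool.Agent.Lib.MP_1e3e9c_ag.RC

theorem linePt_map {ι B R S : Type*} [DecidableEq B] [CommRing R] [CommRing S] (φ : R →+* S)
    (fc : ι → B) (α : B) (u w : ι → R) (s t : R) (c : ι) :
    φ (linePt fc α u w s t c) =
      linePt fc α (fun i => φ (u i)) (fun i => φ (w i)) (φ s) (φ t) c := by
  unfold linePt
  split_ifs
  · rw [map_add, map_mul, map_mul]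
  · rfl

theorem reduceL {k L ι B J : Type*} [Field k] [Field L] [Algebra k L] [Fintype ι] [Fintype B]
    [DecidableEq B] (V : ValuationSubring L) (hk : ∀ c : k, algebraMap k L c ∈ V) (ε : L)
    (hε : ε ∈ V.nonunits) (fc : ι → B) (α : B) (F F0 : J → MvPolynomial ι k) (D : J → B → ℕ)
    (hF : ∀ j, (F j).IsWeightedHomogeneous (mdeg fc (fun _ => 1)) (D j))
    (hF0 : ∀ j, (F0 j).IsWeightedHomogeneous (mdeg fc (fun _ => 1)) (D j))
    (u w : ι → L) (hl : IsLine fc α u w)
    (h : ∀ j, ∀ s t : L, MvPolynomial.aeval (linePt fc α u w s t) (F j) +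
      ε * MvPolynomial.aeval (linePt fc α u w s t) (F0 j) = 0) :
    ∃ (_ : Algebra k (IsLocalRing.ResidueField V)) (u' w' : ι → IsLocalRing.ResidueField V),
      IsLine fc α u' w' ∧
      ∀ j, ∀ s t, MvPolynomial.aeval (linePt fc α u' w' s t) (F j) = 0 := by
  classical
  -- (A) the basis in the factor `α`
  obtain ⟨c0, c0', hc0, hc0', hM0⟩ := hl.indep
  obtain ⟨⟨p, q⟩, hpq, hmax⟩ := Finset.exists_max_image
    (Finset.univ.filter (fun x : ι × ι => fc x.1 = α ∧ fc x.2 = α))
    (fun x => V.valuation (u x.1 * w x.2 - u x.2 * w x.1))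
    ⟨(c0, c0'), by simp [hc0, hc0']⟩
  have hp : fc p = α ∧ fc q = α := by simpa using hpq
  have hmax' : ∀ c c', fc c = α → fc c' = α →
      V.valuation (u c * w c' - u c' * w c) ≤ V.valuation (u p * w q - u q * w p) :=
    fun c c' h h' => hmax (c, c') (by simp [h, h'])
  have hM : u p * w q - u q * w p ≠ 0 := by
    intro h0
    have h1 := hmax' c0 c0' hc0 hc0'
    rw [h0, map_zero, le_zero_iff, map_eq_zero] at h1
    exact hM0 h1
  -- (B) the scaling in the other factors
  have hB : ∀ b, ∃ cb : L, cb ≠ 0 ∧ (b = α → cb = 1) ∧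
      (b ≠ α → (∃ c, fc c = b ∧ u c = cb) ∧ ∀ c, fc c = b → V.valuation (u c) ≤ V.valuation cb) := by
    intro b
    by_cases hb : b = α
    · exact ⟨1, one_ne_zero, fun _ => rfl, fun h1 => absurd hb h1⟩
    · obtain ⟨c1, hc1, hu1⟩ := hl.ne_zero b hb
      obtain ⟨cb, hcb, hmaxb⟩ := Finset.exists_max_image (Finset.univ.filter (fun c => fc c = b))
        (fun c => V.valuation (u c)) ⟨c1, by simp [hc1]⟩
      have hcb' : fc cb = b := by simpa using hcb
      have hmaxb' : ∀ c, fc c = b → V.valuation (u c) ≤ V.valuation (u cb) :=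
        fun c hc => hmaxb c (by simp [hc])
      refine ⟨u cb, ?_, fun h1 => absurd h1 hb, fun _ => ⟨⟨cb, hcb', rfl⟩, hmaxb'⟩⟩
      intro h0
      have h1 := hmaxb' c1 hc1
      rw [h0, map_zero, le_zero_iff, map_eq_zero] at h1
      exact hu1 h1
  choose lam hlam0 hlamα hlam1 using hB
  have hdiv : ∀ x y : L, y ≠ 0 → V.valuation x ≤ V.valuation y → x / y ∈ V := by
    intro x y hy hxy
    rw [← V.valuation_le_one_iff, map_div₀]
    have hy' : V.valuation y ≠ 0 := (map_ne_zero V.valuation).2 hy
    exact (div_le_one₀ (zero_lt_iff.2 hy')).2 hxy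
  have hU : ∀ c, ∃ x : V, (x : L) = if fc c = α then
      (u c * w q - u q * w c) / (u p * w q - u q * w p) else u c / lam (fc c) := by
    intro c
    by_cases hc : fc c = α
    · exact ⟨⟨_, hdiv _ _ hM (hmax' c q hc hp.2)⟩, by rw [if_pos hc]⟩
    · exact ⟨⟨_, hdiv _ _ (hlam0 (fc c)) ((hlam1 (fc c) hc).2 c rfl)⟩, by rw [if_neg hc]⟩
  have hW : ∀ c, ∃ x : V, (x : L) = if fc c = α then
      (u p * w c - u c * w p) / (u p * w q - u q * w p) else 0 := by
    intro c
    by_cases hc : fc c = α
    · exact ⟨⟨_, hdiv _ _ hM (hmax' p c hp.1 hc)⟩, by rw [if_pos hc]⟩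
    · exact ⟨0, by rw [if_neg hc]; rfl⟩
  choose U hU using hU
  choose W hW using hW
  -- the equation for `U`, `W` over `L`
  have hL : ∀ j, ∀ s t : L,
      MvPolynomial.aeval (linePt fc α (fun c => (U c : L)) (fun c => (W c : L)) s t) (F j) +
      ε * MvPolynomial.aeval (linePt fc α (fun c => (U c : L)) (fun c => (W c : L)) s t)
        (F0 j) = 0 := by
    intro j s' t'
    obtain ⟨s, hs⟩ : ∃ s : L, s = (s' * w q - t' * w p) / (u p * w q - u q * w p) := ⟨_, rfl⟩
    obtain ⟨t, ht⟩ : ∃ t : L, t = (- s' * u q + t' * u p) / (u p * w q - u q * w p) := ⟨_, rfl⟩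
    have h3 : linePt fc α u w s t = fun c : ι =>
        lam (fc c) ^ (fun _ : ι => 1) c *
          linePt fc α (fun c => (U c : L)) (fun c => (W c : L)) s' t' c := by
      funext c
      by_cases hc : fc c = α
      · simp only [linePt, hc, if_true, pow_one, hlamα α rfl, one_mul]
        rw [hU c, hW c, if_pos hc, if_pos hc, hs, ht]
        field_simp
        ring
      · simp only [linePt, hc, if_false, pow_one]
        rw [hU c, if_neg hc, mul_div_cancel₀ _ (hlam0 (fc c))]
    have h1 : ∀ G : MvPolynomial ι k, G.IsWeightedHomogeneous (mdeg fc (fun _ => 1)) (D j) →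
        MvPolynomial.aeval (linePt fc α u w s t) G = (∏ b, lam b ^ D j b) *
          MvPolynomial.aeval (linePt fc α (fun c => (U c : L)) (fun c => (W c : L)) s' t') G := by
      intro G hG
      have h2 := RC.aeval_scale (R := L) fc (fun _ => 1) G (D j) hG
        (linePt fc α (fun c => (U c : L)) (fun c => (W c : L)) s' t') lam
      rw [← h2, h3]
    have h4 := h j s t
    rw [h1 _ (hF j), h1 _ (hF0 j)] at h4
    have h5 : (∏ b, lam b ^ D j b) ≠ 0 :=
      Finset.prod_ne_zero_iff.2 fun b _ => pow_ne_zero _ (hlam0 b)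
    have h6 : (∏ b, lam b ^ D j b) *
        (MvPolynomial.aeval (linePt fc α (fun c => (U c : L)) (fun c => (W c : L)) s' t') (F j) +
        ε * MvPolynomial.aeval (linePt fc α (fun c => (U c : L)) (fun c => (W c : L)) s' t')
          (F0 j)) = 0 := by
      linear_combination h4
    exact (mul_eq_zero.1 h6).resolve_left h5
  -- (C) the algebra structures
  let ψ : k →+* V := (algebraMap k L).codRestrict V hk
  have hψ : (algebraMap V L).comp ψ = algebraMap k L := by
    ext x
    rfl
  have hu1 : ε ∈ V := V.nonunits_subset hε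
  have hu2 : IsLocalRing.residue V ⟨ε, hu1⟩ = 0 := by
    obtain ⟨h3, h4⟩ := V.mem_nonunits_iff_exists_mem_maximalIdeal.1 hε
    exact (IsLocalRing.residue_eq_zero_iff _).2 h4
  have hmapE : ∀ (s t : V) (G : MvPolynomial ι k),
      algebraMap V L (MvPolynomial.eval₂ ψ (linePt fc α U W s t) G) =
      MvPolynomial.aeval (linePt fc α (fun c => (U c : L)) (fun c => (W c : L)) (s : L) (t : L))
        G := by
    intro s t G
    rw [MvPolynomial.eval₂_comp_left (algebraMap V L) ψ _ G, hψ, MvPolynomial.aeval_def]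
    have h5 : (algebraMap V L) ∘ (linePt fc α U W s t) =
        linePt fc α (fun c => (U c : L)) (fun c => (W c : L)) (s : L) (t : L) := by
      funext c
      exact linePt_map (algebraMap V L) fc α U W s t c
    rw [h5]
  have hVeq : ∀ j, ∀ s t : V, MvPolynomial.eval₂ ψ (linePt fc α U W s t) (F j) +
      ⟨ε, hu1⟩ * MvPolynomial.eval₂ ψ (linePt fc α U W s t) (F0 j) = 0 := by
    intro j s t
    have hinj : Function.Injective (algebraMap V L) := Subtype.val_injective
    apply hinj
    rw [map_add, map_mul, map_zero, hmapE, hmapE]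
    exact hL j s t
  let algκ : Algebra k (IsLocalRing.ResidueField V) := ((IsLocalRing.residue V).comp ψ).toAlgebra
  refine ⟨algκ, fun c => IsLocalRing.residue V (U c), fun c => IsLocalRing.residue V (W c),
    ⟨⟨p, q, hp.1, hp.2, ?_⟩, ?_⟩, ?_⟩
  · have e1 : U p = 1 := by
      apply Subtype.val_injective
      change (U p : L) = ((1 : V) : L)
      rw [hU p, if_pos hp.1, div_self hM]
      rfl
    have e2 : U q = 0 := by
      apply Subtype.val_injective
      change (U q : L) = ((0 : V) : L)
      rw [hU q, if_pos hp.2, sub_self, zero_div]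
      rfl
    have e3 : W q = 1 := by
      apply Subtype.val_injective
      change (W q : L) = ((1 : V) : L)
      rw [hW q, if_pos hp.2, div_self hM]
      rfl
    change IsLocalRing.residue V (U p) * IsLocalRing.residue V (W q) -
      IsLocalRing.residue V (U q) * IsLocalRing.residue V (W p) ≠ 0
    rw [e1, e2, e3, map_one, map_zero, zero_mul, mul_one, sub_zero]
    exact one_ne_zero
  · intro b hb
    obtain ⟨⟨c, hc, hcu⟩, -⟩ := hlam1 b hb
    refine ⟨c, hc, ?_⟩
    have e1 : U c = 1 := by
      apply Subtype.val_injective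
      change (U c : L) = ((1 : V) : L)
      rw [hU c, if_neg (by rw [hc]; exact hb), hc, hcu, div_self (hlam0 b)]
      rfl
    change IsLocalRing.residue V (U c) ≠ 0
    rw [e1, map_one]
    exact one_ne_zero
  · intro j s t
    obtain ⟨s0, rfl⟩ := IsLocalRing.residue_surjective s
    obtain ⟨t0, rfl⟩ := IsLocalRing.residue_surjective t
    have h3 := MvPolynomial.eval₂_comp_left (IsLocalRing.residue V) ψ (linePt fc α U W s0 t0) (F j)
    have h5 := congrArg (IsLocalRing.residue V) (hVeq j s0 t0)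
    rw [map_add, map_mul, map_zero, hu2, zero_mul, add_zero, h3] at h5
    have h6 : (IsLocalRing.residue V) ∘ (linePt fc α U W s0 t0) =
        linePt fc α (fun c => IsLocalRing.residue V (U c)) (fun c => IsLocalRing.residue V (W c))
          (IsLocalRing.residue V s0) (IsLocalRing.residue V t0) := by
      funext c
      exact linePt_map (IsLocalRing.residue V) fc α U W s0 t0 c
    rw [h6] at h5
    rw [MvPolynomial.aeval_def]
    exact h5

end Pool.Agent.Lib.MP_1e3e9c_ag.LN
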