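import Pool.Agent.Lib.MP_1e3e9c_ag.LN.Core

/-! # Split: the kernel of a matrix of forms on the projective line is a sum of line bundles


 there are a finite type `H : Type`, `bh : H → ℕ`, `ν : H → Fin m → k[X]` with
 (1) `b ≤ bh h` and `ν h ∈ Wsub G a (bh h)`;
 (2) for `q ≥ b` and `ψ ∈ Wsub G a q` there is `c : H → k[X]` with `(c h * X ^ q).natDegree ≤ bh h`, `ψ i = ∑ h, c h * ν h i`;
 (3) for every `x : k` the vectors `(ν h i).eval x` are linearly independent.
Facts: `Wsub G a q = ⊥` for `q > A` (if `ψ i ≠ 0` then `(ψ i * X ^ q).natDegree = (ψ i).natDegree + q > a i`), so `p(A + 1)` holds with `H` empty.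
`Wsub G a q' ≤ Wsub G a q` for `q ≤ q'`.  If `ψ ∈ Wsub G a (q + 1)` then `ψ` and `X * ψ` lie in `Wsub G a q`.  (DIV) If `ψ ∈ Wsub G a q` and
`(ψ i).eval x = 0` for all `i` then `ψ i = (X - C x) * ψ' i` with `ψ' ∈ Wsub G a (q + 1)` (cancel `X - C x` in `∑ ψ i * G l i = 0`; degrees: if
`ψ' i ≠ 0`, `natDegree (ψ i) = natDegree (ψ' i) + 1`).  `Wsub G a q` is finite dimensional: it embeds by the coefficients into
`Π i, Fin (a i + 1) → k`.
STEP `p(b + 1) → p(b)`.  Let `U = Wsub G a (b+1) ⊔ X * Wsub G a (b+1)` (`Submodule.map` of the multiplication by `X`), `U ≤ Wsub G a b`.  Choose a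
complement `Q` of `U` in the whole space, `B = Q ⊓ Wsub G a b`: `U ⊓ B = ⊥`, `U ⊔ B = Wsub G a b` (modular law).  Let `β j`, `j < n`, be a
basis of the finite dimensional space `B`.  New family: `H ⊕ Fin n`, `bh (inr j) = b`, `ν (inr j) = β j`.
(2) for `q ≥ b + 1`: the old `c`, and `0` for the new indices.  For `q = b`: `ψ = ψ₁ + X * ψ₂ + ∑ λ j • β j` with `ψ₁, ψ₂ ∈ Wsub G a (b+1)`;
take `c¹, c²` for these from (2) (`q = b + 1`), and `c (inl h) = c¹ h + X * c² h`, `c (inr j) = C (λ j)`.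
(3) Let `∑_h c h * (ν h i)(x) + ∑_j λ j * (β j i)(x) = 0` for all `i`.  `ψ i = ∑_h C (c h) * ν h i + ∑_j C (λ j) * β j i` lies in `Wsub G a b` and
vanishes at `x`, so by (DIV) `ψ = (X - C x) ψ'`, `ψ' ∈ Wsub G a (b+1)`, hence `ψ ∈ U`.  Also `ν h ∈ Wsub G a (b+1) ≤ U`.  So
`∑ λ j • β j ∈ U ⊓ B = ⊥`, `λ = 0` (basis), and then `c = 0` by (3) of the old family.
At the end (`b = 0`) replace `H` by `Fin (card H)` (`Fintype.equivFin`). -/

set_option autoImplicit false

namespace Pool.Agent.Lib.MP_1e3e9c_ag.LN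

open Polynomial

section

variable {k : Type*} [Field k]

private theorem Split_deg {p : k[X]} {q n : ℕ} :
    (p * X ^ q).natDegree ≤ n ↔ p = 0 ∨ p.natDegree + q ≤ n := by
  by_cases hp : p = 0
  · rw [hp, zero_mul, natDegree_zero]
    exact ⟨fun _ => Or.inl rfl, fun _ => Nat.zero_le n⟩
  · rw [natDegree_mul_X_pow q hp]
    exact ⟨fun h => Or.inr h, fun h => h.resolve_left hp⟩

private theorem Split_mono {r m : ℕ} {G : Fin r → Fin m → k[X]} {a : Fin m → ℕ} {q q' : ℕ}
    (h : q ≤ q') : Wsub G a q' ≤ Wsub G a q := by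
  rintro ψ ⟨h1, h2⟩
  refine mem_Wsub.mpr ⟨fun i => ?_, h2⟩
  have h3 := Split_deg.mp (h1 i)
  exact Split_deg.mpr (h3.imp_right fun h4 => by omega)

/-- multiplication by `X` -/
private noncomputable def Split_X (k : Type*) [Field k] (m : ℕ) :
    (Fin m → k[X]) →ₗ[k] (Fin m → k[X]) where
  toFun := fun ψ i => X * ψ i
  map_add' := fun ψ φ => funext fun i => mul_add X (ψ i) (φ i)
  map_smul' := fun c ψ => funext fun i => mul_smul_comm c X (ψ i)

private theorem Split_mulX {r m : ℕ} {G : Fin r → Fin m → k[X]} {a : Fin m → ℕ} {q : ℕ}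
    {ψ : Fin m → k[X]} (h : ψ ∈ Wsub G a (q + 1)) : Split_X k m ψ ∈ Wsub G a q := by
  obtain ⟨h1, h2⟩ := h
  refine mem_Wsub.mpr ⟨fun i => ?_, fun l => ?_⟩
  · show (X * ψ i * X ^ q).natDegree ≤ a i
    have e : X * ψ i * X ^ q = ψ i * X ^ (q + 1) := by ring
    rw [e]
    exact h1 i
  · show ∑ i, X * ψ i * G l i = 0
    have e : ∀ i, X * ψ i * G l i = X * (ψ i * G l i) := fun i => mul_assoc _ _ _
    rw [Finset.sum_congr rfl fun i _ => e i, ← Finset.mul_sum, h2 l, mul_zero]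

private theorem Split_div {r m : ℕ} {G : Fin r → Fin m → k[X]} {a : Fin m → ℕ} {q : ℕ}
    {ψ : Fin m → k[X]} (h : ψ ∈ Wsub G a q) (x : k) (hx : ∀ i, (ψ i).eval x = 0) :
    ∃ ψ' ∈ Wsub G a (q + 1), ∀ i, ψ i = (X - C x) * ψ' i := by
  obtain ⟨h1, h2⟩ := h
  have h3 : ∀ i, ∃ p, ψ i = (X - C x) * p := fun i => dvd_iff_isRoot.mpr (hx i)
  choose ψ' hψ' using h3
  refine ⟨ψ', mem_Wsub.mpr ⟨fun i => ?_, fun l => ?_⟩, hψ'⟩
  · rw [Split_deg]
    by_cases h0 : ψ' i = 0
    · exact Or.inl h0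
    · right
      have h4 := Split_deg.mp (h1 i)
      have h5 : ψ i ≠ 0 := by
        rw [hψ' i]
        exact mul_ne_zero (X_sub_C_ne_zero x) h0
      have h6 := h4.resolve_left h5
      rw [hψ' i, natDegree_mul (X_sub_C_ne_zero x) h0, natDegree_X_sub_C] at h6
      omega
  · apply mul_left_cancel₀ (X_sub_C_ne_zero x)
    rw [mul_zero, ← h2 l, Finset.mul_sum]
    refine Finset.sum_congr rfl fun i _ => ?_
    rw [hψ' i, mul_assoc]

/-- the coefficients -/
private noncomputable def Split_co (k : Type*) [Field k] {m : ℕ} (a : Fin m → ℕ) :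
    (Fin m → k[X]) →ₗ[k] ((i : Fin m) → Fin (a i + 1) → k) where
  toFun := fun ψ i j => (ψ i).coeff j
  map_add' := fun ψ φ => funext fun i => funext fun j => coeff_add (ψ i) (φ i) j
  map_smul' := fun c ψ => funext fun i => funext fun j => coeff_smul c (ψ i) j

private theorem Split_fin {r m : ℕ} (G : Fin r → Fin m → k[X]) (a : Fin m → ℕ) (q : ℕ)
    (B : Submodule k (Fin m → k[X])) (hB : B ≤ Wsub G a q) : Module.Finite k B := by
  refine Module.Finite.of_injective ((Split_co k a).domRestrict B) ?_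
  rw [← LinearMap.ker_eq_bot, LinearMap.ker_eq_bot']
  intro ψ hψ
  apply Subtype.ext
  funext i
  ext j
  show ((ψ : Fin m → k[X]) i).coeff j = 0
  have h1 := Split_deg.mp ((hB ψ.2).1 i)
  by_cases hj : j < a i + 1
  · exact congrFun (congrFun hψ i) ⟨j, hj⟩
  · rcases h1 with h1 | h1
    · rw [h1, coeff_zero]
    · exact coeff_eq_zero_of_natDegree_lt (by omega)

private theorem Split_step {r m : ℕ} (G : Fin r → Fin m → k[X]) (a : Fin m → ℕ) (b : ℕ)
    (h : ∃ (H : Type) (_ : Fintype H) (bh : H → ℕ) (ν : H → Fin m → k[X]),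
      (∀ h, b + 1 ≤ bh h ∧ ν h ∈ Wsub G a (bh h)) ∧
      (∀ q, b + 1 ≤ q → ∀ ψ ∈ Wsub G a q, ∃ c : H → k[X],
        (∀ h, (c h * X ^ q).natDegree ≤ bh h) ∧ ∀ i, ψ i = ∑ h, c h * ν h i) ∧
      ∀ x : k, LinearIndependent k (fun h : H => fun i : Fin m => (ν h i).eval x)) :
    ∃ (H : Type) (_ : Fintype H) (bh : H → ℕ) (ν : H → Fin m → k[X]),
      (∀ h, b ≤ bh h ∧ ν h ∈ Wsub G a (bh h)) ∧
      (∀ q, b ≤ q → ∀ ψ ∈ Wsub G a q, ∃ c : H → k[X],
        (∀ h, (c h * X ^ q).natDegree ≤ bh h) ∧ ∀ i, ψ i = ∑ h, c h * ν h i) ∧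
      ∀ x : k, LinearIndependent k (fun h : H => fun i : Fin m => (ν h i).eval x) := by
  obtain ⟨H, hH, bh, ν, h1, h2, h3⟩ := h
  set U := Wsub G a (b + 1) ⊔ (Wsub G a (b + 1)).map (Split_X k m) with hU
  have hU0 : U ≤ Wsub G a b := by
    refine sup_le (Split_mono (Nat.le_succ b)) ?_
    rintro _ ⟨ψ, hψ, rfl⟩
    exact Split_mulX hψ
  obtain ⟨Q, hQ⟩ := Submodule.exists_isCompl U
  set B := Q ⊓ Wsub G a b with hBdef
  have hB0 : B ≤ Wsub G a b := inf_le_right
  have hUB : U ⊓ B = ⊥ := by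
    rw [hBdef, ← inf_assoc, hQ.inf_eq_bot, bot_inf_eq]
  have hUB' : U ⊔ B = Wsub G a b := by
    rw [hBdef, ← sup_inf_assoc_of_le Q hU0, hQ.sup_eq_top, top_inf_eq]
  have : Module.Finite k B := Split_fin G a b B hB0
  let β : Module.Basis (Fin (Module.finrank k B)) k B := Module.finBasis k B
  refine ⟨H ⊕ Fin (Module.finrank k B), inferInstance, Sum.elim bh (fun _ => b),
    Sum.elim ν (fun j => (β j : Fin m → k[X])), ?_, ?_, ?_⟩
  · rintro (h | j)
    · exact ⟨(Nat.le_succ b).trans (h1 h).1, (h1 h).2⟩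
    · exact ⟨le_refl b, hB0 (β j).2⟩
  · intro q hq ψ hψ
    by_cases hqb : b + 1 ≤ q
    · obtain ⟨c, hc1, hc2⟩ := h2 q hqb ψ hψ
      refine ⟨Sum.elim c (fun _ => 0), ?_, ?_⟩
      · rintro (h | j)
        · exact hc1 h
        · show ((0 : k[X]) * X ^ q).natDegree ≤ b
          rw [zero_mul, natDegree_zero]
          exact Nat.zero_le b
      · intro i
        rw [Fintype.sum_sum_type]
        show ψ i = ∑ h, c h * ν h i + ∑ j, (0 : k[X]) * (β j : Fin m → k[X]) i
        have e0 : ∑ j, (0 : k[X]) * (β j : Fin m → k[X]) i = 0 :=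
          Finset.sum_eq_zero fun j _ => zero_mul _
        rw [hc2 i, e0, add_zero]
    · obtain rfl : q = b := by omega
      rw [← hUB'] at hψ
      obtain ⟨u, hu, w, hw, rfl⟩ := Submodule.mem_sup.mp hψ
      obtain ⟨ψ₁, hψ₁, v, hv, rfl⟩ := Submodule.mem_sup.mp hu
      obtain ⟨ψ₂, hψ₂, rfl⟩ := hv
      obtain ⟨c₁, hc1, hc1'⟩ := h2 (q + 1) (le_refl _) ψ₁ hψ₁
      obtain ⟨c₂, hc2, hc2'⟩ := h2 (q + 1) (le_refl _) ψ₂ hψ₂
      refine ⟨Sum.elim (fun h => c₁ h + X * c₂ h) (fun j => C (β.repr ⟨w, hw⟩ j)), ?_, ?_⟩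
      · rintro (h | j)
        · show ((c₁ h + X * c₂ h) * X ^ q).natDegree ≤ bh h
          rw [add_mul]
          refine natDegree_add_le_of_degree_le ?_ ?_
          · have h4 := Split_deg.mp (hc1 h)
            exact Split_deg.mpr (h4.imp_right fun h5 => by omega)
          · have e : X * c₂ h * X ^ q = c₂ h * X ^ (q + 1) := by ring
            rw [e]
            exact hc2 h
        · exact natDegree_C_mul_X_pow_le _ _
      · intro i
        have h5 : w = ∑ j, β.repr ⟨w, hw⟩ j • (β j : Fin m → k[X]) := by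
          have h6 := congrArg (fun z : B => (z : Fin m → k[X])) (β.sum_repr ⟨w, hw⟩)
          have h7 : ((∑ j, β.repr ⟨w, hw⟩ j • β j : B) : Fin m → k[X]) =
              ∑ j, β.repr ⟨w, hw⟩ j • (β j : Fin m → k[X]) := by
            rw [Submodule.coe_sum]
            rfl
          exact h6.symm.trans h7
        have h7 : w i = ∑ j, C (β.repr ⟨w, hw⟩ j) * (β j : Fin m → k[X]) i := by
          conv_lhs => rw [h5]
          rw [Finset.sum_apply]
          refine Finset.sum_congr rfl fun j _ => ?_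
          rw [Pi.smul_apply, smul_eq_C_mul]
        rw [Fintype.sum_sum_type]
        show ψ₁ i + X * ψ₂ i + w i = ∑ h, (c₁ h + X * c₂ h) * ν h i +
          ∑ j, C (β.repr ⟨w, hw⟩ j) * (β j : Fin m → k[X]) i
        rw [h7, hc1' i, hc2' i, Finset.mul_sum, ← Finset.sum_add_distrib]
        congr 1
        refine Finset.sum_congr rfl fun h _ => ?_
        ring
  · intro x
    rw [Fintype.linearIndependent_iff]
    intro g hg
    rw [Fintype.sum_sum_type] at hg
    set s := ∑ j, g (Sum.inr j) • β j with hs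
    set t := ∑ h, g (Sum.inl h) • ν h with ht
    have htU : t ∈ Wsub G a (b + 1) := by
      rw [ht]
      exact Submodule.sum_mem _ fun h _ => Submodule.smul_mem _ _ (Split_mono (h1 h).1 (h1 h).2)
    have hst : t + (s : Fin m → k[X]) ∈ Wsub G a b :=
      Submodule.add_mem _ (Split_mono (Nat.le_succ b) htU) (hB0 s.2)
    have hs' : ∀ i, (s : Fin m → k[X]) i = ∑ j, g (Sum.inr j) • (β j : Fin m → k[X]) i := by
      intro i
      rw [hs, Submodule.coe_sum, Finset.sum_apply]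
      rfl
    have hev : ∀ i, ((t + (s : Fin m → k[X])) i).eval x = 0 := by
      intro i
      have h4 := congrFun hg i
      rw [Pi.add_apply, Finset.sum_apply, Finset.sum_apply] at h4
      rw [Pi.add_apply, eval_add, hs' i, ht, Finset.sum_apply, eval_finset_sum, eval_finset_sum]
      rw [Pi.zero_apply] at h4
      rw [← h4]
      congr 1
      · refine Finset.sum_congr rfl fun h _ => ?_
        rw [Pi.smul_apply, eval_smul]
        rfl
      · refine Finset.sum_congr rfl fun j _ => ?_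
        rw [eval_smul]
        rfl
    obtain ⟨ψ', hψ', h5⟩ := Split_div hst x hev
    have h6 : t + (s : Fin m → k[X]) = Split_X k m ψ' - x • ψ' := by
      funext i
      rw [h5 i, Pi.sub_apply, Pi.smul_apply, smul_eq_C_mul, sub_mul]
      rfl
    have h7 : t + (s : Fin m → k[X]) ∈ U := by
      rw [h6]
      exact Submodule.sub_mem _ (Submodule.mem_sup_right (Submodule.mem_map_of_mem hψ'))
        (Submodule.smul_mem _ _ (Submodule.mem_sup_left hψ'))
    have h8 : (s : Fin m → k[X]) ∈ U := by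
      have h9 := Submodule.sub_mem _ h7 (Submodule.mem_sup_left htU : t ∈ U)
      rwa [add_sub_cancel_left] at h9
    have h9 : (s : Fin m → k[X]) ∈ U ⊓ B := ⟨h8, s.2⟩
    rw [hUB, Submodule.mem_bot] at h9
    have h10 : s = 0 := Subtype.ext h9
    have h11 := Fintype.linearIndependent_iff.mp β.linearIndependent (fun j => g (Sum.inr j))
      (hs.symm.trans h10)
    have h12 := Fintype.linearIndependent_iff.mp (h3 x) (fun h => g (Sum.inl h)) (by
      have h13 : ∑ j, g (Sum.inr j) • (fun i : Fin m =>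
          ((Sum.elim ν (fun j => (β j : Fin m → k[X])) (Sum.inr j)) i).eval x) = 0 := by
        refine Finset.sum_eq_zero fun j _ => ?_
        rw [h11 j, zero_smul]
      rw [h13, add_zero] at hg
      exact hg)
    rintro (h | j)
    · exact h12 h
    · exact h11 j

private theorem Split_all {r m : ℕ} (G : Fin r → Fin m → k[X]) (a : Fin m → ℕ) (n : ℕ) :
    ∀ b, b + n = ∑ i, a i + 1 →
    ∃ (H : Type) (_ : Fintype H) (bh : H → ℕ) (ν : H → Fin m → k[X]),
      (∀ h, b ≤ bh h ∧ ν h ∈ Wsub G a (bh h)) ∧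
      (∀ q, b ≤ q → ∀ ψ ∈ Wsub G a q, ∃ c : H → k[X],
        (∀ h, (c h * X ^ q).natDegree ≤ bh h) ∧ ∀ i, ψ i = ∑ h, c h * ν h i) ∧
      ∀ x : k, LinearIndependent k (fun h : H => fun i : Fin m => (ν h i).eval x) := by
  induction n with
  | zero =>
    intro b hb
    refine ⟨Fin 0, inferInstance, fun _ => 0, fun _ _ => 0, fun h => h.elim0, ?_, ?_⟩
    · intro q hq ψ hψ
      refine ⟨fun _ => 0, fun h => h.elim0, fun i => ?_⟩
      rw [Finset.univ_eq_empty, Finset.sum_empty]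
      rcases Split_deg.mp (hψ.1 i) with h | h
      · exact h
      · have h1 : a i ≤ ∑ i, a i := Finset.single_le_sum (fun _ _ => Nat.zero_le _)
          (Finset.mem_univ i)
        omega
    · intro x
      exact linearIndependent_empty_type
  | succ n ih =>
    intro b hb
    exact Split_step G a b (ih (b + 1) (by omega))

end

theorem split {k : Type*} [Field k] {r m : ℕ} (G : Fin r → Fin m → k[X]) (a : Fin m → ℕ) :
    ∃ (ρ : ℕ) (b : Fin ρ → ℕ) (ν : Fin ρ → Fin m → k[X]),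
      (∀ h, ν h ∈ Wsub G a (b h)) ∧
      (∀ q, ∀ ψ ∈ Wsub G a q, ∃ c : Fin ρ → k[X],
        (∀ h, (c h * X ^ q).natDegree ≤ b h) ∧ ∀ i, ψ i = ∑ h, c h * ν h i) ∧
      ∀ x : k, LinearIndependent k (fun h : Fin ρ => fun i : Fin m => (ν h i).eval x) := by
  obtain ⟨H, hH, bh, ν, h1, h2, h3⟩ := Split_all G a (∑ i, a i + 1) 0 (by omega)
  let e := Fintype.equivFin H
  refine ⟨Fintype.card H, fun h => bh (e.symm h), fun h => ν (e.symm h), fun h => (h1 _).2, ?_, ?_⟩
  · intro q ψ hψ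
    obtain ⟨c, hc1, hc2⟩ := h2 q (Nat.zero_le q) ψ hψ
    refine ⟨fun h => c (e.symm h), fun h => hc1 _, fun i => ?_⟩
    rw [hc2 i]
    exact (Equiv.sum_comp e.symm (fun h => c h * ν h i)).symm
  · intro x
    exact (h3 x).comp e.symm e.symm.injective

end Pool.Agent.Lib.MP_1e3e9c_ag.LN
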