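import Pool.Agent.Lib.MP_1e3e9c_ag.LN.Jets
import Pool.Agent.Lib.MP_1e3e9c_ag.LN.Split
import Pool.Agent.Lib.MP_1e3e9c_ag.LN.Count
import Pool.Agent.Lib.MP_1e3e9c_ag.RC.Tile

/-! # Surj: first order jets that are surjective on sections


Take `ρ`, `b`, `ν` from `split G (a + 1)` (i.e. for `fun i => a i + 1`).
(1) `b h ≤ 2`: `ν h ≠ 0` by the linear independence at `x = 0` (`LinearIndependent.ne_zero`), so some `ν h i ≠ 0` and
`(ν h i).natDegree + b h ≤ a i + 1 ≤ 2`.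
(2) `∑ j, (d j + 1) ≤ finrank (Wsub G (a+1) 1) ≤ ∑ h, b h` by `count`.
(3) Let `H₁ = {h // 1 ≤ b h}`, `r₁ = card H₁`, `σ : Fin r₁ ≃ H₁`, `b₁ n = b (σ n) - 1 ≤ 1 ≤ d j`.  `∑ n, (b₁ n + 1) = ∑ h, b h`
(`Finset.sum` over the subtype, the other terms are zero).  `RC.tile r₁ c b₁ d` gives `s`.
(4) `T j h = if hh : 1 ≤ b h then (s (σ.symm ⟨h, hh⟩) j).elim 0 (fun p => X ^ p) else 0`; `(T j h * X ^ b h).natDegree ≤ d j + 1` because
`p + b₁ ≤ d j` for `s = some p`.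
(5) `jets` (with `a + 1`, `e + 1`, `d j + 1`; `e l + 1 ≤ d j + 1 + 1`) for every `j` gives `P j`, `∑ i, P j i * ν h i = T j h`.
(6) For `q` take `δ` from the tile lemma and `ψ i = ∑ n : Fin r₁, δ n * ν (σ n) i`.  `(ψ i).natDegree ≤ a i`: `δ n * ν (σ n) i = 0` or
`(ν (σ n) i).natDegree + b (σ n) ≤ a i + 1` and `(δ n).natDegree ≤ b (σ n) - 1`.  `∑ i, ψ i * G l i = 0`.
`∑ i, P j i * ψ i = ∑ n, δ n * T j (σ n) = ∑ n, (s n j).elim 0 (fun p => X ^ p * δ n) = q j`. -/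

set_option autoImplicit false

namespace Pool.Agent.Lib.MP_1e3e9c_ag.LN

open Polynomial

theorem surj {k : Type*} [Field k] [IsAlgClosed k] {r m c : ℕ} (G : Fin r → Fin m → k[X])
    (a : Fin m → ℕ) (ha : ∀ i, a i ≤ 1) (e : Fin r → ℕ)
    (hG : FreeMat G (fun i => a i + 1) (fun l => e l + 1)) (d : Fin c → ℕ) (hd1 : ∀ j, 1 ≤ d j)
    (hed : ∀ l j, e l ≤ d j + 1)
    (hcount : ∑ j, (d j + 1) ≤ Module.finrank k (Wsub G (fun i => a i + 1) 1)) :
    ∃ P : Fin c → Fin m → k[X], (∀ j i, (P j i * X ^ (a i + 1)).natDegree ≤ d j + 1) ∧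
      ∀ q : Fin c → k[X], (∀ j, (q j).natDegree ≤ d j) →
        ∃ ψ : Fin m → k[X], (∀ i, (ψ i).natDegree ≤ a i) ∧ (∀ l, ∑ i, ψ i * G l i = 0) ∧
          ∀ j, ∑ i, P j i * ψ i = q j := by
  classical
  obtain ⟨ρ, b, ν, hν, hspan, hind⟩ := split G (fun i => a i + 1)
  have hdeg : ∀ h i, ν h i ≠ 0 → (ν h i).natDegree + b h ≤ a i + 1 := by
    intro h i h0
    have h1 := (hν h).1 i
    rwa [natDegree_mul_X_pow _ h0] at h1
  have hb2 : ∀ h, b h ≤ 2 := by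
    intro h
    obtain ⟨i, hi⟩ := Function.ne_iff.1 ((hind 0).ne_zero h)
    have h0 : ν h i ≠ 0 := by
      intro h1
      apply hi
      show (ν h i).eval 0 = 0
      rw [h1, eval_zero]
    have h2 := hdeg h i h0
    have h3 := ha i
    omega
  have hsum1 : ∑ j, (d j + 1) ≤ ∑ h, b h :=
    hcount.trans (count G (fun i => a i + 1) b ν (hspan 1))
  obtain ⟨r₁, ⟨σ⟩⟩ : ∃ r₁ : ℕ, Nonempty (Fin r₁ ≃ {h : Fin ρ // 1 ≤ b h}) :=
    ⟨_, ⟨(Fintype.equivFin _).symm⟩⟩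
  have hσ : ∀ n, 1 ≤ b (σ n).1 := fun n => (σ n).2
  have hsum2 : ∑ h, b h = ∑ n, (b (σ n).1 - 1 + 1) := by
    have e1 : ∑ n, (b (σ n).1 - 1 + 1) = ∑ n, b (σ n).1 :=
      Finset.sum_congr rfl fun n _ => Nat.sub_add_cancel (hσ n)
    rw [e1, Equiv.sum_comp σ (fun h => b h.1),
      ← Finset.sum_subtype (Finset.univ.filter fun h => 1 ≤ b h) (fun h => by simp) b]
    refine (Finset.sum_subset (Finset.filter_subset _ _) fun h _ hh => ?_).symm
    by_contra h0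
    exact hh (Finset.mem_filter.2 ⟨Finset.mem_univ h, by omega⟩)
  obtain ⟨s, hs1, hs2⟩ := RC.tile (k := k) r₁ c (fun n => b (σ n).1 - 1) d
    (fun n j _ => by
      have h1 := hb2 (σ n).1
      have h2 := hd1 j
      omega) (hsum2 ▸ hsum1)
  obtain ⟨T, hT⟩ : ∃ T : Fin c → Fin ρ → k[X], ∀ j h, T j h =
      if hh : 1 ≤ b h then (s (σ.symm ⟨h, hh⟩) j).elim 0 (fun p => X ^ p) else 0 :=
    ⟨_, fun _ _ => rfl⟩
  have hTdeg : ∀ j h, (T j h * X ^ b h).natDegree ≤ d j + 1 := by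
    intro j h
    rw [hT]
    by_cases hh : 1 ≤ b h
    · rw [dif_pos hh]
      cases hs : s (σ.symm ⟨h, hh⟩) j with
      | none => simp
      | some p =>
        have h1 := (hs1 _ _ _ hs).2
        simp only [Equiv.apply_symm_apply] at h1
        show (X ^ p * X ^ b h : k[X]).natDegree ≤ d j + 1
        rw [← pow_add, natDegree_X_pow]
        omega
    · rw [dif_neg hh, zero_mul, natDegree_zero]
      exact Nat.zero_le _
  have hP : ∀ j, ∃ P : Fin m → k[X], (∀ i, (P i * X ^ (a i + 1)).natDegree ≤ d j + 1) ∧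
      ∀ h, ∑ i, P i * ν h i = T j h := fun j =>
    jets G (fun i => a i + 1) (fun l => e l + 1) hG b ν hν
      (fun ψ hψ => by
        obtain ⟨c', hc1, hc2⟩ := hspan 0 ψ hψ
        refine ⟨c', fun h => ?_, hc2⟩
        have h1 := hc1 h
        rwa [pow_zero, mul_one] at h1) (hind 0) (d j + 1)
      (fun l => Nat.add_le_add_right (hed l j) 1) (T j) (hTdeg j)
  choose P hP1 hP2 using hP
  refine ⟨P, hP1, fun q hq => ?_⟩
  obtain ⟨δ, hδ1, hδ2⟩ := hs2 q hq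
  refine ⟨fun i => ∑ n, δ n * ν (σ n).1 i, fun i => ?_, fun l => ?_, fun j => ?_⟩
  · refine natDegree_sum_le_of_forall_le _ _ fun n _ => ?_
    by_cases h0 : ν (σ n).1 i = 0
    · rw [h0, mul_zero, natDegree_zero]
      exact Nat.zero_le _
    · have h1 := hdeg _ i h0
      have h2 := hδ1 n
      have h3 := hσ n
      refine natDegree_mul_le.trans ?_
      omega
  · have e1 : ∀ i, (∑ n, δ n * ν (σ n).1 i) * G l i = ∑ n, δ n * (ν (σ n).1 i * G l i) := by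
      intro i
      rw [Finset.sum_mul]
      exact Finset.sum_congr rfl fun n _ => mul_assoc _ _ _
    rw [Finset.sum_congr rfl fun i _ => e1 i, Finset.sum_comm]
    refine Finset.sum_eq_zero fun n _ => ?_
    rw [← Finset.mul_sum, (hν (σ n).1).2 l, mul_zero]
  · have e1 : ∀ i, P j i * ∑ n, δ n * ν (σ n).1 i = ∑ n, δ n * (P j i * ν (σ n).1 i) := by
      intro i
      rw [Finset.mul_sum]
      exact Finset.sum_congr rfl fun n _ => by ring
    rw [Finset.sum_congr rfl fun i _ => e1 i, Finset.sum_comm, ← hδ2 j]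
    refine Finset.sum_congr rfl fun n _ => ?_
    rw [← Finset.mul_sum, hP2, hT, dif_pos (hσ n)]
    have e2 : σ.symm ⟨(σ n).1, hσ n⟩ = n := σ.symm_apply_apply n
    rw [e2]
    cases s n j with
    | none => exact mul_zero _
    | some p => exact mul_comm _ _

end Pool.Agent.Lib.MP_1e3e9c_ag.LN
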